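import Pool.Agent.Lib.QX.Defs

/-! Statements of the independent steps. -/

namespace Pool.Agent.Lib.QX

open Finset
open scoped BigOperators

/-- two-point inequality -/
def TP : Prop :=
  ∀ (X ι : Type) [Fintype X] [DecidableEq X] [Nonempty X] [Fintype ι] [DecidableEq ι]
    (f g : (ι → X) → ℝ) (l : ℝ), 0 ≤ l → (∀ x, 0 ≤ f x) → (∀ x, 0 ≤ g x) →
    (∀ x y, f x * g y ≤ Real.exp (l * hammingDist x y)) →
    (𝔼 x, f x) * (𝔼 x, g x) ≤ Real.exp (l ^ 2 * Fintype.card ι / 4)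

/-- two sets far apart -/
def TP2 : Prop :=
  ∀ (X ι : Type) [Fintype X] [DecidableEq X] [Nonempty X] [Fintype ι] [DecidableEq ι]
    (G G' : (ι → X) → Prop) (r γ : ℝ), 0 ≤ γ →
    (∀ x y, G x → G' y → r ≤ hammingDist x y) →
    dens G * dens G' ≤ Real.exp (γ ^ 2 * Fintype.card ι - 2 * γ * r)

/-- blow-up: few points are far from a dense set -/
def NEAR : Prop :=
  ∀ (X ι : Type) [Fintype X] [DecidableEq X] [Nonempty X] [Fintype ι] [DecidableEq ι]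
    (G : (ι → X) → Prop) (r : ℕ),
    dens G * dens (fun x => ¬ ∃ y, G y ∧ hammingDist x y ≤ r) ≤
      Real.exp (-((r : ℝ) ^ 2 / Fintype.card ι))

/-- tail of the weighted distance from a point -/
def TAIL : Prop :=
  ∀ (ι : Type) [Fintype ι] [DecidableEq ι] (w : ι → ℕ) (W n r : ℝ) (a : ι → Bool),
    0 ≤ W → (∀ i, (w i : ℝ) ≤ W) → (Fintype.card ι : ℝ) ≤ n → 0 ≤ r →
    dens (fun x => 2 * W * r < |2 * (dw w a x : ℝ) - ∑ i, (w i : ℝ)|) ≤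
      4 * Real.exp (-(r ^ 2 / n))

/-- cross Frankl-Rodl for intersections -/
def FRI : Prop :=
  ∃ ε : ℝ, 0 < ε ∧ ∀ (ι : Type) [Fintype ι] [DecidableEq ι] (F G : (ι → Bool) → Prop) (l : ℕ),
    Fintype.card ι ≤ 5 * l → 10 * l ≤ 3 * Fintype.card ι →
    (∀ x y, F x → G y → #{i | x i = true ∧ y i = true} ≠ l) →
    dens F * dens G ≤ 2 * Real.exp (-(ε * Fintype.card ι))

/-- cross Frankl-Rodl for the Hamming distance -/
def FR : Prop := ∃ ε : ℝ, 0 < ε ∧ ∃ m0 : ℕ, FRat ε m0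

/-- dense neighbourhoods -/
def DN : Prop := ∀ e3 : ℝ, 0 < e3 → ∃ e2 : ℝ, 0 < e2 ∧ e2 ≤ e3 ∧ ∃ m0 : ℕ, DNat e3 e2 m0

/-- Welch bound -/
def WEL : Prop :=
  ∀ (X E : Type) [Fintype X] [Nonempty X] [NormedAddCommGroup E] [InnerProductSpace ℂ E]
    [FiniteDimensional ℂ E] (e : X → E) (k : ℕ) (z : ℝ), (∀ x, ‖e x‖ = 1) → 0 < z → z < 1 →
    z ^ k * (1 - z) ^ Module.finrank ℂ E ≤ 𝔼 x, 𝔼 y, ‖inner ℂ (e x) (e y)‖ ^ (2 * k)

/-- a heavy cap -/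
def CAP : Prop :=
  ∀ (X E : Type) [Fintype X] [NormedAddCommGroup E] [InnerProductSpace ℂ E]
    [FiniteDimensional ℂ E] (A : X → Prop) (v : X → E) (t : ℝ), (∀ x, A x → v x ≠ 0) →
    (∃ x, A x) → 0 < t → t ≤ 1 →
    ∃ e : E, ‖e‖ = 1 ∧ Real.exp (-(3 * Module.finrank ℂ E * Real.log (2 / t) + 4)) * dens A ≤
      dens (fun x => A x ∧ (1 - t) * ‖v x‖ ^ 2 ≤ ‖inner ℂ (v x) e‖ ^ 2)

/-- Hilbert-Schmidt picture of subspaces -/
def TR : Prop :=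
  ∀ (E : Type) [NormedAddCommGroup E] [InnerProductSpace ℂ E] [FiniteDimensional ℂ E],
    ∃ (W : Type) (_ : NormedAddCommGroup W) (_ : InnerProductSpace ℝ W) (F : Submodule ℂ E → W),
      (∀ U U' : Submodule ℂ E, U ≤ U' →
        ‖F U' - F U‖ ^ 2 = (Module.finrank ℂ U' : ℝ) - Module.finrank ℂ U) ∧
      (∀ U U' W1 W2 : Submodule ℂ E, U ⟂ W1 → U' ⟂ W2 → W1 ⟂ W2 →
        (Module.finrank ℂ U : ℝ) + Module.finrank ℂ U' -
          2 * ((Module.finrank ℂ E : ℝ) - Module.finrank ℂ W1 - Module.finrank ℂ W2) ≤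
          ‖F U - F U'‖ ^ 2)

/-- push-forward of a product weight -/
def PUSH : Prop :=
  ∀ (β X Y : Type) [Fintype β] [DecidableEq β] [Fintype X] [Fintype Y] [DecidableEq Y]
    (ν : β → X → ℝ) (ψ : β → X → Y) (G : (β → Y) → ℝ),
    ∑ x : β → X, (∏ B, ν B (x B)) * G (fun B => ψ B (x B)) =
      ∑ y : β → Y, (∏ B, ∑ x with ψ B x = y B, ν B x) * G y

/-- facts on the biased measure -/
def MUP : Prop :=
  ∀ (β : Type) [Fintype β] [DecidableEq β] (p : ℝ),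
    (∑ t : β → Bool, mu p t = 1) ∧
    (∑ t : β → Bool, mu p t * cnt t = p * Fintype.card β) ∧
    (∀ (Z : Finset β) (G : (β → Bool) → ℝ),
      ∑ t, ∑ s, mu p t * mu p s * G (mix Z t s) = ∑ t, mu p t * G t) ∧
    (∀ G : (β → Bool) → ℝ,
      ∑ t, ∑ s, mu p t * mu p s * G (sdf t s) = ∑ t, mu (p * (1 - p)) t * G t) ∧
    (∀ Z : Finset β, ∑ t : β → Bool, ∑ s : β → Bool,
      mu p t * mu p s * hammingDist t (mix Z t s) = 2 * p * (1 - p) * #Z)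

/-- the level weight dominates every biased measure -/
def LAM : Prop :=
  ∀ (β : Type) [Fintype β] [DecidableEq β],
    (∑ u : β → Bool, lam u ≤ Fintype.card β + 1) ∧
    ∀ p : ℝ, 0 ≤ p → p ≤ 1 → ∀ u : β → Bool, mu p u ≤ lam u

/-- few small sets -/
def CNT : Prop :=
  ∀ h : ℝ, 0 < h → ∃ κ : ℝ, 0 < κ ∧ ∀ (β : Type) [Fintype β] [DecidableEq β] (r : ℕ),
    (r : ℝ) ≤ κ * Fintype.card β →
    (#{K : Finset β | #K ≤ r} : ℝ) ≤ Real.exp (h * Fintype.card β)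

/-- first and second order Poincare inequalities -/
def POIN : Prop :=
  ∀ (β W : Type) [Fintype β] [DecidableEq β] [NormedAddCommGroup W] [InnerProductSpace ℝ W]
    (p : ℝ) (F : (β → Bool) → W), 0 ≤ p → p ≤ 1 →
    (∀ Z : Finset β, ∑ t, ∑ s, mu p t * mu p s * ‖F t - F (mix Z t s)‖ ^ 2 ≤
      2 * p * (1 - p) * ∑ B ∈ Z, bet p F B) ∧
    ∑ t, ∑ s, mu p t * mu p s * ‖F t - F s‖ ^ 2 ≤ p * (1 - p) * ∑ B, (bet p F B + gam p F B)

/-- Russo formula and mean value theorem -/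
def RUSSO : Prop :=
  ∀ (β : Type) [Fintype β] [DecidableEq β] (r : (β → Bool) → ℝ),
    ∃ p : ℝ, 1 / 4 ≤ p ∧ p ≤ 3 / 4 ∧ ∑ B, ∑ t, mu p t * dF r B t =
      2 * (∑ t, mu (3 / 4) t * r t - ∑ t, mu (1 / 4) t * r t)

/-- integrality of the rank jumps -/
def AN : Prop :=
  ∀ (β W : Type) [Fintype β] [DecidableEq β] [NormedAddCommGroup W] [InnerProductSpace ℝ W]
    (F : (β → Bool) → W) (r : (β → Bool) → ℕ) (Good : (β → Bool) → Prop) (φ δ η θ : ℝ),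
    0 < φ → 0 < δ → φ ≤ 1 - δ → 0 ≤ η → 0 ≤ θ →
    (∀ t B, ‖dF F B t‖ ^ 2 = dF (fun u => (r u : ℝ)) B t) →
    (∀ p : ℝ, 0 ≤ p → p ≤ 1 → ∑ u, mu p u * ind (¬ Good u) ≤ θ) →
    (∀ t, Good t → φ * (Fintype.card β + cnt t) - η ≤ r t) →
    (∀ t, Good t → (r t : ℝ) ≤ φ * (Fintype.card β + cnt t) + η) →
    (∀ t, (r t : ℝ) ≤ 5 * φ * Fintype.card β) →
    (∀ t t', Good t → Good t' → Good (sdf t t') →
      φ * hammingDist t t' - η ≤ ‖F t - F t'‖ ^ 2) →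
    (∀ t t', Good t → Good t' → φ * hammingDist t t' / 4 - η ≤ ‖F t - F t'‖ ^ 2) →
    δ ^ 2 * φ * Fintype.card β / 256 ≤ η + 8 * θ * φ * Fintype.card β

/-- a child instance: cells `π`, placed by the injection `e`, all other coordinates frozen -/
def CHILD : Prop :=
  ∀ (ι σ ι' E : Type) [Fintype ι] [DecidableEq ι] [Fintype σ] [Fintype ι'] [DecidableEq ι']
    [NormedAddCommGroup E] [InnerProductSpace ℂ E] (k : ι → ℕ) (H : ℕ) (A : (ι → Bool) → Prop)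
    (v : (ι → Bool) → E) (e : σ → ι) (π : σ → ι') (k' : ι' → ℕ),
    IsRep k H A v → Function.Injective e →
    (∀ j, ∑ x with π x = j, 2 ^ k (e x) = 2 ^ k' j) →
    ∃ (A' : (ι' → Bool) → Prop) (v' : (ι' → Bool) → E), IsRep k' H A' v' ∧ dens A ≤ dens A'

/-- cutting disjoint classes into groups of given sizes -/
def GRP : Prop :=
  ∀ (ι : Type) [DecidableEq ι] (n : ℕ) (S : Fin n → Finset ι) (g : Fin n → ℕ),
    (∀ i j, i ≠ j → Disjoint (S i) (S j)) →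
    ∃ e : (Σ i : Fin n, Fin (#(S i) / g i) × Fin (g i)) → ι,
      Function.Injective e ∧ ∀ x, e x ∈ S x.1

/-- tying the light coordinates -/
def TIE : Prop :=
  ∀ (ι E : Type) [Fintype ι] [DecidableEq ι] [NormedAddCommGroup E] [InnerProductSpace ℂ E]
    (k : ι → ℕ) (H J k0 : ℕ) (A : (ι → Bool) → Prop) (v : (ι → Bool) → E),
    IsRep k H A v → (∀ i, k i ≤ J) → k0 ≤ J →
    ∃ (ι' : Type) (_ : Fintype ι') (_ : DecidableEq ι') (k' : ι' → ℕ)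
      (A' : (ι' → Bool) → Prop) (v' : (ι' → Bool) → E),
      IsRep k' H A' v' ∧ dens A ≤ dens A' ∧ (∀ j, k0 ≤ k' j ∧ k' j ≤ J) ∧
      Fintype.card ι' ≤ Fintype.card ι ∧ #{i | k0 ≤ k i} ≤ Fintype.card ι' ∧
      #{i | k i = k0} ≤ #{j | k' j = k0} ∧ ∑ j, 2 ^ k' j ≤ ∑ i, 2 ^ k i ∧
      ∑ i, 2 ^ k i ≤ ∑ j, 2 ^ k' j + J * 2 ^ J

/-- restriction to a parity class of the light coordinates -/
def PAR : Prop :=
  ∀ (ι : Type) [Fintype ι] [DecidableEq ι] (k : ι → ℕ) (k0 : ℕ) (A : (ι → Bool) → Prop),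
    (∀ i, k0 ≤ k i) →
    ∃ A' : (ι → Bool) → Prop, (∀ x, A' x → A x) ∧ dens A ≤ 2 * dens A' ∧
      ∀ x y, A' x → A' y → 2 * 2 ^ k0 ∣ dw (fun i => 2 ^ k i) x y

/-- normal form -/
def NFORM : Prop :=
  ∀ (ι E : Type) [Fintype ι] [DecidableEq ι] [NormedAddCommGroup E] [InnerProductSpace ℂ E]
    (k : ι → ℕ) (H s J k0 m : ℕ) (A : (ι → Bool) → Prop) (v : (ι → Bool) → E),
    IsRep k H A v → (∀ i, k i ≤ J) → k0 ≤ J → J + 1 ≤ s → 2 ^ s ∣ H → m ≤ #{i | k i = k0} →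
    ∃ (β R : Type) (_ : Fintype β) (_ : DecidableEq β) (_ : Fintype R) (_ : DecidableEq R)
      (I : Inst s J β R E), Fintype.card R = m ∧ dens A ≤ 2 * I.den ∧
      #{i | k0 ≤ k i} ≤ 4 * Fintype.card β + m + 3 * (J + 1) ∧
      4 * Fintype.card β + m ≤ Fintype.card ι ∧
      I.off ≤ |2 * (H : ℝ) - ∑ i, (2 : ℝ) ^ k i| + 4 * (J + 1) * 2 ^ J

/-- positivity with explicit numbers; the class `k0` is the light one -/
def POS1 : Prop :=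
  ∀ (εF : ℝ) (m0 : ℕ), FRat εF m0 →
  ∀ (ι E : Type) [Fintype ι] [DecidableEq ι] [NormedAddCommGroup E] [InnerProductSpace ℂ E]
    [FiniteDimensional ℂ E] (k : ι → ℕ) (H J k0 : ℕ) (A : (ι → Bool) → Prop)
    (v : (ι → Bool) → E) (μ n r t z : ℝ) (q : ℕ),
    IsRep k H A v → (∀ i, k0 ≤ k i ∧ k i ≤ J) → 2 * 2 ^ k0 ∣ H →
    (∀ x y, A x → A y → 2 * 2 ^ k0 ∣ dw (fun i => 2 ^ k i) x y) →
    0 < μ → μ ≤ dens A → m0 ≤ #{i | k i = k0} → (Fintype.card ι : ℝ) ≤ n → 0 ≤ r →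
    0 < t → t ≤ 1 → 0 < z → z < 1 →
    16 * (|2 * (H : ℝ) - ∑ i, (2 : ℝ) ^ k i| + 4 * 2 ^ J * r) ≤ #{i | k i = k0} →
    Real.exp (-(εF * #{i | k i = k0})) ≤
      Real.exp (-(3 * Module.finrank ℂ E * Real.log (2 / t) + 4)) * (μ / 2) →
    z ^ q * (1 - z) ^ Module.finrank ℂ E ≤ (4 * t) ^ q + 8 * Real.exp (-(r ^ 2 / n)) / μ

/-- positivity -/
def POS : Prop := ∃ c : ℝ, 0 < c ∧ ∀ s J : ℕ, J + 1 ≤ s → LB s J (c / (J + 1) ^ 2)

/-- distances in a frame -/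
def FRAME : Prop :=
  (∀ (ω : Om) (W W' : Pr) (z z' : Bool × Bool), Dis W W' →
    hammingDist (opt ω W z) (opt ω W' z') = 2) ∧
  (∀ (ω : Om) (W : Pr) (z z' : Bool × Bool), W.1 = W.2 →
    hammingDist (opt ω W z) (opt ω W z') = if z.1 = z'.1 then 0 else 4) ∧
  (∀ (ω : Om) (W : Pr) (z z' : Bool × Bool), W.1 ≠ W.2 →
    hammingDist (opt ω W z) (opt ω W z') =
      (if z.1 = z'.1 then 0 else 2) + (if z.2 = z'.2 then 0 else 2))

/-- orthogonality of two families, and the parity of the target distance -/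
def ORT : Prop :=
  ∀ (s J : ℕ) (β R E : Type) [Fintype β] [DecidableEq β] [Fintype R] [DecidableEq R]
    [NormedAddCommGroup E] [InnerProductSpace ℂ E] (I : Inst s J β R E) (ω : β → Om)
    (K : Finset β) (c c' : β → V4),
    (∃ D : ℤ, (cross I.kB K c c' : ℤ) + 2 ^ I.k0 * D = I.H) ∧
    ∀ D : ℤ, (cross I.kB K c c' : ℤ) + 2 ^ I.k0 * D = I.H →
      |2 * (D : ℝ) - Fintype.card R| ≤ I.off + 4 * 2 ^ J * #K ∧
      ∀ (W W' : β → Pr), (∀ B, B ∉ K → Dis (W B) (W' B)) → ∀ a a' : R → Bool,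
        (∀ g g', I.A (fam ω K c W g) a → I.A (fam ω K c' W' g') a' →
          Even ((hammingDist a a' : ℤ) - D)) ∧
        ((hammingDist a a' : ℤ) = D → I.spanF ω K c W a ⟂ I.spanF ω K c' W' a')

/-- rank of a dense family -/
def FL : Prop :=
  ∀ (s J : ℕ) (φ ε : ℝ) (N0 : ℕ), 0 ≤ φ → 0 ≤ ε → LBat s (J + 2) φ ε N0 →
  ∀ (β R E : Type) [Fintype β] [DecidableEq β] [Fintype R] [DecidableEq R]
    [NormedAddCommGroup E] [InnerProductSpace ℂ E] [FiniteDimensional ℂ E]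
    (I : Inst s J β R E) (ω : β → Om) (K : Finset β) (c : β → V4) (W : β → Pr) (a : R → Bool),
    2 * #K ≤ Fintype.card β → 2 * N0 ≤ Fintype.card β →
    I.off + 2 ^ J * (4 * #K + Fintype.card R) ≤ ε * Fintype.card β / 2 →
    Real.exp (-(ε * Fintype.card β / 2)) ≤ hd (I.phi a) ω K c W →
    φ * ((∑ B, (nl (W B) : ℝ)) - 2 * #K) ≤ Module.finrank ℂ (I.spanF ω K c W a)

/-- the soft density depends only on the line counts -/
def SDEQ : Prop :=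
  ∀ (β : Type) [Fintype β] [DecidableEq β] (Φ : (β → V4) → ℝ) (ω : β → Om) (K : Finset β)
    (c : β → V4) (M M' : β → Fin 4 → Pr), (∀ B i, lcnt (M B) i = lcnt (M' B) i) →
    sd Φ ω K c M = sd Φ ω K c M'

/-- size bias for a hard pattern through the planted line -/
def PL : Prop :=
  ∀ (β : Type) [Fintype β] [DecidableEq β] (Φ : (β → V4) → ℝ) (k : Fin 4) (K : Finset β)
    (j : β → Fin 4) (th : ℝ), (∀ y, 0 ≤ Φ y) → 0 ≤ th →
    𝔼 ω : β → Om, Φ (pl ω k) * ind (hd Φ ω K (pl ω k) (fun B => (k, j B)) < th) ≤ th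

/-- the planted mass of frames that are not robustly good -/
def PLR : Prop :=
  ∀ (β : Type) [Fintype β] [DecidableEq β] (Φ : (β → V4) → ℝ) (n : Fin 5) (th th1 : ℝ) (r : ℕ),
    (∀ y, 0 ≤ Φ y) → 0 ≤ th → 0 < th1 →
    (𝔼 ω : β → Om, Φ (pl ω (role n)) = 𝔼 y, Φ y) ∧
    𝔼 ω : β → Om, Φ (pl ω (role n)) * ind (¬ Rob Φ n ω th th1 r) ≤
      (#{K : Finset β | #K ≤ r} : ℝ) * (Fintype.card β + 1) * (4 * th) / th1

/-- choice of the frames -/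
def SEL1 : Prop :=
  ∀ (s J : ℕ) (β R E : Type) [Fintype β] [DecidableEq β] [Fintype R] [DecidableEq R]
    [NormedAddCommGroup E] [InnerProductSpace ℂ E] (I : Inst s J β R E) (th th1 : ℝ) (r : ℕ),
    0 ≤ th → 0 < th1 → 12 * Real.exp (-((r : ℝ) ^ 2 / Fintype.card β)) < I.den →
    16 * (#{K : Finset β | #K ≤ 3 * r} : ℝ) * (Fintype.card β + 1) * th ≤ I.den * th1 →
    Nonempty (Pre I th th1 (3 * r))

/-- choice of the reservoir value of role 0 -/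
def SEL2 : Prop :=
  ∀ (e3 e2 : ℝ) (m0 : ℕ), DNat e3 e2 m0 → e2 ≤ e3 →
  ∀ (s J : ℕ) (β R E : Type) [Fintype β] [DecidableEq β] [Fintype R] [DecidableEq R]
    [NormedAddCommGroup E] [InnerProductSpace ℂ E] (I : Inst s J β R E) (th th1 : ℝ) (r : ℕ),
    Nonempty (Pre I th th1 r) → 0 < I.den → 0 < th1 → m0 ≤ Fintype.card R →
    Real.exp (-(e2 * Fintype.card R)) ≤ th →
    16 * (Fintype.card β + 1) * Real.exp (-(e2 * Fintype.card R)) ≤ I.den * th1 →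
    I.off + 4 * 2 ^ J * r ≤ e2 * Fintype.card R →
    Nonempty (Conf I (Real.exp (-(e3 * Fintype.card R))) (6 * th1) r)

/-- two orthogonal witnesses for a pair of menus -/
def PAIR : Prop :=
  ∀ (s J : ℕ) (φ ε εF : ℝ) (N0 m0 : ℕ), 0 ≤ φ → 0 ≤ ε → LBat s (J + 2) φ ε N0 → FRat εF m0 →
  ∀ (β R E : Type) [Fintype β] [DecidableEq β] [Fintype R] [DecidableEq R]
    [NormedAddCommGroup E] [InnerProductSpace ℂ E] [FiniteDimensional ℂ E]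
    (I : Inst s J β R E) (x θ : ℝ) (r r2 : ℕ) (C : Conf I x θ r),
    12 * Real.exp (-((r2 : ℝ) ^ 2 / Fintype.card β)) < x →
    m0 ≤ Fintype.card R → Real.exp (-(εF * Fintype.card R)) ≤ x / 4 →
    16 * (I.off + 4 * 2 ^ J * (r + 2 * r2)) ≤ Fintype.card R →
    2 * (r + 2 * r2) ≤ Fintype.card β → 2 * N0 ≤ Fintype.card β →
    I.off + 2 ^ J * (4 * (r + 2 * r2) + Fintype.card R) ≤ ε * Fintype.card β / 2 →
    Real.exp (-(ε * Fintype.card β / 2)) ≤ x / 4 →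
    ∀ (t t' : β → Bool) (M1 M2 : β → Fin 4 → Pr) (Typ : (β → Fin 4) → Prop) (L : ℝ),
      (∀ B τ, Dis (M1 B τ) (pat0 t B)) → (∀ B τ, Dis (M2 B τ) (pat0 t' B)) →
      (∀ B τ, Dis (M1 B τ) (M2 B τ)) →
      x ≤ I.ssd C.ω C.K (C.c 2) M1 C.a0 (C.D 2) → x ≤ I.ssd C.ω C.K (C.c 3) M2 C.a0 (C.D 3) →
      1 / 3 ≤ dens Typ →
      (∀ τ, Typ τ → L ≤ ∑ B, ((nl (M1 B (τ B)) : ℝ) + nl (M2 B (τ B)))) →
      ∃ W1 W2 : Submodule ℂ E, W1 ⟂ C.P t ∧ W2 ⟂ C.P t' ∧ W1 ⟂ W2 ∧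
        φ * (L - 4 * (r + 2 * r2)) ≤ Module.finrank ℂ W1 + Module.finrank ℂ W2

/-- the menus for an arbitrary pair -/
def MENU : Prop :=
  ∀ (β : Type) [Fintype β] [DecidableEq β] (t t' : β → Bool),
    ((∀ B τ, Dis (menu 1 t B τ) (pat0 t B)) ∧ (∀ B τ, Dis (menu 2 (sdf t t') B τ) (pat0 t' B)) ∧
      (∀ B τ, Dis (menu 1 t B τ) (menu 2 (sdf t t') B τ)) ∧
      ∀ τ : β → Fin 4, 6 * (Fintype.card β : ℝ) + hammingDist t t' - cnt t - cnt t' ≤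
        2 * ∑ B, ((nl (menu 1 t B (τ B)) : ℝ) + nl (menu 2 (sdf t t') B (τ B)))) ∧
    ∃ (M1 M2 : β → Fin 4 → Pr) (Typ : (β → Fin 4) → Prop),
      (∀ B τ, Dis (M1 B τ) (pat0 t B)) ∧ (∀ B τ, Dis (M2 B τ) (pat0 t' B)) ∧
      (∀ B τ, Dis (M1 B τ) (M2 B τ)) ∧
      (∀ B i, lcnt (M1 B) i = lcnt (menu 3 t B) i) ∧
      (∀ B i, lcnt (M2 B) i = lcnt (menu 4 t' B) i) ∧ 1 / 3 ≤ dens Typ ∧
      ∀ τ, Typ τ → 6 * (Fintype.card β : ℝ) + hammingDist t t' / 4 - cnt t - cnt t' ≤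
        2 * ∑ B, ((nl (M1 B (τ B)) : ℝ) + nl (M2 B (τ B)))

/-- the inequality forced by a configuration -/
def CORE : Prop :=
  ∀ (s J : ℕ) (φ δ ε εF : ℝ) (N0 m0 : ℕ), 0 < φ → 0 < δ → φ ≤ 1 - δ → 0 ≤ ε →
  LBat s (J + 2) φ ε N0 → FRat εF m0 →
  ∀ (β R E : Type) [Fintype β] [DecidableEq β] [Fintype R] [DecidableEq R]
    [NormedAddCommGroup E] [InnerProductSpace ℂ E] [FiniteDimensional ℂ E]
    (I : Inst s J β R E) (x θ ζ : ℝ) (r r2 : ℕ), Nonempty (Conf I x θ r) →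
    0 ≤ θ → θ < 1 → 0 ≤ ζ → ζ ≤ φ * Fintype.card β →
    (Module.finrank ℂ E : ℝ) ≤ 4 * φ * Fintype.card β + ζ →
    12 * Real.exp (-((r2 : ℝ) ^ 2 / Fintype.card β)) < x →
    m0 ≤ Fintype.card R → Real.exp (-(εF * Fintype.card R)) ≤ x / 4 →
    16 * (I.off + 4 * 2 ^ J * (r + 2 * r2)) ≤ Fintype.card R →
    2 * (r + 2 * r2) ≤ Fintype.card β → 2 * N0 ≤ Fintype.card β →
    I.off + 2 ^ J * (4 * (r + 2 * r2) + Fintype.card R) ≤ ε * Fintype.card β / 2 →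
    Real.exp (-(ε * Fintype.card β / 2)) ≤ x / 4 →
    δ ^ 2 * φ * Fintype.card β / 256 ≤
      2 * ζ + 12 * φ * (r + 2 * r2) + 8 * θ * φ * Fintype.card β

/-- ascent in normal form: blocks `b`, reservoir `m` with `ρ b ≤ m ≤ 2 ρ b` -/
def ASCN : Prop :=
  ∀ (s J : ℕ) (φ δ : ℝ), 0 < φ → 0 < δ → φ ≤ 1 - δ → LB s (J + 2) φ →
  ∀ ρ0 : ℝ, 0 < ρ0 → ∃ ρ : ℝ, 0 < ρ ∧ ρ ≤ ρ0 ∧ ∃ ε : ℝ, 0 < ε ∧ ∃ b0 : ℕ,
  ∀ (β R E : Type) [Fintype β] [DecidableEq β] [Fintype R] [DecidableEq R]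
    [NormedAddCommGroup E] [InnerProductSpace ℂ E] [FiniteDimensional ℂ E]
    (I : Inst s J β R E), b0 ≤ Fintype.card β → ρ * Fintype.card β ≤ Fintype.card R →
    (Fintype.card R : ℝ) ≤ 2 * ρ * Fintype.card β → I.off ≤ ε * Fintype.card β →
    Real.exp (-(ε * Fintype.card β)) ≤ I.den →
    4 * φ * Fintype.card β * (1 + δ ^ 2 / 4096) ≤ Module.finrank ℂ E

/-- ascent -/
def ASC : Prop :=
  ∀ (s J : ℕ) (φ δ : ℝ), J + 1 ≤ s → 0 < φ → 0 < δ → φ ≤ 1 - δ → LB s (J + 2) φ →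
    LB s J (φ * (1 + δ ^ 2 / 10000))

/-- the bound for uniform weights -/
def MAIN : Prop := ∀ δ : ℝ, 0 < δ → ∃ s : ℕ, LB s 0 (1 - δ)

end Pool.Agent.Lib.QX
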