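import Mathlib

/-! Definitions for the exponential lower bound on orthogonal representations of dense subsets
of weighted cubes. -/

namespace Pool.Agent.Lib.QX

open Finset
open scoped BigOperators

/-- indicator of a proposition -/
noncomputable def ind (p : Prop) : ℝ := by
  classical exact if p then 1 else 0

/-- density of a predicate on a finite type -/
noncomputable def dens {X : Type} [Fintype X] (A : X → Prop) : ℝ := 𝔼 x, ind (A x)

/-- weighted Hamming distance -/
def dw {ι : Type} [Fintype ι] (w : ι → ℕ) (x y : ι → Bool) : ℕ :=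
  ∑ i, if x i = y i then 0 else w i

/-- `v` is an orthogonal representation of `A` for the weights `2 ^ k i` and the target `H` -/
def IsRep {ι E : Type} [Fintype ι] [NormedAddCommGroup E] [InnerProductSpace ℂ E]
    (k : ι → ℕ) (H : ℕ) (A : (ι → Bool) → Prop) (v : (ι → Bool) → E) : Prop :=
  (∀ x, A x → v x ≠ 0) ∧
    ∀ x y, A x → A y → dw (fun i => 2 ^ k i) x y = H → inner ℂ (v x) (v y) = 0

/-- the lower bound with explicit constants -/
def LBat (s J : ℕ) (φ ε : ℝ) (N0 : ℕ) : Prop :=
  ∀ (ι : Type) [Fintype ι] [DecidableEq ι] (k : ι → ℕ) (H : ℕ) (A : (ι → Bool) → Prop)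
    (E : Type) [NormedAddCommGroup E] [InnerProductSpace ℂ E] [FiniteDimensional ℂ E]
    (v : (ι → Bool) → E),
    (∀ i, k i ≤ J) → 2 ^ s ∣ H → N0 ≤ Fintype.card ι →
    |2 * (H : ℝ) - ∑ i, (2 : ℝ) ^ k i| ≤ ε * Fintype.card ι →
    Real.exp (-(ε * Fintype.card ι)) ≤ dens A → IsRep k H A v →
    φ * Fintype.card ι ≤ Module.finrank ℂ E

/-- the lower bound for the class of exponents at most `J` and targets divisible by `2 ^ s` -/
def LB (s J : ℕ) (φ : ℝ) : Prop := ∃ ε : ℝ, 0 < ε ∧ ∃ N0 : ℕ, LBat s J φ ε N0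

/-- cross Frankl-Rodl for the Hamming distance, with explicit constants -/
def FRat (ε : ℝ) (m0 : ℕ) : Prop :=
  ∀ (R : Type) [Fintype R] [DecidableEq R] (A B : (R → Bool) → Prop) (D : ℤ),
    m0 ≤ Fintype.card R → Real.exp (-(ε * Fintype.card R)) ≤ dens A →
    Real.exp (-(ε * Fintype.card R)) ≤ dens B →
    16 * |2 * (D : ℝ) - Fintype.card R| ≤ Fintype.card R →
    (∀ a b, A a → B b → Even ((hammingDist a b : ℤ) - D)) →
    ∃ a b, A a ∧ B b ∧ (hammingDist a b : ℤ) = D

/-- dense neighbourhoods, with explicit constants -/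
def DNat (e3 e2 : ℝ) (m0 : ℕ) : Prop :=
  ∀ (R : Type) [Fintype R] [DecidableEq R] (g : (R → Bool) → ℝ) (C : (R → Bool) → Prop) (D : ℤ),
    m0 ≤ Fintype.card R → (∀ a, 0 ≤ g a ∧ g a ≤ 1) →
    Real.exp (-(e2 * Fintype.card R)) ≤ 𝔼 a, g a →
    |2 * (D : ℝ) - Fintype.card R| ≤ e2 * Fintype.card R →
    (∀ a c, 0 < g a → C c → Even ((hammingDist a c : ℤ) - D)) →
    dens (fun c => C c ∧ 𝔼 a, ind ((hammingDist a c : ℤ) = D) * g a <
      Real.exp (-(e3 * Fintype.card R))) ≤ Real.exp (-(e2 * Fintype.card R))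

/-- number of `true` coordinates -/
def cnt {β : Type} [Fintype β] (t : β → Bool) : ℕ := #{B | t B = true}

/-- the biased product measure -/
noncomputable def mu {β : Type} [Fintype β] (p : ℝ) (t : β → Bool) : ℝ :=
  ∏ B, if t B = true then p else 1 - p

/-- uniform weight on each level -/
noncomputable def lam {β : Type} [Fintype β] (t : β → Bool) : ℝ :=
  1 / ((Fintype.card β).choose (cnt t) : ℝ)

/-- resample the coordinates in `Z` -/
def mix {β : Type} [DecidableEq β] (Z : Finset β) (t s : β → Bool) : β → Bool :=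
  fun B => if B ∈ Z then s B else t B

/-- set difference -/
def sdf {β : Type} (t s : β → Bool) : β → Bool := fun B => t B && !(s B)

/-- discrete derivative -/
def dF {β W : Type} [DecidableEq β] [AddCommGroup W] (F : (β → Bool) → W) (B : β)
    (t : β → Bool) : W :=
  F (Function.update t B true) - F (Function.update t B false)

/-- mean square of the derivative -/
noncomputable def bet {β W : Type} [Fintype β] [DecidableEq β] [NormedAddCommGroup W]
    (p : ℝ) (F : (β → Bool) → W) (B : β) : ℝ :=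
  ∑ t, mu p t * ‖dF F B t‖ ^ 2

/-- square of the mean of the derivative -/
noncomputable def gam {β W : Type} [Fintype β] [DecidableEq β] [NormedAddCommGroup W]
    [NormedSpace ℝ W] (p : ℝ) (F : (β → Bool) → W) (B : β) : ℝ :=
  ‖∑ t, mu p t • dF F B t‖ ^ 2

/-- values on a block of four coordinates -/
abbrev V4 : Type := Fin 4 → Bool

/-- frames on a block -/
abbrev Om : Type := V4 × Equiv.Perm (Fin 4)

/-- a pair of lines (equal lines: one line) -/
abbrev Pr : Type := Fin 4 × Fin 4

/-- rows of the Hadamard matrix of order four -/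
def row : Fin 4 → V4 :=
  ![![false, false, false, false], ![false, false, true, true],
    ![false, true, false, true], ![false, true, true, false]]

/-- the `i`-th vector of a frame -/
def ln (ω : Om) (i : Fin 4) : V4 := fun r => xor (ω.1 r) (row (ω.2 i) r)

/-- the point with cell coordinates `z` on the lines `W` -/
def opt (ω : Om) (W : Pr) (z : Bool × Bool) : V4 :=
  fun r => xor (ln ω (if z.1 = z.2 then W.1 else W.2) r) z.1

/-- number of lines -/
def nl (W : Pr) : ℕ := if W.1 = W.2 then 1 else 2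

/-- the points of a family: frozen at `c` on `K`, on the lines `W B` elsewhere -/
def fam {β : Type} [DecidableEq β] (ω : β → Om) (K : Finset β) (c : β → V4) (W : β → Pr)
    (g : β → Bool × Bool) : β → V4 :=
  fun B => if B ∈ K then c B else opt (ω B) (W B) (g B)

/-- density in a family -/
noncomputable def hd {β : Type} [Fintype β] [DecidableEq β] (Φ : (β → V4) → ℝ) (ω : β → Om)
    (K : Finset β) (c : β → V4) (W : β → Pr) : ℝ :=
  𝔼 g, Φ (fam ω K c W g)

/-- soft density of a menu -/
noncomputable def sd {β : Type} [Fintype β] [DecidableEq β] (Φ : (β → V4) → ℝ) (ω : β → Om)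
    (K : Finset β) (c : β → V4) (M : β → Fin 4 → Pr) : ℝ :=
  𝔼 τ : β → Fin 4, hd Φ ω K c (fun B => M B (τ B))

/-- how often a block menu uses the line `i` -/
def lcnt (M : Fin 4 → Pr) (i : Fin 4) : ℕ :=
  #{x : Fin 4 × Bool | (if x.2 = true then (M x.1).2 else (M x.1).1) = i}

/-- the planted line of each of the five schemes -/
def role : Fin 5 → Fin 4 := ![0, 2, 3, 2, 3]

/-- the second line of each scheme -/
def snd2 (n : Fin 5) (u : Bool) (τ : Fin 4) : Fin 4 :=
  ![if u = true then 1 else 0, if u = true then 2 else 1, if u = true then 1 else 3,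
    if u = true then ![3, 3, 2, 2] τ else ![1, 1, 1, 3] τ,
    if u = true then ![2, 2, 3, 3] τ else ![1, 1, 1, 2] τ] n

/-- the menu of scheme `n` at the set `u` -/
def menu {β : Type} (n : Fin 5) (u : β → Bool) : β → Fin 4 → Pr :=
  fun B τ => (role n, snd2 n (u B) τ)

/-- the planted point of role `k` -/
def pl {β : Type} (ω : β → Om) (k : Fin 4) : β → V4 := fun B => ln (ω B) k

/-- robust goodness of a frame for scheme `n` -/
def Rob {β : Type} [Fintype β] [DecidableEq β] (Φ : (β → V4) → ℝ) (n : Fin 5) (ω : β → Om)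
    (th th1 : ℝ) (r : ℕ) : Prop :=
  ∀ K : Finset β, #K ≤ r →
    ∑ u : β → Bool, lam u * ind (sd Φ ω K (pl ω (role n)) (menu n u) < th) ≤ th1

/-- weighted distance on the blocks -/
def db {β : Type} [Fintype β] (kB : β → ℕ) (y y' : β → V4) : ℕ :=
  ∑ B, 2 ^ kB B * hammingDist (y B) (y' B)

/-- block distance of two families with different lines off `K` -/
def cross {β : Type} [Fintype β] [DecidableEq β] (kB : β → ℕ) (K : Finset β) (c c' : β → V4) :
    ℕ :=
  ∑ B, 2 ^ kB B * (if B ∈ K then hammingDist (c B) (c' B) else 2)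

/-- the lines of two pairs are different -/
def Dis (W W' : Pr) : Prop := W.1 ≠ W'.1 ∧ W.1 ≠ W'.2 ∧ W.2 ≠ W'.1 ∧ W.2 ≠ W'.2

/-- an instance in normal form: blocks of four coordinates and a reservoir of light ones -/
structure Inst (s J : ℕ) (β R E : Type) [Fintype β] [DecidableEq β] [Fintype R] [DecidableEq R]
    [NormedAddCommGroup E] [InnerProductSpace ℂ E] where
  k0 : ℕ
  H : ℕ
  kB : β → ℕ
  A : (β → V4) → (R → Bool) → Prop
  v : (β → V4) → (R → Bool) → E
  hJ : J + 1 ≤ s
  hH : 2 ^ s ∣ H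
  hk0 : k0 ≤ J
  hk : ∀ B, k0 ≤ kB B ∧ kB B ≤ J
  ne : ∀ y a, A y a → v y a ≠ 0
  orth : ∀ y a y' a', A y a → A y' a' → db kB y y' + 2 ^ k0 * hammingDist a a' = H →
    inner ℂ (v y a) (v y' a') = 0
  par : ∀ y a y' a', A y a → A y' a' → 2 * 2 ^ k0 ∣ db kB y y' + 2 ^ k0 * hammingDist a a'

section
variable {s J : ℕ} {β R E : Type} [Fintype β] [DecidableEq β] [Fintype R] [DecidableEq R]
  [NormedAddCommGroup E] [InnerProductSpace ℂ E]

/-- indicator of the fibre over `a` -/
noncomputable def Inst.phi (I : Inst s J β R E) (a : R → Bool) : (β → V4) → ℝ :=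
  fun y => ind (I.A y a)

/-- density of the instance -/
noncomputable def Inst.den (I : Inst s J β R E) : ℝ := 𝔼 y, 𝔼 a, ind (I.A y a)

/-- offset of the instance -/
noncomputable def Inst.off (I : Inst s J β R E) : ℝ :=
  |2 * (I.H : ℝ) - (∑ B, 4 * (2 : ℝ) ^ I.kB B + 2 ^ I.k0 * Fintype.card R)|

/-- span of the vectors over a family at the reservoir value `a` -/
def Inst.spanF (I : Inst s J β R E) (ω : β → Om) (K : Finset β) (c : β → V4) (W : β → Pr)
    (a : R → Bool) : Submodule ℂ E :=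
  Submodule.span ℂ {x | ∃ g, I.A (fam ω K c W g) a ∧ x = I.v (fam ω K c W g) a}

/-- sliced soft density -/
noncomputable def Inst.ssd (I : Inst s J β R E) (ω : β → Om) (K : Finset β) (c : β → V4)
    (M : β → Fin 4 → Pr) (a0 : R → Bool) (D : ℤ) : ℝ :=
  𝔼 a, ind ((hammingDist a a0 : ℤ) = D) * sd (I.phi a) ω K c M

/-- the pattern of the monotone family: lines 0 and 1 on `t`, line 0 elsewhere -/
def pat0 (t : β → Bool) : β → Pr := fun B => (0, if t B = true then 1 else 0)

/-- frames, frozen blocks and candidates for the reservoir value of role 0 -/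
structure Pre (I : Inst s J β R E) (th th1 : ℝ) (r : ℕ) where
  ω : β → Om
  K : Finset β
  c : Fin 4 → β → V4
  C0 : (R → Bool) → Prop
  hK : #K ≤ r
  hC : I.den / 4 ≤ dens C0
  mem : ∀ a, C0 a → ∃ g, I.A (fam ω K (c 0) (fun _ => (0, 0)) g) a
  g0 : ∀ a, C0 a → ∑ u : β → Bool, lam u * ind (hd (I.phi a) ω K (c 0) (pat0 u) < th) ≤ th1
  g1 : ∀ n : Fin 5, n ≠ 0 → ∑ u : β → Bool, lam u *
    ind (𝔼 a, sd (I.phi a) ω K (c (role n)) (menu n u) < th) ≤ th1

/-- the configuration after the choice of the reservoir value of role 0 -/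
structure Conf (I : Inst s J β R E) (x θ : ℝ) (r : ℕ) where
  ω : β → Om
  K : Finset β
  c : Fin 4 → β → V4
  a0 : R → Bool
  D : Fin 4 → ℤ
  Good : (β → Bool) → Prop
  hK : #K ≤ r
  hD : ∀ k : Fin 4, (cross I.kB K (c k) (c 0) : ℤ) + 2 ^ I.k0 * D k = I.H
  bad : ∀ p : ℝ, 0 ≤ p → p ≤ 1 → ∑ u : β → Bool, mu p u * ind (¬ Good u) ≤ θ
  g0 : ∀ u, Good u → x ≤ hd (I.phi a0) ω K (c 0) (pat0 u)
  g1 : ∀ u, Good u → ∀ n : Fin 5, n ≠ 0 →
    x ≤ I.ssd ω K (c (role n)) (menu n u) a0 (D (role n))

/-- the monotone family of subspaces -/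
def Conf.P {I : Inst s J β R E} {x θ : ℝ} {r : ℕ} (C : Conf I x θ r) (t : β → Bool) :
    Submodule ℂ E :=
  I.spanF C.ω C.K (C.c 0) (pat0 t) C.a0

end

end Pool.Agent.Lib.QX
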