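import Pool.Agent.Lib.QX.Kit
import Pool.Agent.Lib.MP_5d53d3_co.Lower

namespace Pool.Agent.Lib.QX

open Finset
open scoped BigOperators
open Pool.Agent.Lib.MP_5d53d3_co

namespace RFIN

/-- sign vector of a boolean vector -/
def sgn {n : ℕ} (x : Fin n → Bool) : Fin n → ℤˣ := fun i => if x i = true then -1 else 1

theorem adj_of_dw {n H : ℕ} (hH : n = 2 * H) (hn : 0 < n) (x y : Fin n → Bool)
    (h : dw (fun _ => 2 ^ 0) x y = H) : (Omega n).Adj (sgn x) (sgn y) := by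
  have h1 : ∑ i, ((sgn x i : ℤ) * (sgn y i : ℤ)) = n - 2 * (dw (fun _ => 2 ^ 0) x y : ℤ) := by
    unfold dw
    push_cast
    have e : (n : ℤ) = ∑ _i : Fin n, (1 : ℤ) := by simp
    conv_rhs => rw [e, Finset.mul_sum, ← Finset.sum_sub_distrib]
    refine Finset.sum_congr rfl fun i _ => ?_
    unfold sgn
    cases x i <;> cases y i <;> simp
  have h2 : ∑ i, ((sgn x i : ℤ) * (sgn y i : ℤ)) = 0 := by
    rw [h1, h, hH]; push_cast; ring
  unfold Omega
  rw [SimpleGraph.fromRel_adj]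
  refine ⟨?_, Or.inl h2⟩
  intro e
  rw [← e] at h2
  have : ∑ i, ((sgn x i : ℤ) * (sgn x i : ℤ)) = n := by
    have : ∀ i, ((sgn x i : ℤ) * (sgn x i : ℤ)) = 1 := fun i => by
      unfold sgn; cases x i <;> simp
    simp [this]
  omega

end RFIN

open RFIN

/-- from the bound for uniform weights to quantum colourings -/
theorem chi_of_LBat {s : ℕ} {φ ε : ℝ} {N0 n H d : ℕ} (hL : LBat s 0 φ ε N0) (hε : 0 ≤ ε)
    (hH : n = 2 * H) (hs : 2 ^ s ∣ H) (hn : 0 < n) (hN : N0 ≤ n) (hd : 0 < d)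
    (hdn : (d : ℝ) < φ * n) : Real.exp (ε * n) ≤ chiD (Omega n) d := by
  classical
  have hQ0 := exists_coloring (Omega n) d
  generalize chiD (Omega n) d = c at hQ0 ⊢
  obtain ⟨Q, hQ⟩ := hQ0
  by_contra hc
  have hc' := not_le.1 hc
  have : Nonempty (Fin d) := ⟨⟨0, hd⟩⟩
  have h1 : ∀ x : Fin n → Bool, ∃ k, Q (sgn x) k ≠ 0 := by
    intro x
    by_contra h
    push Not at h
    have h2 := hQ.2.1 (sgn x)
    simp only [h, Finset.sum_const_zero] at h2
    exact zero_ne_one h2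
  have h2 : 1 ≤ ∑ k : Fin c, dens (fun x : Fin n → Bool => Q (sgn x) k ≠ 0) := by
    unfold dens
    rw [← ex_sum]
    refine le_ex fun x => ?_
    obtain ⟨k, hk⟩ := h1 x
    have := Finset.single_le_sum (s := univ) (f := fun k : Fin c => ind (Q (sgn x) k ≠ 0))
      (fun k _ => ind_nonneg _) (mem_univ k)
    rwa [ind_pos hk] at this
  have h3 : ∃ k : Fin c, Real.exp (-(ε * n)) ≤
      dens (fun x : Fin n → Bool => Q (sgn x) k ≠ 0) := by
    by_contra h
    push Not at h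
    have a1 : ∑ k : Fin c, dens (fun x : Fin n → Bool => Q (sgn x) k ≠ 0) ≤
        ∑ _k : Fin c, Real.exp (-(ε * n)) := Finset.sum_le_sum fun k _ => (h k).le
    rw [Finset.sum_const, nsmul_eq_mul, Finset.card_univ, Fintype.card_fin] at a1
    have a2 : (c : ℝ) * Real.exp (-(ε * n)) < Real.exp (ε * n) * Real.exp (-(ε * n)) :=
      mul_lt_mul_of_pos_right hc' (Real.exp_pos _)
    rw [← Real.exp_add, add_neg_cancel, Real.exp_zero] at a2
    linarith
  obtain ⟨k, hk⟩ := h3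
  have h4 : ∀ x : Fin n → Bool, ∃ j : Fin d, Q (sgn x) k ≠ 0 → ∃ i, Q (sgn x) k i j ≠ 0 := by
    intro x
    by_cases h : Q (sgn x) k = 0
    · exact ⟨⟨0, hd⟩, fun h' => absurd h h'⟩
    · have : ∃ i j, Q (sgn x) k i j ≠ 0 := by
        by_contra h'
        push Not at h'
        exact h (Matrix.ext h')
      obtain ⟨i, j, hij⟩ := this
      exact ⟨j, fun _ => ⟨i, hij⟩⟩
  choose j hj using h4
  have h5 := hL (Fin n) (fun _ => 0) H (fun x => Q (sgn x) k ≠ 0) (EuclideanSpace ℂ (Fin d))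
    (fun x => WithLp.toLp 2 (fun i => Q (sgn x) k i (j x))) (fun _ => le_rfl) hs
    (by simpa using hN) (by
      simp only [pow_zero, Finset.sum_const, Finset.card_univ, Fintype.card_fin, nsmul_eq_mul,
        mul_one]
      have : (n : ℝ) = 2 * H := by exact_mod_cast hH
      rw [← this, sub_self, abs_zero]
      positivity) (by simpa using hk) ⟨?_, ?_⟩
  · simp only [Fintype.card_fin, finrank_euclideanSpace] at h5
    linarith
  · intro x hx h
    obtain ⟨i, hi⟩ := hj x hx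
    exact hi (congrFun (congrArg WithLp.ofLp h) i)
  · intro x y _ _ hxy
    have a1 := hQ.2.2 _ _ (adj_of_dw hH hn x y hxy) k
    have a2 := congrFun (congrFun a1 (j x)) (j y)
    rw [Matrix.mul_apply] at a2
    rw [PiLp.inner_apply]
    refine Eq.trans (Finset.sum_congr rfl fun i _ => ?_) a2
    have a3 := (hQ.1 (sgn x) k).1.apply (j x) i
    rw [← a3]
    simp [mul_comm]

theorem final_of_MAIN (hM : MAIN) (δ : ℝ) (hδ : 0 < δ) : ∃ (s : ℕ) (ε : ℝ), 0 < ε ∧
    ∀ n d : ℕ, 0 < n → 2 ^ s ∣ n → 0 < d → (d : ℝ) ≤ (1 - δ) * n →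
      Real.exp (ε * n) ≤ chiD (Omega n) d := by
  obtain ⟨s, ε, hε, N0, hL⟩ := hM (δ / 2) (by linarith)
  refine ⟨s + 1 + N0, ε, hε, fun n d hn hs hd hdn => ?_⟩
  have h1 : 2 ^ (s + 1) ∣ n := (pow_dvd_pow 2 (by omega)).trans hs
  obtain ⟨q, hq⟩ := h1
  have h2 : N0 ≤ n := by
    have a1 : N0 < 2 ^ N0 := Nat.lt_two_pow_self
    have a2 : 2 ^ N0 ≤ n := Nat.le_of_dvd hn ((pow_dvd_pow 2 (by omega)).trans hs)
    omega
  refine chi_of_LBat (H := 2 ^ s * q) hL hε.le (by rw [hq]; ring) (dvd_mul_right _ _) hn h2 hd ?_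
  have : (0 : ℝ) < n := by exact_mod_cast hn
  nlinarith

end Pool.Agent.Lib.QX
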