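import Pool.Agent.Lib.QX.Blue

/-! Small lemmas on indicators, densities and averages. -/

namespace Pool.Agent.Lib.QX

open Finset
open scoped BigOperators

theorem ind_pos {p : Prop} (h : p) : ind p = 1 := by
  unfold ind; simp [h]

theorem ind_neg {p : Prop} (h : ¬ p) : ind p = 0 := by
  unfold ind; simp [h]

theorem ind_nonneg (p : Prop) : 0 ≤ ind p := by
  by_cases h : p
  · rw [ind_pos h]; norm_num
  · rw [ind_neg h]

theorem ind_le_one (p : Prop) : ind p ≤ 1 := by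
  by_cases h : p
  · rw [ind_pos h]
  · rw [ind_neg h]; norm_num

theorem ind_mono {p q : Prop} (h : p → q) : ind p ≤ ind q := by
  by_cases hp : p
  · rw [ind_pos hp, ind_pos (h hp)]
  · rw [ind_neg hp]; exact ind_nonneg q

theorem ind_congr {p q : Prop} (h : p ↔ q) : ind p = ind q := by
  rw [propext h]

theorem ind_not (p : Prop) : ind (¬ p) = 1 - ind p := by
  by_cases h : p
  · rw [ind_pos h, ind_neg (not_not.2 h)]; norm_num
  · rw [ind_neg h, ind_pos h]; norm_num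

theorem ind_and (p q : Prop) : ind (p ∧ q) = ind p * ind q := by
  by_cases h : p
  · rw [ind_pos h, one_mul]; exact ind_congr (by tauto)
  · rw [ind_neg h, zero_mul, ind_neg (by tauto)]

theorem ind_or_le (p q : Prop) : ind (p ∨ q) ≤ ind p + ind q := by
  by_cases h : p
  · rw [ind_pos h, ind_pos (Or.inl h)]; linarith [ind_nonneg q]
  · rw [ind_neg h, zero_add]; exact ind_mono (by tauto)

theorem of_ind_pos {p : Prop} (h : 0 < ind p) : p := by
  by_contra hp
  rw [ind_neg hp] at h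
  exact lt_irrefl _ h

theorem ind_eq_ite (p : Prop) [Decidable p] : ind p = if p then 1 else 0 := by
  by_cases h : p
  · rw [ind_pos h, if_pos h]
  · rw [ind_neg h, if_neg h]

section
variable {X Y : Type} [Fintype X] [Fintype Y]

theorem ex_mono {f g : X → ℝ} (h : ∀ x, f x ≤ g x) : 𝔼 x, f x ≤ 𝔼 x, g x :=
  Finset.expect_le_expect fun x _ => h x

theorem ex_nonneg {f : X → ℝ} (h : ∀ x, 0 ≤ f x) : 0 ≤ 𝔼 x, f x :=
  Finset.expect_nonneg fun x _ => h x

theorem ex_le [Nonempty X] {f : X → ℝ} {a : ℝ} (h : ∀ x, f x ≤ a) : 𝔼 x, f x ≤ a :=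
  Finset.expect_le univ_nonempty fun x _ => h x

theorem le_ex [Nonempty X] {f : X → ℝ} {a : ℝ} (h : ∀ x, a ≤ f x) : a ≤ 𝔼 x, f x :=
  Finset.le_expect univ_nonempty fun x _ => h x

theorem ex_add (f g : X → ℝ) : 𝔼 x, (f x + g x) = 𝔼 x, f x + 𝔼 x, g x :=
  Finset.expect_add_distrib _ _ _

theorem ex_sub (f g : X → ℝ) : 𝔼 x, (f x - g x) = 𝔼 x, f x - 𝔼 x, g x :=
  Finset.expect_sub_distrib _ _ _

theorem ex_mul_left (a : ℝ) (f : X → ℝ) : 𝔼 x, (a * f x) = a * 𝔼 x, f x :=
  (Finset.mul_expect _ _ _).symm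

theorem ex_mul_right (a : ℝ) (f : X → ℝ) : 𝔼 x, (f x * a) = (𝔼 x, f x) * a :=
  (Finset.expect_mul _ _ _).symm

theorem ex_const [Nonempty X] (a : ℝ) : 𝔼 _x : X, a = a := Fintype.expect_const a

theorem ex_comm (f : X → Y → ℝ) : 𝔼 x, 𝔼 y, f x y = 𝔼 y, 𝔼 x, f x y :=
  Finset.expect_comm _ _ _

theorem ex_prod (f : X × Y → ℝ) : 𝔼 p, f p = 𝔼 x, 𝔼 y, f (x, y) := by
  rw [← Finset.univ_product_univ, Finset.expect_product]

theorem ex_equiv (e : X ≃ Y) (f : Y → ℝ) : 𝔼 x, f (e x) = 𝔼 y, f y :=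
  Fintype.expect_equiv e _ _ fun _ => rfl

theorem ex_sum {ι : Type} (s : Finset ι) (f : X → ι → ℝ) :
    𝔼 x, ∑ i ∈ s, f x i = ∑ i ∈ s, 𝔼 x, f x i := Finset.expect_sum_comm _ _ _

theorem exists_ge_ex [Nonempty X] (f : X → ℝ) : ∃ x, 𝔼 y, f y ≤ f x := by
  obtain ⟨x, -, hx⟩ := Finset.exists_le_of_le_expect (univ_nonempty (α := X)) (le_refl (𝔼 y, f y))
  exact ⟨x, hx⟩

theorem exists_pos_of_ex_pos {f : X → ℝ} (h : 0 < 𝔼 x, f x) : ∃ x, 0 < f x := by
  by_contra hc
  push Not at hc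
  have : 𝔼 x, f x ≤ 𝔼 _x : X, (0 : ℝ) := ex_mono hc
  rw [Finset.expect_const_zero] at this
  linarith

theorem dens_nonneg (A : X → Prop) : 0 ≤ dens A := ex_nonneg fun _ => ind_nonneg _

theorem dens_le_one (A : X → Prop) : dens A ≤ 1 := by
  rcases isEmpty_or_nonempty X with h | h
  · unfold dens; simp
  · exact ex_le fun _ => ind_le_one _

theorem dens_mono {A B : X → Prop} (h : ∀ x, A x → B x) : dens A ≤ dens B :=
  ex_mono fun x => ind_mono (h x)

theorem dens_or_le (A B : X → Prop) : dens (fun x => A x ∨ B x) ≤ dens A + dens B := by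
  unfold dens
  rw [← ex_add]
  exact ex_mono fun x => ind_or_le _ _

theorem dens_not [Nonempty X] (A : X → Prop) : dens (fun x => ¬ A x) = 1 - dens A := by
  unfold dens
  simp only [ind_not]
  rw [ex_sub, ex_const]

theorem exists_of_dens_pos {A : X → Prop} (h : 0 < dens A) : ∃ x, A x := by
  obtain ⟨x, hx⟩ := exists_pos_of_ex_pos h
  exact ⟨x, of_ind_pos hx⟩

theorem dens_eq_card (A : X → Prop) [DecidablePred A] :
    dens A = (#{x | A x} : ℝ) / Fintype.card X := by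
  unfold dens
  rw [Fintype.expect_eq_sum_div_card]
  simp only [ind_eq_ite]
  rw [Finset.sum_boole]

/-- if `dens B < dens A` then some point is in `A` and not in `B` -/
theorem exists_of_dens_lt {A B : X → Prop} (h : dens B < dens A) : ∃ x, A x ∧ ¬ B x := by
  by_contra hc
  push Not at hc
  exact absurd (dens_mono hc) (not_le.2 h)

/-- a function bounded by one is at least `a` on a set of density at least its mean minus `a` -/
theorem dens_ge_of_ex [Nonempty X] {f : X → ℝ} {a : ℝ} (ha : 0 ≤ a) (h1 : ∀ x, f x ≤ 1) :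
    𝔼 x, f x - a ≤ dens (fun x => a ≤ f x) := by
  have : 𝔼 x, f x ≤ 𝔼 x, (a + ind (a ≤ f x)) := by
    refine ex_mono fun x => ?_
    by_cases h : a ≤ f x
    · rw [ind_pos h]; linarith [h1 x]
    · rw [ind_neg h]; push Not at h; linarith
  rw [ex_add, ex_const] at this
  unfold dens
  linarith

/-- Markov inequality -/
theorem dens_markov {f : X → ℝ} {a : ℝ} (h0 : ∀ x, 0 ≤ f x) :
    a * dens (fun x => a ≤ f x) ≤ 𝔼 x, f x := by
  unfold dens
  rw [← ex_mul_left]
  refine ex_mono fun x => ?_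
  by_cases h : a ≤ f x
  · rw [ind_pos h]; linarith
  · rw [ind_neg h]; linarith [h0 x]

end

theorem mu_nonneg {β : Type} [Fintype β] {p : ℝ} (h0 : 0 ≤ p) (h1 : p ≤ 1) (t : β → Bool) :
    0 ≤ mu p t := by
  unfold mu
  refine Finset.prod_nonneg fun B _ => ?_
  split_ifs <;> linarith

theorem lam_nonneg {β : Type} [Fintype β] (t : β → Bool) : 0 ≤ lam t := by
  unfold lam; positivity

section
variable {β : Type} [Fintype β] [DecidableEq β]

theorem hd_nonneg {Φ : (β → V4) → ℝ} (h : ∀ y, 0 ≤ Φ y) (ω : β → Om) (K : Finset β)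
    (c : β → V4) (W : β → Pr) : 0 ≤ hd Φ ω K c W := ex_nonneg fun _ => h _

theorem hd_le_one {Φ : (β → V4) → ℝ} (h : ∀ y, Φ y ≤ 1) (ω : β → Om) (K : Finset β)
    (c : β → V4) (W : β → Pr) : hd Φ ω K c W ≤ 1 := ex_le fun _ => h _

theorem sd_nonneg {Φ : (β → V4) → ℝ} (h : ∀ y, 0 ≤ Φ y) (ω : β → Om) (K : Finset β)
    (c : β → V4) (M : β → Fin 4 → Pr) : 0 ≤ sd Φ ω K c M :=
  ex_nonneg fun _ => hd_nonneg h _ _ _ _

theorem sd_le_one {Φ : (β → V4) → ℝ} (h : ∀ y, Φ y ≤ 1) (ω : β → Om) (K : Finset β)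
    (c : β → V4) (M : β → Fin 4 → Pr) : sd Φ ω K c M ≤ 1 :=
  ex_le fun _ => hd_le_one h _ _ _ _

theorem fam_congr {ω ω' : β → Om} {K : Finset β} (h : ∀ B, B ∉ K → ω B = ω' B) (c : β → V4)
    (W : β → Pr) (g : β → Bool × Bool) : fam ω K c W g = fam ω' K c W g := by
  funext B
  unfold fam
  by_cases hB : B ∈ K
  · simp [hB]
  · simp [hB, h B hB]

theorem hd_congr {ω ω' : β → Om} {K : Finset β} (h : ∀ B, B ∉ K → ω B = ω' B)
    (Φ : (β → V4) → ℝ) (c : β → V4) (W : β → Pr) : hd Φ ω K c W = hd Φ ω' K c W := by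
  unfold hd
  simp only [fam_congr h]

theorem sd_congr {ω ω' : β → Om} {K : Finset β} (h : ∀ B, B ∉ K → ω B = ω' B)
    (Φ : (β → V4) → ℝ) (c : β → V4) (M : β → Fin 4 → Pr) : sd Φ ω K c M = sd Φ ω' K c M := by
  unfold sd
  simp only [hd_congr h]

/-- averaging a function of a spliced pair -/
theorem ex_splice {X : Type} [Fintype X] [Nonempty X] (K : Finset β) (f : (β → X) → ℝ) :
    𝔼 g0 : β → X, 𝔼 g : β → X, f (fun B => if B ∈ K then g0 B else g B) = 𝔼 g, f g := by
  let e : ((β → X) × (β → X)) ≃ ((β → X) × (β → X)) :=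
    { toFun := fun p => (fun B => if B ∈ K then p.1 B else p.2 B,
        fun B => if B ∈ K then p.2 B else p.1 B)
      invFun := fun p => (fun B => if B ∈ K then p.1 B else p.2 B,
        fun B => if B ∈ K then p.2 B else p.1 B)
      left_inv := fun p => by
        ext B <;> by_cases h : B ∈ K <;> simp [h]
      right_inv := fun p => by
        ext B <;> by_cases h : B ∈ K <;> simp [h] }
  have h1 := ex_equiv e (fun p => f p.1)
  rw [ex_prod, ex_prod] at h1
  simp only [ex_const] at h1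
  exact h1

end

end Pool.Agent.Lib.QX
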