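import Pool.Agent.Lib.QX.R_ASCN

namespace Pool.Agent.Lib.QX

open Finset Filter
open scoped BigOperators

namespace RASC

/-- the least class that is not small -/
theorem light {ι : Type} [Fintype ι] (k : ι → ℕ) (J : ℕ) (hk : ∀ i, k i ≤ J) (γ : ℝ)
    (hγ0 : 0 ≤ γ) (hγ : (J + 1) * γ ≤ 1) :
    ∃ k0, k0 ≤ J ∧ γ * Fintype.card ι ≤ #{i | k i = k0} ∧
      (Fintype.card ι : ℝ) - (J + 1) * γ * Fintype.card ι ≤ #{i | k0 ≤ k i} := by
  classical
  have hlt : ∀ n : ℕ, (#{i | k i < n} : ℝ) = ∑ j ∈ range n, (#{i | k i = j} : ℝ) := by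
    intro n
    have := Finset.card_eq_sum_card_fiberwise (f := k) (s := univ.filter (fun i => k i < n))
      (t := range n) (fun i hi => by simpa using hi)
    rw [this]
    push_cast
    refine Finset.sum_congr rfl fun j hj => ?_
    congr 2
    ext i
    have := Finset.mem_range.1 hj
    simp only [mem_filter, mem_univ, true_and]
    omega
  have hex : ∃ k0, k0 ≤ J ∧ γ * Fintype.card ι ≤ #{i | k i = k0} := by
    by_contra hc
    push Not at hc
    have h1 : (#{i | k i < J + 1} : ℝ) = Fintype.card ι := by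
      rw [← Finset.card_univ]
      congr 2
      ext i
      have := hk i
      simp only [mem_filter, mem_univ, true_and, iff_true]
      omega
    have h2 : ∑ j ∈ range (J + 1), (#{i | k i = j} : ℝ) <
        ∑ _j ∈ range (J + 1), γ * Fintype.card ι :=
      Finset.sum_lt_sum_of_nonempty (by simp) fun j hj =>
        hc j (Nat.le_of_lt_succ (Finset.mem_range.1 hj))
    rw [← hlt, h1, Finset.sum_const, nsmul_eq_mul, Finset.card_range] at h2
    push_cast at h2
    have : (0 : ℝ) ≤ Fintype.card ι := by positivity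
    nlinarith
  refine ⟨Nat.find hex, (Nat.find_spec hex).1, (Nat.find_spec hex).2, ?_⟩
  have hJ := (Nat.find_spec hex).1
  have h1 : (#{i | k i < Nat.find hex} : ℝ) ≤ (J + 1) * γ * Fintype.card ι := by
    rw [hlt]
    have : ∀ j ∈ range (Nat.find hex), (#{i | k i = j} : ℝ) ≤ γ * Fintype.card ι := by
      intro j hj
      have hj' := Finset.mem_range.1 hj
      have := Nat.find_min hex hj'
      push Not at this
      exact (this (by omega)).le
    refine (Finset.sum_le_sum this).trans ?_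
    rw [Finset.sum_const, nsmul_eq_mul, Finset.card_range, mul_assoc]
    refine mul_le_mul_of_nonneg_right ?_ (by positivity)
    have : (Nat.find hex : ℝ) ≤ J := by exact_mod_cast hJ
    linarith
  have h2 := Finset.card_filter_add_card_filter_not (s := (univ : Finset ι))
    (fun i => k i < Nat.find hex)
  simp only [not_lt, Finset.card_univ] at h2
  have h3 : (#{i | k i < Nat.find hex} : ℝ) + #{i | Nat.find hex ≤ k i} = Fintype.card ι := by
    exact_mod_cast h2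
  linarith

end RASC

open RASC RASCN

theorem st_ASC (hNF : NFORM) (hA : ASCN) : ASC := by
  intro s J φ δ hs hφ hδ hφδ hLB
  have hδ1 : δ < 1 := by linarith
  have hδ2 : δ ^ 2 < 1 := by nlinarith
  have hδ3 : 0 < δ ^ 2 := by positivity
  obtain ⟨γ, hγ⟩ : ∃ γ : ℝ, γ = δ ^ 2 / (40000 * (J + 1)) := ⟨_, rfl⟩
  have hγ0 : 0 < γ := by rw [hγ]; positivity
  have hγ1 : (J + 1) * γ = δ ^ 2 / 40000 := by rw [hγ]; field_simp
  have hγ2 : γ ≤ δ ^ 2 / 40000 := by
    have : (0 : ℝ) ≤ J * γ := by positivity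
    linarith
  obtain ⟨ρ, hρ, hργ, ε, hε, b0, hA⟩ := hA s J φ δ hφ hδ hφδ hLB γ hγ0
  obtain ⟨N0, hN0⟩ := eventually_atTop.1 ((ev_lin (a := γ / 2) (by positivity) 1).and
    ((ev_lin (a := δ ^ 2 / 40000) (by positivity) (3 * (J + 1))).and
    ((ev_lin (a := ρ / 8) (by positivity) 1).and
    ((ev_lin (a := 1 / 8) (by positivity) b0).and
    ((ev_lin (a := ε / 16) (by positivity) (4 * (J + 1) * 2 ^ J)).and
    (ev_exp (a := ε / 16) (by positivity) 2))))))
  refine ⟨ε / 16, by positivity, N0, ?_⟩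
  intro ι _ _ k H A E _ _ _ v hk hH hN hoff hden hrep
  obtain ⟨l1, l2, l3, l4, l5, l6⟩ := hN0 _ hN
  obtain ⟨k0, hk0, c1, c2⟩ := light k J hk γ hγ0.le (by linarith)
  rw [hγ1] at c2
  set N : ℕ := Fintype.card ι with hNdef
  have hN0' : (0 : ℝ) ≤ N := by positivity
  have mN : ∀ {x y : ℝ}, x ≤ y → x * N ≤ y * N := fun h => mul_le_mul_of_nonneg_right h hN0'
  obtain ⟨m, m1, m2⟩ : ∃ m : ℕ, ρ * N / 4 ≤ m ∧ (m : ℝ) ≤ ρ * N / 4 + 1 :=
    ⟨⌈ρ * N / 4⌉₊, Nat.le_ceil _, (Nat.ceil_lt_add_one (by positivity)).le⟩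
  have g1 := mN hργ
  have g2 := mN hγ2
  have g3 := mN hδ2.le
  have g4 : 0 ≤ γ * N := by positivity
  have m3 : (m : ℝ) ≤ γ * N := by linarith
  obtain ⟨β, R, i1, i2, i3, i4, I, e1, e2, e3, e4, e5⟩ := hNF ι E k H s J k0 m A v hrep hk hk0 hs
    hH (by exact_mod_cast m3.trans c1)
  have e3' : (#{i | k0 ≤ k i} : ℝ) ≤ 4 * Fintype.card β + m + 3 * (J + 1) := by
    exact_mod_cast e3
  have e4' : (4 * Fintype.card β + m : ℝ) ≤ N := by exact_mod_cast e4
  set b : ℕ := Fintype.card β with hbdef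
  have hm0 : (0 : ℝ) ≤ m := by positivity
  have f1 : N - 3 * (δ ^ 2 / 40000 * N) ≤ 4 * b := by linarith
  have f2 : 3 / 16 * (N : ℝ) ≤ b := by linarith
  have f3 : ρ * (3 / 16 * N) ≤ ρ * b := mul_le_mul_of_nonneg_left f2 hρ.le
  have f4 : ρ * (4 * b) ≤ ρ * N := mul_le_mul_of_nonneg_left (by linarith) hρ.le
  have f5 : ε * (3 / 16 * N) ≤ ε * b := mul_le_mul_of_nonneg_left f2 hε.le
  have f6 : 0 ≤ ε * N := by positivity
  have hmain := hA β R E I (by
      have : (b0 : ℝ) ≤ b := by linarith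
      exact_mod_cast this) (by rw [e1]; linarith) (by rw [e1]; linarith) (by linarith) (by
      have := exp_step (C := 2) (u := ε * b) (v := ε / 16 * N) (w := ε / 16 * N)
        (by linarith) (by linarith)
      linarith)
  refine le_trans ?_ hmain
  have f7 : (1 + δ ^ 2 / 10000) * N ≤ (N - 3 * (δ ^ 2 / 40000 * N)) * (1 + δ ^ 2 / 4096) := by
    have a1 : δ ^ 2 * (δ ^ 2 * N) ≤ 1 * (δ ^ 2 * N) :=
      mul_le_mul_of_nonneg_right hδ2.le (by positivity)
    have a2 : 0 ≤ δ ^ 2 * N := by positivity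
    linarith
  have f8 : (N - 3 * (δ ^ 2 / 40000 * N)) * (1 + δ ^ 2 / 4096) ≤ 4 * b * (1 + δ ^ 2 / 4096) :=
    mul_le_mul_of_nonneg_right f1 (by positivity)
  have f9 := mul_le_mul_of_nonneg_left (f7.trans f8) hφ.le
  linarith

theorem LB_mono {s J : ℕ} {φ ψ : ℝ} (h : ψ ≤ φ) (hL : LB s J φ) : LB s J ψ := by
  obtain ⟨ε, hε, N0, hL⟩ := hL
  refine ⟨ε, hε, N0, ?_⟩
  intro ι _ _ k H A E _ _ _ v a1 a2 a3 a4 a5 a6
  exact le_trans (mul_le_mul_of_nonneg_right h (by positivity)) (hL ι k H A E v a1 a2 a3 a4 a5 a6)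

theorem st_MAIN (hP : POS) (hA : ASC) : MAIN := by
  intro δ hδ
  by_cases hδ1 : 1 ≤ δ
  · refine ⟨0, 1, one_pos, 0, ?_⟩
    intro ι _ _ k H A E _ _ _ v _ _ _ _ _ _
    exact le_trans (mul_nonpos_of_nonpos_of_nonneg (by linarith) (by positivity)) (by positivity)
  have hδ1' := not_le.1 hδ1
  obtain ⟨c, hc, hP⟩ := hP
  obtain ⟨g, hg⟩ : ∃ g : ℝ, g = δ ^ 2 / 10000 := ⟨_, rfl⟩
  have hg0 : 0 < g := by rw [hg]; positivity
  obtain ⟨S, hS⟩ : ∃ S : ℕ, (((2 * S : ℕ) : ℝ) + 1) ^ 2 ≤ c * (1 + g) ^ S := by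
    have h1 := tendsto_pow_const_div_const_pow_of_one_lt 2 (r := 1 + g) (by linarith)
    have h2 := (h1.eventually (gt_mem_nhds (show (0 : ℝ) < c / 9 by positivity))).and
      (eventually_ge_atTop 1)
    obtain ⟨S, h3, h4⟩ := h2.exists
    refine ⟨S, ?_⟩
    rw [div_lt_iff₀ (by positivity)] at h3
    have h5 : (1 : ℝ) ≤ S := by exact_mod_cast h4
    push_cast
    nlinarith
  have step : ∀ i, i ≤ S → LB (2 * S + 1) (2 * (S - i))
      (min (1 - δ) (c / (((2 * S : ℕ) : ℝ) + 1) ^ 2 * (1 + g) ^ i)) := by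
    intro i
    induction i with
    | zero =>
      intro _
      refine LB_mono ?_ (hP (2 * S + 1) (2 * S) le_rfl)
      rw [pow_zero, mul_one]
      exact min_le_right _ _
    | succ i ih =>
      intro hi
      have h1 := ih (by omega)
      have e : 2 * (S - i) = 2 * (S - (i + 1)) + 2 := by omega
      rw [e] at h1
      have hp : 0 < c / (((2 * S : ℕ) : ℝ) + 1) ^ 2 * (1 + g) ^ i := by positivity
      refine LB_mono ?_ (hA _ _ _ δ (by omega) (lt_min (by linarith) hp) hδ (min_le_left _ _) h1)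
      rw [← hg, min_mul_of_nonneg _ _ (by linarith : (0 : ℝ) ≤ 1 + g), pow_succ (1 + g), mul_assoc]
      refine min_le_min ?_ le_rfl
      nlinarith
  refine ⟨2 * S + 1, ?_⟩
  have h := step S le_rfl
  rw [Nat.sub_self, mul_zero] at h
  refine LB_mono (le_min le_rfl ?_) h
  rw [div_mul_eq_mul_div, le_div_iff₀ (by positivity)]
  have : (0 : ℝ) ≤ (((2 * S : ℕ) : ℝ) + 1) ^ 2 := by positivity
  nlinarith

end Pool.Agent.Lib.QX
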