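import Pool.Agent.Lib.QX.Kit

/-! Child instances, groups and parity classes. -/

namespace Pool.Agent.Lib.QX

open Finset
open scoped BigOperators

namespace RCHILD

open Classical in
/-- the vector with the bits of the cells at the placed coordinates -/
noncomputable def up {ι σ ι' : Type} (e : σ → ι) (π : σ → ι') (y : ι' → Bool) (i : ι) : Bool :=
  decide (∃ x, e x = i ∧ y (π x) = true)

theorem up_e {ι σ ι' : Type} {e : σ → ι} (he : Function.Injective e) (π : σ → ι') (y : ι' → Bool)
    (x : σ) : up e π y (e x) = y (π x) := by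
  classical
  rw [Bool.eq_iff_iff, up, decide_eq_true_eq]
  exact ⟨fun ⟨x', h1, h2⟩ => he h1 ▸ h2, fun h => ⟨x, rfl, h⟩⟩

theorem up_off {ι σ ι' : Type} {e : σ → ι} (π : σ → ι') (y : ι' → Bool) {i : ι}
    (h : i ∉ Set.range e) : up e π y i = false := by
  rw [up, decide_eq_false_iff_not]
  exact fun ⟨x, h1, _⟩ => h ⟨x, h1⟩

/-- translation -/
def tl {ι : Type} (u : ι → Bool) : (ι → Bool) ≃ (ι → Bool) where
  toFun p i := xor (p i) (u i)
  invFun p i := xor (p i) (u i)
  left_inv p := by funext i; simp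
  right_inv p := by funext i; simp

end RCHILD

open RCHILD in
theorem st_CHILD : CHILD := by
  intro ι σ ι' E _ _ _ _ _ _ _ k H A v e π k' hR he hk
  have h1 : 𝔼 p : ι → Bool, 𝔼 y : ι' → Bool, ind (A (tl (up e π y) p)) = dens A := by
    rw [ex_comm]
    simp only [fun y => ex_equiv (tl (up e π y)) fun p => ind (A p)]
    exact ex_const _
  obtain ⟨p, hp⟩ := exists_ge_ex fun p : ι → Bool =>
    𝔼 y : ι' → Bool, ind (A (tl (up e π y) p))
  refine ⟨fun y => A (tl (up e π y) p), fun y => v (tl (up e π y) p),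
    ⟨fun y hy => hR.1 _ hy, fun y y' hy hy' h => hR.2 _ _ hy hy' ?_⟩, h1 ▸ hp⟩
  rw [← h, dw, dw]
  have h2 : ∑ x, (if y (π x) = y' (π x) then 0 else 2 ^ k (e x)) =
      ∑ i, if tl (up e π y) p i = tl (up e π y') p i then 0 else 2 ^ k i :=
    Fintype.sum_of_injective e he _ _ (fun i hi => by simp [tl, up_off π _ hi])
      fun x => by simp [tl, up_e he]
  rw [← h2, ← sum_fiberwise univ π]
  refine sum_congr rfl fun j _ => ?_
  rw [← hk j, sum_congr rfl (g := fun x => if y j = y' j then 0 else 2 ^ k (e x))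
    fun x hx => by rw [(mem_filter.1 hx).2]]
  split_ifs <;> simp

theorem st_GRP : GRP := by
  intro ι _ n S g hS
  have h : ∀ i, Nonempty (Fin (#(S i) / g i) × Fin (g i) ↪ S i) := fun i =>
    Function.Embedding.nonempty_of_card_le (by simpa using Nat.div_mul_le_self _ _)
  let f := fun i => (h i).some
  refine ⟨fun x => (f x.1 x.2).1, ?_, fun x => (f x.1 x.2).2⟩
  rintro ⟨i, a⟩ ⟨j, b⟩ hab
  obtain rfl : i = j := by
    by_contra hij
    have h1 : ((f i a : S i) : ι) = (f j b : S j) := hab
    exact disjoint_left.1 (hS i j hij) (f i a).2 (h1 ▸ (f j b).2)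
  have h2 : a = b := (f i).injective (Subtype.ext hab)
  rw [h2]

theorem st_PAR : PAR := by
  intro ι _ _ k k0 A hk
  let c : (ι → Bool) → ℕ := fun x => ∑ i, if k i = k0 ∧ x i = true then 1 else 0
  have key : ∀ x y, Even (c x + c y) → 2 * 2 ^ k0 ∣ dw (fun i => 2 ^ k i) x y := by
    intro x y h
    have h1 : 2 * 2 ^ k0 ∣ dw (fun i => 2 ^ k i) x y + 2 ^ k0 * (c x + c y) := by
      simp only [dw, c, ← sum_add_distrib, mul_sum]
      refine dvd_sum fun i _ => ?_
      by_cases h2 : k i = k0
      · cases x i <;> cases y i <;> simp [h2, ← two_mul, mul_comm]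
      · have h3 : 2 * 2 ^ k0 ∣ 2 ^ k i := by
          rw [← pow_succ']
          exact pow_dvd_pow 2 (by have := hk i; omega)
        simp only [h2, false_and, if_false, add_zero, mul_zero]
        split_ifs
        exacts [dvd_zero _, h3]
    refine (Nat.dvd_add_left ?_).1 h1
    rw [mul_comm 2]
    exact Nat.mul_dvd_mul_left _ h.two_dvd
  have h0 : dens A ≤ dens (fun x => A x ∧ Even (c x)) + dens fun x => A x ∧ ¬ Even (c x) :=
    (dens_mono fun x hx => by tauto).trans (dens_or_le _ _)
  rcases le_total (dens fun x => A x ∧ Even (c x)) (dens fun x => A x ∧ ¬ Even (c x)) with h | h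
  · exact ⟨fun x => A x ∧ ¬ Even (c x), fun x hx => hx.1, by linarith, fun x y hx hy =>
      key x y (Nat.even_add.2 (iff_of_false hx.2 hy.2))⟩
  · exact ⟨fun x => A x ∧ Even (c x), fun x hx => hx.1, by linarith, fun x y hx hy =>
      key x y (hx.2.add hy.2)⟩

end Pool.Agent.Lib.QX
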