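import Pool.Agent.Lib.QX.Kit

/-! Dense neighbourhoods. -/

namespace Pool.Agent.Lib.QX

open Finset
open scoped BigOperators

namespace RDN

theorem hd_sum {ι : Type} [Fintype ι] (x y : ι → Bool) :
    hammingDist x y = ∑ i, if x i = y i then 0 else 1 := by
  unfold hammingDist
  rw [Finset.card_filter]
  exact Finset.sum_congr rfl fun i _ => by by_cases h : x i = y i <;> simp [h]

theorem split {R : Type} [Fintype R] [DecidableEq R] (S : Finset R) :
    ∃ e : (({i // i ∈ S} → Bool) × ({i // ¬ i ∈ S} → Bool)) ≃ (R → Bool),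
      ∀ p q, hammingDist (e p) (e q) = hammingDist p.1 q.1 + hammingDist p.2 q.2 := by
  refine ⟨(Equiv.piEquivPiSubtypeProd (· ∈ S) fun _ => Bool).symm, fun p q => ?_⟩
  simp only [hd_sum]
  rw [← Fintype.sum_subtype_add_sum_subtype (· ∈ S)]
  congr 1
  · exact Finset.sum_congr (by ext; simp) fun i _ => by simp [i.2]
  · exact Finset.sum_congr rfl fun i _ => by simp [i.2]

theorem single_le {X : Type} [Fintype X] {f : X → ℝ} (h : ∀ x, 0 ≤ f x) (a : X) :
    f a / Fintype.card X ≤ 𝔼 x, f x := by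
  rw [Fintype.expect_eq_sum_div_card]
  gcongr
  exact Finset.single_le_sum (fun x _ => h x) (mem_univ a)

theorem exp_six {a b : ℝ} (h : a + 6 ≤ b) : Real.exp (-b) ≤ Real.exp (-a) / 32 := by
  have h1 : (2 : ℝ) ^ 6 ≤ Real.exp 1 ^ 6 := by
    have := Real.add_one_le_exp 1
    gcongr; linarith
  rw [← Real.exp_nat_mul] at h1
  have h2 : Real.exp (-b) * Real.exp 6 ≤ Real.exp (-a) := by
    rw [← Real.exp_add]; exact Real.exp_le_exp.2 (by linarith)
  have := Real.exp_pos (-b)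
  norm_num at h1
  rw [le_div_iff₀ (by norm_num)]
  nlinarith

theorem core {εF : ℝ} {m0 : ℕ} (hF : FRat εF m0) {R R1 R2 : Type} [Fintype R] [DecidableEq R]
    [Fintype R1] [DecidableEq R1] [Fintype R2] [DecidableEq R2]
    (e : ((R1 → Bool) × (R2 → Bool)) ≃ (R → Bool))
    (he : ∀ p q, hammingDist (e p) (e q) = hammingDist p.1 q.1 + hammingDist p.2 q.2)
    (g : (R → Bool) → ℝ) (C : (R → Bool) → Prop) (D : ℤ) (x y : ℝ) (hx : 0 < x) (hy : 0 ≤ y)
    (hm : m0 ≤ Fintype.card R1) (hg : ∀ a, 0 ≤ g a ∧ g a ≤ 1) (hgx : x ≤ 𝔼 a, g a)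
    (hC : x ≤ dens C) (hp : ∀ a c, 0 < g a → C c → Even ((hammingDist a c : ℤ) - D))
    (hb : ∀ c, C c → 𝔼 a, ind ((hammingDist a c : ℤ) = D) * g a ≤ y)
    (hε : Real.exp (-(εF * Fintype.card R1)) ≤ x / 4)
    (hD : 32 * |2 * (D : ℝ) - (Fintype.card R1 + Fintype.card R2)| ≤ Fintype.card R1)
    (ht : ∀ c : R2 → Bool, dens (fun a => (Fintype.card R1 : ℝ) / 32 <
      |2 * (hammingDist a c : ℝ) - Fintype.card R2|) ≤ x / 8) :
    x ^ 2 / 16 / 4 ^ Fintype.card R1 ≤ y := by
  have sw : ∀ f : (R → Bool) → ℝ, 𝔼 a, f a = 𝔼 a2, 𝔼 a1, f (e (a1, a2)) := fun f => by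
    rw [← ex_equiv e, ex_prod, ex_comm]
  obtain ⟨c2, hc2⟩ := exists_ge_ex fun a2 => dens fun a1 => C (e (a1, a2))
  have h1 : x ≤ dens fun c1 => C (e (c1, c2)) := by
    refine hC.trans (le_trans (le_of_eq ?_) hc2)
    exact sw _
  have h2 : x / 2 ≤ dens fun a => x / 2 ≤ g a := by
    have := dens_ge_of_ex (f := g) (a := x / 2) (by positivity) fun a => (hg a).2
    linarith
  have h3 : x / 4 ≤ dens fun a2 => x / 4 ≤ dens fun a1 => x / 2 ≤ g (e (a1, a2)) := by
    have := dens_ge_of_ex (f := fun a2 => dens fun a1 => x / 2 ≤ g (e (a1, a2))) (a := x / 4)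
      (by positivity) fun a => dens_le_one _
    have h : (dens fun a => x / 2 ≤ g a) = 𝔼 a2, dens fun a1 => x / 2 ≤ g (e (a1, a2)) := sw _
    linarith
  set G : (R2 → Bool) → Prop := fun a2 => (x / 4 ≤ dens fun a1 => x / 2 ≤ g (e (a1, a2))) ∧
    |2 * (hammingDist a2 c2 : ℝ) - Fintype.card R2| ≤ Fintype.card R1 / 32 with hG
  have h4 : x / 8 ≤ dens G := by
    have h5 := dens_or_le G fun a => (Fintype.card R1 : ℝ) / 32 <
      |2 * (hammingDist a c2 : ℝ) - Fintype.card R2|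
    have h6 := h3.trans ((dens_mono fun a ha => (le_or_gt _ _).imp (fun h => ⟨ha, h⟩) id).trans h5)
    linarith [ht c2]
  set T : (R1 → Bool) → (R2 → Bool) → (R1 → Bool) → ℝ := fun c1 a2 a1 => ind (C (e (c1, c2))) *
    (ind ((hammingDist (e (a1, a2)) (e (c1, c2)) : ℤ) = D) * g (e (a1, a2))) with hT
  have T0 : ∀ c1 a2 a1, 0 ≤ T c1 a2 a1 := fun _ _ _ =>
    mul_nonneg (ind_nonneg _) (mul_nonneg (ind_nonneg _) (hg _).1)
  have h7 : 𝔼 c1, 𝔼 a2, 𝔼 a1, T c1 a2 a1 ≤ y := ex_le fun c1 => by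
    simp only [hT, ex_mul_left]
    by_cases h : C (e (c1, c2))
    · rw [ind_pos h, one_mul, ← sw fun a => ind ((hammingDist a (e (c1, c2)) : ℤ) = D) * g a]
      exact hb _ h
    · rw [ind_neg h, zero_mul]; exact hy
  have h8 : ∀ a2, x / 2 / 4 ^ Fintype.card R1 * ind (G a2) ≤ 𝔼 c1, 𝔼 a1, T c1 a2 a1 := by
    intro a2
    by_cases h : G a2
    · obtain ⟨a1, c1, k1, k2, k3⟩ := hF R1 (fun a1 => x / 2 ≤ g (e (a1, a2)))
        (fun c1 => C (e (c1, c2))) (D - hammingDist a2 c2) hm (hε.trans h.1) (by linarith) (by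
          have := abs_sub (2 * (D : ℝ) - (Fintype.card R1 + Fintype.card R2))
            (2 * (hammingDist a2 c2 : ℝ) - Fintype.card R2)
          have k := h.2
          push_cast
          rw [show 2 * ((D : ℝ) - hammingDist a2 c2) - Fintype.card R1 =
            2 * (D : ℝ) - (Fintype.card R1 + Fintype.card R2) -
              (2 * (hammingDist a2 c2 : ℝ) - Fintype.card R2) by ring]
          linarith) (fun a1 c1 k1 k2 => by
          have := hp (e (a1, a2)) _ (by linarith) k2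
          rw [he] at this
          convert this using 1
          push_cast; ring)
      have k4 : x / 2 ≤ T c1 a2 a1 := by
        simp only [hT]
        rw [ind_pos k2, ind_pos (by rw [he]; push_cast; linarith), one_mul, one_mul]
        exact k1
      have k5 := single_le (T0 c1 a2) a1
      have k6 := single_le (f := fun c1 => 𝔼 a1, T c1 a2 a1) (fun c => ex_nonneg (T0 c a2)) c1
      rw [Fintype.card_fun, Fintype.card_bool] at k5 k6
      push_cast at k5 k6
      rw [ind_pos h, mul_one, show (4 : ℝ) = 2 * 2 by norm_num, mul_pow, ← div_div]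
      refine le_trans ?_ k6
      gcongr
      refine le_trans ?_ k5
      gcongr
    · rw [ind_neg h, mul_zero]
      exact ex_nonneg fun c => ex_nonneg (T0 c a2)
  have h9 := ex_mono h8
  rw [ex_mul_left, ex_comm] at h9
  refine le_trans ?_ (h9.trans h7)
  calc x ^ 2 / 16 / 4 ^ Fintype.card R1 = x / 2 / 4 ^ Fintype.card R1 * (x / 8) := by ring
    _ ≤ _ := mul_le_mul_of_nonneg_left h4 (by positivity)

end RDN

open RDN

theorem st_DN (hFR : FR) (hT : TAIL) : DN := by
  intro e3 h3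
  obtain ⟨εF, hε, m0, hF⟩ := hFR
  obtain ⟨η, η0, η1, η3⟩ : ∃ η : ℝ, 0 < η ∧ η ≤ 1 ∧ η ≤ e3 / 4 :=
    ⟨min 1 (e3 / 4), by positivity, min_le_left _ _, min_le_right _ _⟩
  obtain ⟨e2, e0, ea, eb, ec⟩ : ∃ e2 : ℝ, 0 < e2 ∧ e2 ≤ e3 / 8 ∧ e2 ≤ η ^ 2 / 8192 ∧
      e2 ≤ εF * η / 2 :=
    ⟨min (e3 / 8) (min (η ^ 2 / 8192) (εF * η / 2)), by positivity, min_le_left _ _,
      (min_le_right _ _).trans (min_le_left _ _), (min_le_right _ _).trans (min_le_right _ _)⟩
  refine ⟨e2, e0, by linarith, ⌈6 / e2⌉₊ + ⌈m0 / η⌉₊, ?_⟩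
  intro R _ _ g C D hm hg hgx hD hp
  by_contra hc
  rw [not_le] at hc
  set m := Fintype.card R with hmd
  have m6 : 6 ≤ e2 * m := by
    have : 6 / e2 ≤ m := Nat.ceil_le.1 (by omega)
    rwa [div_le_iff₀' e0] at this
  have mm : (m0 : ℝ) ≤ η * m := by
    have : m0 / η ≤ m := Nat.ceil_le.1 (by omega)
    rwa [div_le_iff₀' η0] at this
  have m1 : (0 : ℝ) < m := by
    rcases (Nat.cast_nonneg (α := ℝ) m).eq_or_lt with h | h
    · rw [← h] at m6; linarith
    · exact h
  have hk : ⌈η * m⌉₊ ≤ #(univ : Finset R) := Nat.ceil_le.2 (by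
    rw [card_univ, ← hmd]; nlinarith)
  obtain ⟨S, -, hS⟩ := Finset.exists_subset_card_eq hk
  obtain ⟨e, he⟩ := split S
  have c1 : Fintype.card {i // i ∈ S} = ⌈η * m⌉₊ := by rw [Fintype.card_coe, hS]
  have c2 : (Fintype.card {i // i ∈ S} : ℝ) + Fintype.card {i // ¬ i ∈ S} = m := by
    have := Fintype.card_subtype_le (· ∈ S)
    rw [Fintype.card_subtype_compl, Nat.cast_sub this]; ring
  have k1 : η * m ≤ Fintype.card {i // i ∈ S} := by rw [c1]; exact Nat.le_ceil _
  have k2 : (Fintype.card {i // i ∈ S} : ℝ) ≤ η * m + 1 := by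
    rw [c1]; exact (Nat.ceil_lt_add_one (by positivity)).le
  have x0 := Real.exp_pos (-(e2 * m))
  have key := core hF e he g _ D _ (Real.exp (-(e3 * m))) x0 (Real.exp_pos _).le
    (by exact_mod_cast mm.trans k1) hg hgx hc.le (fun a c h1 h2 => hp a c h1 h2.1)
    (fun c h => h.2.le) (by
      have h1 : e2 * m ≤ εF * η / 2 * m := by gcongr
      have h2 : εF * (η * m) ≤ εF * Fintype.card {i // i ∈ S} := by gcongr
      have := exp_six (a := e2 * m) (b := εF * Fintype.card {i // i ∈ S}) (by linarith)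
      linarith) (by
      have h1 : e2 * m ≤ η / 32 * m := by gcongr; nlinarith
      rw [c2]; linarith) (fun c => by
      have h1 := hT {i // ¬ i ∈ S} (fun _ => 1) 1 m (Fintype.card {i // i ∈ S} / 64) c
        zero_le_one (by simp) (by linarith [Nat.cast_nonneg (α := ℝ) (Fintype.card {i // i ∈ S})])
        (by positivity)
      have h2 : e2 * m ≤ η ^ 2 / 8192 * m := by gcongr
      have h4 : (η * m / 64) ^ 2 / m ≤ ((Fintype.card {i // i ∈ S} : ℝ) / 64) ^ 2 / m := by gcongr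
      have h5 : (η * m / 64) ^ 2 / m = η ^ 2 / 4096 * m := by field_simp; ring
      have := exp_six (a := e2 * m) (b := ((Fintype.card {i // i ∈ S} : ℝ) / 64) ^ 2 / m)
        (by linarith)
      refine le_trans (dens_mono fun a ha => ?_) (h1.trans (by linarith))
      rw [hammingDist_comm, hd_sum] at ha
      simp only [dw, Nat.cast_one, sum_const, card_univ, nsmul_eq_mul, mul_one]
      linarith)
  generalize Fintype.card {i // i ∈ S} = k at key k2
  have h1 : e2 * m ≤ e3 / 8 * m := by gcongr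
  have h2 : η * m ≤ e3 / 4 * m := by gcongr
  have h4 := exp_six (a := e2 * m + e2 * m + k * 2) (b := e3 * m) (by linarith)
  have h5 : (4 : ℝ) ^ k ≤ Real.exp (k * 2) := by
    rw [Real.exp_nat_mul]
    have := Real.add_one_le_exp 1
    have h : Real.exp 2 = Real.exp 1 * Real.exp 1 := by rw [← Real.exp_add]; norm_num
    gcongr; nlinarith
  have h6 : Real.exp (-(e2 * m + e2 * m + k * 2)) ≤ Real.exp (-(e2 * m)) ^ 2 / 4 ^ k := by
    rw [neg_add, neg_add, Real.exp_add, Real.exp_add, Real.exp_neg (k * 2), ← sq,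
      ← div_eq_mul_inv]
    gcongr
  have h7 : 0 < Real.exp (-(e2 * m)) ^ 2 / 4 ^ k := by positivity
  rw [div_right_comm] at key
  linarith

end Pool.Agent.Lib.QX
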