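import Pool.Agent.Lib.QX.R_FRAME

namespace Pool.Agent.Lib.QX

open Finset
open scoped BigOperators

namespace RFL

variable {β : Type} [Fintype β] [DecidableEq β]

/-- active cells -/
def Act (K : Finset β) (W : β → Pr) (x : β × Bool) : Prop :=
  x.1 ∉ K ∧ (x.2 = true → (W x.1).1 ≠ (W x.1).2)

instance (K : Finset β) (W : β → Pr) : DecidablePred (Act K W) := fun x => by
  unfold Act; infer_instance

/-- extension of cell coordinates -/
def ext (K : Finset β) (W : β → Pr) (z : {x // Act K W x} → Bool) : β → Bool × Bool :=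
  fun B => (if h : Act K W (B, false) then z ⟨_, h⟩ else false,
    if h : Act K W (B, true) then z ⟨_, h⟩ else false)

/-- restriction of cell coordinates -/
def res (K : Finset β) (W : β → Pr) (g : β → Bool × Bool) : {x // Act K W x} → Bool :=
  fun x => if x.1.2 = true then (g x.1.1).2 else (g x.1.1).1

theorem sum_act {M : Type} [AddCommMonoid M] (K : Finset β) (W : β → Pr) (f : β × Bool → M) :
    ∑ x : {x // Act K W x}, f x.1 = ∑ B, if B ∈ K then 0 else
      (f (B, false) + if (W B).1 = (W B).2 then 0 else f (B, true)) := by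
  rw [← Finset.sum_subtype (univ.filter (Act K W)) (by simp) f, Finset.sum_filter,
    Fintype.sum_prod_type]
  refine Finset.sum_congr rfl fun B _ => ?_
  rw [Fintype.sum_bool]
  by_cases h : B ∈ K
  · simp [Act, h]
  · by_cases h' : (W B).1 = (W B).2
    · simp [Act, h, h']
    · simp [Act, h, h', add_comm]

omit [Fintype β] in
theorem fam_res (ω : β → Om) (K : Finset β) (c : β → V4) (W : β → Pr) (g : β → Bool × Bool) :
    fam ω K c W (ext K W (res K W g)) = fam ω K c W g := by
  funext B
  unfold fam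
  by_cases h : B ∈ K
  · simp [h]
  · simp only [h, if_false]
    by_cases h' : (W B).1 = (W B).2
    · funext q
      simp [opt, ext, res, Act, h, h']
    · congr 1
      simp [ext, res, Act, h, h']

theorem ex_res (K : Finset β) (W : β → Pr) (f : ({x // Act K W x} → Bool) → ℝ) :
    𝔼 g : β → Bool × Bool, f (res K W g) = 𝔼 z, f z := by
  let e1 : (β → Bool × Bool) ≃ (β × Bool → Bool) :=
    { toFun := fun g x => if x.2 = true then (g x.1).2 else (g x.1).1
      invFun := fun y B => (y (B, false), y (B, true))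
      left_inv := fun g => by funext B; simp
      right_inv := fun y => by
        funext x
        obtain ⟨B, b⟩ := x
        cases b <;> simp }
  have h := ex_equiv (e1.trans (Equiv.piEquivPiSubtypeProd (Act K W) (fun _ => Bool)))
    (fun p => f p.1)
  rw [ex_prod] at h
  simp only [ex_const] at h
  exact h

theorem dw_ext (kB : β → ℕ) (ω : β → Om) (K : Finset β) (c : β → V4) (W : β → Pr)
    (z z' : {x // Act K W x} → Bool) :
    dw (fun x : {x // Act K W x} => 2 ^ (if (W x.1.1).1 = (W x.1.1).2 then kB x.1.1 + 2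
      else kB x.1.1 + 1)) z z' =
      db kB (fam ω K c W (ext K W z)) (fam ω K c W (ext K W z')) := by
  have h1 := sum_act K W (fun x => if (if x.2 = true then (ext K W z x.1).2 else (ext K W z x.1).1)
    = (if x.2 = true then (ext K W z' x.1).2 else (ext K W z' x.1).1) then 0 else
      2 ^ (if (W x.1).1 = (W x.1).2 then kB x.1 + 2 else kB x.1 + 1))
  have h2 : ∀ (z : {x // Act K W x} → Bool) (x : {x // Act K W x}),
      (if x.1.2 = true then (ext K W z x.1.1).2 else (ext K W z x.1.1).1) = z x := by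
    rintro z ⟨⟨B, b⟩, h⟩
    cases b <;> simp [ext, h]
  simp only [h2] at h1
  unfold dw db
  rw [h1]
  refine Finset.sum_congr rfl fun B _ => ?_
  unfold fam
  by_cases h : B ∈ K
  · simp [h]
  · simp only [h, if_false]
    by_cases h' : (W B).1 = (W B).2
    · rw [st_FRAME.2.1 _ _ _ _ h']
      simp only [h', if_true, Bool.false_eq_true, if_false, add_zero]
      split_ifs
      · simp
      · ring
    · rw [st_FRAME.2.2 _ _ _ _ h']
      simp only [h', if_true, Bool.false_eq_true, if_false]
      split_ifs <;> ring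

end RFL

open RFL

theorem st_FL : FL := by
  intro s J φ ε N0 hφ hε hLB β R E _ _ _ _ _ _ _ I ω K c W a hK hN0 hoff hden
  classical
  set S := I.spanF ω K c W a with hS
  set A' : ({x // Act K W x} → Bool) → Prop := fun z => I.A (fam ω K c W (ext K W z)) a with hA'
  have hmem : ∀ z, A' z → I.v (fam ω K c W (ext K W z)) a ∈ S := fun z hz =>
    Submodule.subset_span ⟨_, hz, rfl⟩
  set v' : ({x // Act K W x} → Bool) → S := fun z => if h : A' z then ⟨_, hmem z h⟩ else 0
    with hv'
  set k' : {x // Act K W x} → ℕ := fun x =>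
    if (W x.1.1).1 = (W x.1.1).2 then I.kB x.1.1 + 2 else I.kB x.1.1 + 1 with hk'
  have hKr : 2 * (#K : ℝ) ≤ Fintype.card β := by exact_mod_cast hK
  have hcard : (Fintype.card {x // Act K W x} : ℝ) =
      ∑ B, if B ∈ K then 0 else (nl (W B) : ℝ) := by
    have := sum_act K W (fun _ => (1 : ℝ))
    rw [Finset.sum_const, nsmul_eq_mul, mul_one, Finset.card_univ] at this
    rw [this]
    refine Finset.sum_congr rfl fun B _ => ?_
    unfold nl
    split_ifs <;> norm_num
  have hsK : ∀ y : ℝ, ∑ B, (if B ∈ K then y else 0) = #K * y := fun y => by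
    rw [Finset.sum_ite_mem, univ_inter, Finset.sum_const, nsmul_eq_mul]
  have hc1 : (∑ B, (nl (W B) : ℝ)) - 2 * #K ≤ Fintype.card {x // Act K W x} := by
    rw [hcard, mul_comm, ← hsK, ← Finset.sum_sub_distrib]
    refine Finset.sum_le_sum fun B _ => ?_
    unfold nl
    split_ifs <;> norm_num
  have hc2 : (Fintype.card β : ℝ) - #K ≤ Fintype.card {x // Act K W x} := by
    have e : (Fintype.card β : ℝ) = ∑ _B : β, (1 : ℝ) := by simp
    rw [hcard, e, ← mul_one (#K : ℝ), ← hsK, ← Finset.sum_sub_distrib]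
    refine Finset.sum_le_sum fun B _ => ?_
    unfold nl
    split_ifs <;> norm_num
  have hc3 : ε * Fintype.card β / 2 ≤ ε * Fintype.card {x // Act K W x} := by
    have : (Fintype.card β : ℝ) / 2 ≤ Fintype.card {x // Act K W x} := by linarith
    nlinarith
  have hmain := hLB {x // Act K W x} k' I.H A' S v' ?_ I.hH ?_ ?_ ?_ ⟨?_, ?_⟩
  · exact le_trans (mul_le_mul_of_nonneg_left hc1 hφ) hmain
  · intro x
    have := (I.hk x.1.1).2
    simp only [hk']
    split_ifs <;> omega
  · have h1 : (2 * N0 : ℝ) ≤ Fintype.card β := by exact_mod_cast hN0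
    have : (N0 : ℝ) ≤ Fintype.card {x // Act K W x} := by linarith
    exact_mod_cast this
  · have h1 := sum_act K W (fun x => (2 : ℝ) ^
      (if (W x.1).1 = (W x.1).2 then I.kB x.1 + 2 else I.kB x.1 + 1))
    have h2 : ∑ x, (2 : ℝ) ^ k' x = ∑ B, 4 * (2 : ℝ) ^ I.kB B -
        ∑ B, if B ∈ K then 4 * (2 : ℝ) ^ I.kB B else 0 := by
      simp only [hk']
      rw [h1, ← Finset.sum_sub_distrib]
      refine Finset.sum_congr rfl fun B _ => ?_
      split_ifs <;> ring
    have h3 : ∑ B, (if B ∈ K then 4 * (2 : ℝ) ^ I.kB B else 0) ≤ #K * (4 * 2 ^ J) := by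
      rw [← hsK]
      refine Finset.sum_le_sum fun B _ => ?_
      have hJ : (2 : ℝ) ^ I.kB B ≤ 2 ^ J := pow_le_pow_right₀ (by norm_num) (I.hk B).2
      split_ifs <;> linarith
    have h4 : 0 ≤ ∑ B, (if B ∈ K then 4 * (2 : ℝ) ^ I.kB B else 0) :=
      Finset.sum_nonneg fun B _ => by split_ifs <;> positivity
    have h5 : (2 : ℝ) ^ I.k0 * Fintype.card R ≤ 2 ^ J * Fintype.card R :=
      mul_le_mul_of_nonneg_right (pow_le_pow_right₀ (by norm_num) I.hk0) (by positivity)
    have h6 : (0 : ℝ) ≤ 2 ^ I.k0 * Fintype.card R := by positivity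
    have h7 := abs_le.1 (le_refl I.off)
    refine le_trans ?_ (hoff.trans hc3)
    rw [h2, abs_le]
    have h8 := le_abs_self (2 * (I.H : ℝ) - (∑ B, 4 * (2 : ℝ) ^ I.kB B +
      2 ^ I.k0 * Fintype.card R))
    have h9 := neg_abs_le (2 * (I.H : ℝ) - (∑ B, 4 * (2 : ℝ) ^ I.kB B +
      2 ^ I.k0 * Fintype.card R))
    unfold Inst.off
    constructor <;> nlinarith
  · refine le_trans (Real.exp_le_exp.2 (by linarith)) (hden.trans (le_of_eq ?_))
    unfold dens hd
    rw [← ex_res K W (fun z => ind (A' z))]
    refine Finset.expect_congr rfl fun g _ => ?_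
    simp only [hA', fam_res]
    rfl
  · intro z hz
    simp only [hv', dif_pos hz]
    intro h
    exact I.ne _ _ hz (congrArg Subtype.val h)
  · intro z z' hz hz' hd
    simp only [hv', dif_pos hz, dif_pos hz']
    rw [Submodule.coe_inner]
    apply I.orth _ _ _ _ hz hz'
    rw [hammingDist_self, mul_zero, add_zero, ← dw_ext]
    exact hd

end Pool.Agent.Lib.QX
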