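import Pool.Agent.Lib.QX.Kit

/-! From forbidden intersections to forbidden Hamming distances. -/

namespace Pool.Agent.Lib.QX

open Finset
open scoped BigOperators

namespace RFR

variable {R : Type} [Fintype R] [DecidableEq R]

omit [DecidableEq R] in
theorem ham (a b : R → Bool) :
    hammingDist a b + 2 * #{i | a i = true ∧ b i = true} = cnt a + cnt b := by
  unfold hammingDist cnt
  simp only [Finset.card_filter]
  rw [Finset.mul_sum, ← Finset.sum_add_distrib, ← Finset.sum_add_distrib]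
  refine Finset.sum_congr rfl fun i _ => ?_
  cases a i <;> cases b i <;> simp

omit [DecidableEq R] in
theorem dw_one (x : R → Bool) : dw (fun _ => 1) (fun _ => false) x = cnt x := by
  unfold dw cnt
  rw [Finset.card_filter]
  refine Finset.sum_congr rfl fun i _ => ?_
  cases x i <;> simp

theorem level (A : (R → Bool) → Prop) :
    ∃ k : ℕ, dens A ≤ (Fintype.card R + 1) * dens (fun x => A x ∧ cnt x = k) := by
  have h1 : dens A = ∑ k ∈ range (Fintype.card R + 1), dens (fun x => A x ∧ cnt x = k) := by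
    unfold dens
    rw [← ex_sum]
    refine Finset.expect_congr rfl fun x _ => ?_
    rw [Finset.sum_eq_single (cnt x) (fun k _ hk => ind_neg fun h => hk h.2.symm)
      fun h => absurd (mem_range.2 (Nat.lt_succ_of_le (Finset.card_le_univ _))) h]
    exact ind_congr (by simp)
  obtain ⟨k, -, hk⟩ := Finset.exists_max_image (range (Fintype.card R + 1))
    (fun k => dens (fun x => A x ∧ cnt x = k)) ⟨0, by simp⟩
  refine ⟨k, h1.le.trans ((Finset.sum_le_card_nsmul _ _ _ hk).trans ?_)⟩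
  simp

theorem slice (hT : TAIL) (A : (R → Bool) → Prop) {μ : ℝ} (hm : 0 < Fintype.card R) (h0 : 0 < μ)
    (hA : μ ≤ dens A) (ht : 8 * Real.exp (-(Fintype.card R / 4096)) ≤ μ) :
    ∃ (k : ℕ) (A' : (R → Bool) → Prop), (∀ x, A' x → A x ∧ cnt x = k) ∧ (∃ x, A' x) ∧
      |2 * (k : ℝ) - Fintype.card R| ≤ Fintype.card R / 32 ∧
      μ ≤ 2 * (Fintype.card R + 1) * dens A' := by
  have hm' : (0 : ℝ) < Fintype.card R := by exact_mod_cast hm
  have h1 := hT R (fun _ => 1) 1 (Fintype.card R) (Fintype.card R / 64) (fun _ => false)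
    zero_le_one (fun _ => by simp) le_rfl (by positivity)
  rw [show ((Fintype.card R : ℝ) / 64) ^ 2 / Fintype.card R = Fintype.card R / 4096 by
    field_simp; norm_num] at h1
  simp only [dw_one, Nat.cast_one, Finset.sum_const, Finset.card_univ, nsmul_eq_mul,
    mul_one] at h1
  obtain ⟨k, hk⟩ := level fun x => A x ∧ |2 * (cnt x : ℝ) - Fintype.card R| ≤ Fintype.card R / 32
  have h2 := (dens_mono (A := A) fun x hx => by
    by_cases h : |2 * (cnt x : ℝ) - Fintype.card R| ≤ Fintype.card R / 32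
    · exact Or.inl ⟨hx, h⟩
    · exact Or.inr (by linarith [not_le.1 h])).trans (dens_or_le
      (fun x => A x ∧ |2 * (cnt x : ℝ) - Fintype.card R| ≤ Fintype.card R / 32)
      fun x => 2 * ((Fintype.card R : ℝ) / 64) < |2 * (cnt x : ℝ) - Fintype.card R|)
  have h3 : μ ≤ 2 * (Fintype.card R + 1) * dens (fun x =>
      (A x ∧ |2 * (cnt x : ℝ) - Fintype.card R| ≤ Fintype.card R / 32) ∧ cnt x = k) := by
    linarith
  obtain ⟨x, hx⟩ := exists_of_dens_pos
    ((mul_pos_iff_of_pos_left (by positivity)).1 (h0.trans_le h3))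
  exact ⟨k, _, fun y hy => ⟨hy.1.1, hy.2⟩, ⟨x, hx⟩, hx.2 ▸ hx.1.2, h3⟩

theorem big {ε : ℝ} (h : 0 < ε) {m : ℕ} (hm : ⌈192 / ε ^ 3⌉₊ + 1 ≤ m) :
    8 * ((m : ℝ) + 1) ^ 2 < Real.exp (ε * m) := by
  have h1 : 192 / ε ^ 3 + 1 ≤ m := by
    have : ((⌈192 / ε ^ 3⌉₊ + 1 : ℕ) : ℝ) ≤ m := by exact_mod_cast hm
    push_cast at this
    linarith [Nat.le_ceil (192 / ε ^ 3)]
  have h2 : (0 : ℝ) < 192 / ε ^ 3 := by positivity
  have h3 : 192 < ε ^ 3 * m := by
    have : 192 / ε ^ 3 < m := by linarith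
    rwa [div_lt_iff₀' (by positivity)] at this
  have h4 := Real.pow_div_factorial_le_exp (ε * m) (by positivity) 3
  have h5 : (ε * m) ^ 3 / (Nat.factorial 3 : ℕ) = ε ^ 3 * m * m ^ 2 / 6 := by
    rw [show ((Nat.factorial 3 : ℕ) : ℝ) = 6 by norm_num [Nat.factorial]]; ring
  have h6 : (1 : ℝ) ≤ m := by linarith
  have h7 : 192 * (m : ℝ) ^ 2 < ε ^ 3 * m * m ^ 2 := mul_lt_mul_of_pos_right h3 (by positivity)
  nlinarith

end RFR

theorem st_FR (hF : FRI) (hT : TAIL) : FR := by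
  obtain ⟨e1, h1, hF⟩ := hF
  obtain ⟨ε, h0, k1, k2⟩ : ∃ ε : ℝ, 0 < ε ∧ ε ≤ e1 / 4 ∧ ε ≤ 1 / 8192 :=
    ⟨min (e1 / 4) (1 / 8192), by positivity, min_le_left _ _, min_le_right _ _⟩
  refine ⟨ε, h0, ⌈192 / ε ^ 3⌉₊ + 1, fun R _ _ A B D hm hA hB hD hE => ?_⟩
  have hb := RFR.big h0 hm
  have hm0 : 0 < Fintype.card R := by omega
  have hm1 : (1 : ℝ) ≤ Fintype.card R := by exact_mod_cast hm0
  have ht : 8 * Real.exp (-(Fintype.card R / 4096)) ≤ Real.exp (-(ε * Fintype.card R)) := by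
    have h2 : (8 : ℝ) ≤ Real.exp (ε * Fintype.card R) := by nlinarith
    refine (mul_le_mul_of_nonneg_right h2 (Real.exp_pos _).le).trans ?_
    rw [← Real.exp_add]
    exact Real.exp_le_exp.2 (by nlinarith)
  obtain ⟨k, A', a1, ⟨a, ha⟩, a2, a3⟩ := RFR.slice hT A hm0 (Real.exp_pos _) hA ht
  obtain ⟨k', B', b1, ⟨b, hb'⟩, b2, b3⟩ := RFR.slice hT B hm0 (Real.exp_pos _) hB ht
  have hh : ∀ x y, A' x → B' y → (hammingDist x y : ℤ) +
      2 * (#{i | x i = true ∧ y i = true} : ℕ) = k + k' := fun x y hx hy => by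
    have := RFR.ham x y
    rw [(a1 x hx).2, (b1 y hy).2] at this
    exact_mod_cast this
  obtain ⟨j, hj⟩ := hE a b (a1 a ha).1 (b1 b hb').1
  obtain ⟨l, hl⟩ : ∃ l : ℤ, 2 * l = k + k' - D :=
    ⟨j + (#{i | a i = true ∧ b i = true} : ℕ), by linarith [hh a b ha hb']⟩
  have hl' : 2 * (l : ℝ) = k + k' - D := by exact_mod_cast hl
  have c1 := abs_le.1 a2
  have c2 := abs_le.1 b2
  have c3 := abs_le.1 (show |2 * (D : ℝ) - Fintype.card R| ≤ Fintype.card R / 16 by linarith)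
  have l0 : (0 : ℝ) ≤ l := by linarith [c1.1, c2.1, c3.2]
  lift l to ℕ using by exact_mod_cast l0
  push_cast at hl'
  by_contra hc
  have h3 := hF R A' B' l (by
      have : (Fintype.card R : ℝ) ≤ 5 * l := by linarith [c1.1, c2.1, c3.2]
      exact_mod_cast this) (by
      have : 10 * (l : ℝ) ≤ 3 * Fintype.card R := by linarith [c1.2, c2.2, c3.1]
      exact_mod_cast this) fun x y hx hy h4 => hc ⟨x, y, (a1 x hx).1, (b1 y hy).1, by
      have := hh x y hx hy
      rw [h4] at this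
      linarith⟩
  have h4 := mul_le_mul a3 b3 (Real.exp_pos _).le ((Real.exp_pos _).le.trans a3)
  have h5 : Real.exp (ε * Fintype.card R) * Real.exp (-(e1 * Fintype.card R)) ≤
      Real.exp (-(ε * Fintype.card R)) * Real.exp (-(ε * Fintype.card R)) := by
    rw [← Real.exp_add, ← Real.exp_add]
    exact Real.exp_le_exp.2 (by nlinarith)
  have h6 := mul_lt_mul_of_pos_right hb (Real.exp_pos (-(e1 * Fintype.card R)))
  have h7 := mul_le_mul_of_nonneg_left h3
    (show (0 : ℝ) ≤ 4 * (Fintype.card R + 1) ^ 2 by positivity)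
  nlinarith

end Pool.Agent.Lib.QX
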