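import Pool.Agent.Lib.QX.Kit

/-! The cross intersection bound, by induction on the number of coordinates. -/

namespace Pool.Agent.Lib.QX

open Finset
open scoped BigOperators

namespace RFRI

/-- size of the intersection -/
def ic {ι : Type} [Fintype ι] (x y : ι → Bool) : ℕ := #{i | x i = true ∧ y i = true}

theorem ic_cons {n : ℕ} (a b : Bool) (x y : Fin n → Bool) :
    ic (Fin.cons a x : Fin (n + 1) → Bool) (Fin.cons b y) =
      (if a = true ∧ b = true then 1 else 0) + ic x y := by
  unfold ic
  rw [Finset.card_filter, Finset.card_filter, Fin.sum_univ_succ]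
  simp only [Fin.cons_zero, Fin.cons_succ]

theorem dens_cons {n : ℕ} (F : (Fin (n + 1) → Bool) → Prop) :
    dens (fun x : Fin n → Bool => F (Fin.cons false x)) +
      dens (fun x : Fin n → Bool => F (Fin.cons true x)) = 2 * dens F := by
  have h := ex_equiv (Fin.consEquiv fun _ : Fin (n + 1) => Bool) fun x => ind (F x)
  rw [ex_prod, Fintype.expect_eq_sum_div_card, Fintype.sum_bool, Fintype.card_bool] at h
  unfold dens
  rw [← h]
  simp only [Fin.consEquiv, Equiv.coe_fn_mk]
  push_cast
  ring

theorem dens_or_and {X : Type} [Fintype X] (A B : X → Prop) :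
    dens (fun x => A x ∨ B x) + dens (fun x => A x ∧ B x) = dens A + dens B := by
  unfold dens
  rw [← ex_add, ← ex_add]
  refine Finset.expect_congr rfl fun x _ => ?_
  by_cases h1 : A x <;> by_cases h2 : B x
  · rw [ind_pos (Or.inl h1), ind_pos (And.intro h1 h2), ind_pos h1, ind_pos h2]
  · rw [ind_pos (Or.inl h1), ind_neg (fun h => h2 h.2), ind_pos h1, ind_neg h2]
  · rw [ind_pos (Or.inr h2), ind_neg (fun h => h1 h.1), ind_neg h1, ind_pos h2, add_comm]
  · rw [ind_neg (not_or.2 ⟨h1, h2⟩), ind_neg (fun h => h1 h.1), ind_neg h1, ind_neg h2]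

theorem one_step {f g f0 f1 g0 g1 u i v : ℝ} (hf : 0 < f) (hg : 0 < g) (p0 : 0 ≤ f0) (p1 : 0 ≤ f1)
    (q0 : 0 ≤ g0) (ef : f0 + f1 = 2 * f) (eg : g0 + g1 = 2 * g) (eu : u + i = 2 * g)
    (u0 : g0 ≤ u) (u1 : g1 ≤ u) (v1 : f1 ≤ v) (h1 : f1 * g1 ≤ 101 / 100 * (f * g))
    (h2 : f0 * u ≤ 101 / 100 * (f * g)) (h3 : v * g0 ≤ 101 / 100 * (f * g)) :
    9895 / 10000 * (f * g) ≤ f1 * i := by
  have a1 : f0 ≤ 101 / 100 * f := by
    refine le_of_mul_le_mul_right ?_ hg
    have : f0 * g ≤ f0 * u := mul_le_mul_of_nonneg_left (by linarith) p0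
    linarith
  have a2 : f1 ≤ 101 / 100 * f := by
    refine le_of_mul_le_mul_right ?_ hg
    have h4 : f1 * g0 ≤ v * g0 := mul_le_mul_of_nonneg_right v1 q0
    have h5 : f1 * g0 + f1 * g1 = 2 * (f1 * g) := by rw [← mul_add, eg]; ring
    linarith
  have a3 : 0 < f0 := by linarith
  refine le_of_mul_le_mul_right ?_ a3
  have a4 : 9895 / 10000 * (f * f0) ≤ f1 * (2 * f0 - 101 / 100 * f) := by
    obtain rfl : f0 = 2 * f - f1 := by linarith
    nlinarith [mul_nonneg (sub_nonneg.2 a1) (sub_nonneg.2 a2), mul_nonneg hf.le (sub_nonneg.2 a2),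
      mul_pos hf hf]
  have a5 := mul_le_mul_of_nonneg_left a4 hg.le
  have a6 := mul_le_mul_of_nonneg_left h2 p1
  obtain rfl : i = 2 * g - u := by linarith
  nlinarith

/-- the bound of the induction -/
noncomputable def Bd (n a b : ℕ) : ℝ :=
  Real.exp ((3 / 400) ^ 2 * n - 2 * (3 / 400) * b + 107 / 10000 * a) +
    Real.exp (99 / 10000 * (a + b - n) + 107 / 10000 * a)

theorem up {x y : ℝ} (h : x ≤ y + 99 / 10000) : Real.exp x ≤ 101 / 100 * Real.exp y := by
  have h1 : Real.exp (99 / 10000) ≤ 101 / 100 :=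
    (Real.exp_bound_div_one_sub_of_interval (by norm_num) (by norm_num)).trans (by norm_num)
  refine (Real.exp_le_exp.2 h).trans ?_
  rw [Real.exp_add, mul_comm]
  exact mul_le_mul_of_nonneg_right h1 (Real.exp_pos _).le

theorem down {x y : ℝ} (h : x + 107 / 10000 ≤ y) : Real.exp x ≤ 9895 / 10000 * Real.exp y := by
  have h1 := Real.add_one_le_exp (107 / 10000)
  have h2 := Real.exp_le_exp.2 h
  rw [Real.exp_add] at h2
  nlinarith [Real.exp_pos x]

theorem bd1 (n a b : ℕ) : Bd n a b ≤ 101 / 100 * Bd (n + 1) (a + 1) (b + 1) := by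
  unfold Bd
  rw [mul_add]
  push_cast
  exact add_le_add (up (by linarith)) (up (by linarith))

theorem bd2 (n a b : ℕ) : Bd n a b ≤ 101 / 100 * Bd (n + 1) a b := by
  unfold Bd
  rw [mul_add]
  push_cast
  exact add_le_add (up (by linarith)) (up (by linarith))

theorem bd3 (n a b : ℕ) : Bd n a b ≤ 9895 / 10000 * Bd (n + 1) (a + 1) b := by
  unfold Bd
  rw [mul_add]
  push_cast
  exact add_le_add (down (by linarith)) (down (by linarith))

theorem zero (hT : TP2) (n b : ℕ) (F G : (Fin n → Bool) → Prop)
    (h : ∀ x y, F x → G y → b < ic x y) : dens F * dens G ≤ Bd n 0 b := by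
  have h1 := hT Bool (Fin n) F (fun y => G fun i => !y i) b (3 / 400) (by norm_num) (by
    intro x y hx hy
    have h2 : ic x (fun i => !y i) ≤ hammingDist x y := by
      refine Finset.card_le_card fun i hi => ?_
      simp only [Finset.mem_filter, Finset.mem_univ, true_and] at hi ⊢
      intro h3
      rw [← h3, hi.1] at hi
      exact absurd hi.2 (by decide)
    exact_mod_cast ((h x _ hx hy).le.trans h2))
  have h2 : dens (fun y : Fin n → Bool => G fun i => !y i) = dens G :=
    ex_equiv (Function.Involutive.toPerm (fun (y : Fin n → Bool) i => !y i)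
      fun y => by funext i; simp) fun y => ind (G y)
  rw [h2, Fintype.card_fin] at h1
  refine h1.trans ?_
  unfold Bd
  rw [Nat.cast_zero, mul_zero, add_zero]
  exact le_add_of_nonneg_right (Real.exp_pos _).le

theorem main (hT : TP2) (n : ℕ) : ∀ (a b : ℕ) (F G : (Fin n → Bool) → Prop), a ≤ b →
    (∀ x y, F x → G y → ic x y < a ∨ b < ic x y) → dens F * dens G ≤ Bd n a b := by
  induction n with
  | zero =>
    intro a b F G _ _
    have h1 : dens F * dens G ≤ 1 :=
      mul_le_one₀ (dens_le_one F) (dens_nonneg G) (dens_le_one G)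
    refine h1.trans ?_
    unfold Bd
    refine le_add_of_nonneg_of_le (Real.exp_pos _).le (Real.one_le_exp ?_)
    rw [Nat.cast_zero, sub_zero]
    positivity
  | succ n ih =>
    intro a b F G hab h
    rcases a with _ | a
    · exact zero hT _ b F G fun x y hx hy => (h x y hx hy).resolve_left (Nat.not_lt_zero _)
    obtain ⟨b, rfl⟩ : ∃ b', b = b' + 1 := ⟨b - 1, by omega⟩
    have hB : 0 ≤ Bd (n + 1) (a + 1) (b + 1) := by unfold Bd; positivity
    rcases (dens_nonneg F).eq_or_lt with hf | hf
    · rw [← hf, zero_mul]; exact hB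
    rcases (dens_nonneg G).eq_or_lt with hg | hg
    · rw [← hg, mul_zero]; exact hB
    have k1 := (ih a b (fun x => F (Fin.cons true x)) (fun y => G (Fin.cons true y)) (by omega)
      fun x y hx hy => by
        have := h _ _ hx hy
        rw [ic_cons, if_pos ⟨rfl, rfl⟩] at this
        omega).trans (bd1 n a b)
    have k2 := (ih (a + 1) (b + 1) (fun x => F (Fin.cons false x))
      (fun y => G (Fin.cons false y) ∨ G (Fin.cons true y)) hab fun x y hx hy => by
        rcases hy with hy | hy <;>
        · have := h _ _ hx hy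
          rw [ic_cons, if_neg (by decide), zero_add] at this
          exact this).trans (bd2 n _ _)
    have k3 := (ih (a + 1) (b + 1) (fun x => F (Fin.cons false x) ∨ F (Fin.cons true x))
      (fun y => G (Fin.cons false y)) hab fun x y hx hy => by
        rcases hx with hx | hx <;>
        · have := h _ _ hx hy
          rw [ic_cons, if_neg (by decide), zero_add] at this
          exact this).trans (bd2 n _ _)
    have k4 := (ih a (b + 1) (fun x => F (Fin.cons true x))
      (fun y => G (Fin.cons false y) ∧ G (Fin.cons true y)) (by omega) fun x y hx hy => by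
        have h1 := h _ _ hx hy.1
        have h2 := h _ _ hx hy.2
        rw [ic_cons, if_neg (by decide), zero_add] at h1
        rw [ic_cons, if_pos ⟨rfl, rfl⟩] at h2
        omega).trans (bd3 n a (b + 1))
    by_contra hc
    push Not at hc
    have k5 := one_step hf hg (dens_nonneg _) (dens_nonneg _) (dens_nonneg _) (dens_cons F)
      (dens_cons G) ((dens_or_and _ _).trans (dens_cons G)) (dens_mono fun _ => Or.inl)
      (dens_mono fun _ => Or.inr) (dens_mono fun _ => Or.inr) (k1.trans (by linarith))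
      (k2.trans (by linarith)) (k3.trans (by linarith))
    linarith

end RFRI

theorem st_FRI (hT : TP2) : FRI := by
  refine ⟨1 / 2000, by norm_num, fun ι _ _ F G l h1 h2 h => ?_⟩
  let e := Fintype.equivFin ι
  have hd (A : (ι → Bool) → Prop) : dens (fun x : Fin (Fintype.card ι) → Bool => A fun i => x (e i))
      = dens A := ex_equiv (Equiv.arrowCongr e.symm (Equiv.refl Bool)) fun x => ind (A x)
  have h3 := RFRI.main hT _ l l (fun x => F fun i => x (e i)) (fun x => G fun i => x (e i)) le_rfl
    fun x y hx hy => by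
      have h4 := h _ _ hx hy
      have h5 : #{i | x (e i) = true ∧ y (e i) = true} = RFRI.ic x y :=
        Finset.card_equiv e fun i => by simp
      rw [h5] at h4
      omega
  rw [hd, hd] at h3
  refine h3.trans ?_
  have h4 : (Fintype.card ι : ℝ) ≤ 5 * l := by exact_mod_cast h1
  have h5 : 10 * (l : ℝ) ≤ 3 * Fintype.card ι := by exact_mod_cast h2
  have h6 : (0 : ℝ) ≤ l := Nat.cast_nonneg l
  unfold RFRI.Bd
  rw [two_mul (Real.exp _)]
  exact add_le_add (Real.exp_le_exp.2 (by linarith)) (Real.exp_le_exp.2 (by linarith))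

end Pool.Agent.Lib.QX
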