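import Pool.Agent.Lib.QX.Kit

/-! The level weight and the number of small sets. -/

namespace Pool.Agent.Lib.QX

open Finset
open scoped BigOperators

namespace RLAM

/-- Boolean functions as finite sets -/
def eqv (β : Type) [Fintype β] [DecidableEq β] : (β → Bool) ≃ Finset β where
  toFun u := {B | u B = true}
  invFun K B := decide (B ∈ K)
  left_inv u := by
    funext B
    simp
  right_inv K := by
    ext B
    simp

theorem mu_eq {β : Type} [Fintype β] (p : ℝ) (u : β → Bool) :
    mu p u = p ^ cnt u * (1 - p) ^ (Fintype.card β - cnt u) := by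
  classical
  unfold mu cnt
  rw [Finset.prod_ite, Finset.prod_const, Finset.prod_const]
  congr 2
  have := Finset.card_filter_add_card_filter_not (s := (univ : Finset β)) fun B => u B = true
  rw [Finset.card_univ] at this
  omega

end RLAM

open RLAM

theorem st_LAM : LAM := by
  intro β _ _
  constructor
  · have h1 : ∑ u : β → Bool, lam u =
        ∑ K ∈ (univ : Finset β).powerset, 1 / ((Fintype.card β).choose #K : ℝ) := by
      rw [Finset.powerset_univ]
      exact Fintype.sum_equiv (eqv β) _ _ fun u => rfl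
    rw [h1, Finset.sum_powerset_apply_card fun m => 1 / ((Fintype.card β).choose m : ℝ),
      Finset.card_univ]
    refine le_of_eq ?_
    rw [Finset.sum_congr rfl (g := fun _ => (1 : ℝ)) fun m hm => ?_]
    · simp
    · have : ((Fintype.card β).choose m : ℝ) ≠ 0 := by
        exact_mod_cast (Nat.choose_pos (Nat.lt_succ_iff.1 (Finset.mem_range.1 hm))).ne'
      rw [nsmul_eq_mul, mul_one_div_cancel this]
  · intro p h0 h1 u
    have hk : cnt u ≤ Fintype.card β := Finset.card_le_univ _
    have hc : (0 : ℝ) < (Fintype.card β).choose (cnt u) := by exact_mod_cast Nat.choose_pos hk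
    have hq : 0 ≤ 1 - p := by linarith
    unfold lam
    rw [mu_eq, le_div_iff₀ hc]
    have h2 := add_pow p (1 - p) (Fintype.card β)
    rw [add_sub_cancel, one_pow] at h2
    refine le_trans ?_ h2.ge
    exact Finset.single_le_sum
      (f := fun m => p ^ m * (1 - p) ^ (Fintype.card β - m) * ((Fintype.card β).choose m : ℝ))
      (fun m _ => by positivity) (Finset.mem_range.2 (Nat.lt_succ_iff.2 hk))

theorem st_CNT : CNT := by
  intro h hh
  refine ⟨h ^ 2 / 4, by positivity, fun β _ _ r hr => ?_⟩
  set x := Real.exp (-(2 / h)) with hx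
  have hx0 : 0 < x := Real.exp_pos _
  have hx1 : x ≤ 1 := Real.exp_le_one_iff.2 (neg_nonpos.2 (by positivity))
  have hxh : x ≤ h / 2 := by
    have h1 : 2 / h ≤ Real.exp (2 / h) := by linarith [Real.add_one_le_exp (2 / h)]
    rw [hx, Real.exp_neg, ← inv_div 2 h]
    exact inv_anti₀ (by positivity) h1
  have h1 : (#{K : Finset β | #K ≤ r} : ℝ) * x ^ r ≤ (x + 1) ^ Fintype.card β := by
    have h2 := Finset.prod_add_one (f := fun _ : β => x) univ
    simp only [Finset.prod_const, Finset.card_univ, Finset.powerset_univ] at h2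
    rw [h2, ← nsmul_eq_mul]
    refine le_trans (Finset.card_nsmul_le_sum _ (fun K => x ^ #K) _ fun K hK => ?_)
      (Finset.sum_le_sum_of_subset_of_nonneg (Finset.subset_univ _) fun K _ _ => by positivity)
    exact pow_le_pow_of_le_one hx0.le hx1 (Finset.mem_filter.1 hK).2
  have h2 : (x + 1) ^ Fintype.card β ≤ Real.exp (h / 2 * Fintype.card β) := by
    rw [mul_comm, Real.exp_nat_mul]
    exact pow_le_pow_left₀ (by positivity)
      ((Real.add_one_le_exp x).trans (Real.exp_le_exp.2 hxh)) _
  have h3 : Real.exp (-(h / 2 * Fintype.card β)) ≤ x ^ r := by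
    rw [hx, ← Real.exp_nat_mul]
    refine Real.exp_le_exp.2 ?_
    have h4 : (r : ℝ) * (2 / h) ≤ h ^ 2 / 4 * Fintype.card β * (2 / h) :=
      mul_le_mul_of_nonneg_right hr (by positivity)
    have h5 : h ^ 2 / 4 * Fintype.card β * (2 / h) = h / 2 * Fintype.card β := by
      field_simp
      ring
    linarith
  have h4 := (mul_le_mul_of_nonneg_left h3 (Nat.cast_nonneg #{K : Finset β | #K ≤ r})).trans
    (h1.trans h2)
  rw [Real.exp_neg, ← div_eq_mul_inv, div_le_iff₀ (Real.exp_pos _), ← Real.exp_add] at h4
  refine h4.trans (le_of_eq ?_)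
  congr 1
  ring

end Pool.Agent.Lib.QX
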