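import Pool.Agent.Lib.QX.Kit

namespace Pool.Agent.Lib.QX

open Finset
open scoped BigOperators

namespace RPAIR

variable {s J : ℕ} {β R E : Type} [Fintype β] [DecidableEq β] [Fintype R] [DecidableEq R]
  [NormedAddCommGroup E] [InnerProductSpace ℂ E]

/-- sliced density of a hard pattern -/
noncomputable def shd (I : Inst s J β R E) (ω : β → Om) (K : Finset β) (c : β → V4)
    (W : β → Pr) (a0 : R → Bool) (D : ℤ) : ℝ :=
  𝔼 a, ind ((hammingDist a a0 : ℤ) = D) * hd (I.phi a) ω K c W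

theorem ssd_eq (I : Inst s J β R E) (ω : β → Om) (K : Finset β) (c : β → V4)
    (M : β → Fin 4 → Pr) (a0 : R → Bool) (D : ℤ) :
    I.ssd ω K c M a0 D = 𝔼 τ : β → Fin 4, shd I ω K c (fun B => M B (τ B)) a0 D := by
  unfold Inst.ssd shd sd
  rw [ex_comm]
  refine Finset.expect_congr rfl fun a _ => ?_
  rw [ex_mul_left]

theorem term_le (I : Inst s J β R E) (ω : β → Om) (K : Finset β) (c : β → V4)
    (W : β → Pr) (a0 : R → Bool) (D : ℤ) (a : R → Bool) :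
    ind ((hammingDist a a0 : ℤ) = D) * hd (I.phi a) ω K c W ≤ 1 :=
  mul_le_one₀ (ind_le_one _) (hd_nonneg (fun _ => ind_nonneg _) _ _ _ _)
    (hd_le_one (fun _ => ind_le_one _) _ _ _ _)

theorem fam_freeze (ω : β → Om) {K K' : Finset β} (hK : K ⊆ K') (c : β → V4) (W W' : β → Pr)
    (hW : ∀ B, B ∉ K' → W' B = W B) (g0 g : β → Bool × Bool) :
    fam ω K' (fam ω K c W g0) W' g = fam ω K c W (fun B => if B ∈ K' then g0 B else g B) := by
  funext B
  unfold fam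
  by_cases h' : B ∈ K'
  · simp [h']
  · have h : B ∉ K := fun h => h' (hK h)
    simp [h', h, hW B h']

/-- freezing more blocks at the best values -/
theorem freeze (I : Inst s J β R E) (ω : β → Om) {K K' : Finset β} (hK : K ⊆ K') (c : β → V4)
    (W W' : β → Pr) (hW : ∀ B, B ∉ K' → W' B = W B) (a0 : R → Bool) (D : ℤ) :
    ∃ c' : β → V4, shd I ω K c W a0 D ≤ shd I ω K' c' W' a0 D ∧
      ∀ a, I.spanF ω K' c' W' a ≤ I.spanF ω K c W a := by
  obtain ⟨g0, hg0⟩ := exists_ge_ex (fun g0 : β → Bool × Bool =>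
    shd I ω K' (fam ω K c W g0) W' a0 D)
  refine ⟨fam ω K c W g0, le_trans (le_of_eq ?_) hg0, fun a => ?_⟩
  · unfold shd
    rw [ex_comm]
    refine Finset.expect_congr rfl fun a _ => ?_
    rw [ex_mul_left]
    congr 1
    unfold hd
    simp only [fam_freeze ω hK c W W' hW]
    exact (ex_splice K' (fun g => I.phi a (fam ω K c W g))).symm
  · unfold Inst.spanF
    apply Submodule.span_mono
    rintro _ ⟨g, h1, rfl⟩
    rw [fam_freeze ω hK c W W' hW] at h1 ⊢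
    exact ⟨_, h1, rfl⟩

theorem fat (I : Inst s J β R E) (ω : β → Om) (K : Finset β) (c : β → V4)
    (W : β → Pr) (a0 : R → Bool) (D : ℤ) {x : ℝ} (hx : 0 < x)
    (h : x / 2 ≤ shd I ω K c W a0 D) :
    x / 4 ≤ dens (fun a => (hammingDist a a0 : ℤ) = D ∧ x / 4 ≤ hd (I.phi a) ω K c W) := by
  have h1 := dens_ge_of_ex (a := x / 4) (by linarith) (term_le I ω K c W a0 D)
  refine le_trans (by unfold shd at h; linarith) (h1.trans (dens_mono fun a ha => ?_))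
  by_cases hD : (hammingDist a a0 : ℤ) = D
  · rw [ind_pos hD, one_mul] at ha
    exact ⟨hD, ha⟩
  · rw [ind_neg hD, zero_mul] at ha
    linarith

theorem far_lt (hN : NEAR) (G : (β → Fin 4) → Prop) (r : ℕ) (x : ℝ) (hG : x / 2 ≤ dens G)
    (h : 12 * Real.exp (-((r : ℝ) ^ 2 / Fintype.card β)) < x) :
    dens (fun τ => ¬ ∃ y, G y ∧ hammingDist τ y ≤ r) < 1 / 6 := by
  have h1 := hN (Fin 4) β G r
  have h3 := Real.exp_pos (-((r : ℝ) ^ 2 / Fintype.card β))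
  by_contra hc
  have hc' := not_lt.1 hc
  nlinarith

end RPAIR

open RPAIR

theorem st_PAIR (hN : NEAR) (hO : ORT) (hF : FL) : PAIR := by
  intro s J φ ε εF N0 m0 hφ hε hLB hFR β R E _ _ _ _ _ _ _ I x θ r r2 C hr2 hm hxF hoff hb hN0
    hoff2 hxε t t' M1 M2 Typ L d1 d2 d12 g1 g2 hT hL
  have hx : 0 < x := lt_of_le_of_lt (by positivity) hr2
  set f1 : (β → Fin 4) → ℝ := fun τ =>
    shd I C.ω C.K (C.c 2) (fun B => M1 B (τ B)) C.a0 (C.D 2) with hf1
  set f2 : (β → Fin 4) → ℝ := fun τ =>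
    shd I C.ω C.K (C.c 3) (fun B => M2 B (τ B)) C.a0 (C.D 3) with hf2
  rw [ssd_eq] at g1 g2
  have t1 : x / 2 ≤ dens (fun τ => x / 2 ≤ f1 τ) := by
    have := dens_ge_of_ex (f := f1) (a := x / 2) (by linarith)
      (fun τ => ex_le fun a => term_le _ _ _ _ _ _ _ a)
    linarith
  have t2 : x / 2 ≤ dens (fun τ => x / 2 ≤ f2 τ) := by
    have := dens_ge_of_ex (f := f2) (a := x / 2) (by linarith)
      (fun τ => ex_le fun a => term_le _ _ _ _ _ _ _ a)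
    linarith
  have n1 := far_lt hN _ r2 x t1 hr2
  have n2 := far_lt hN _ r2 x t2 hr2
  obtain ⟨τ, hτ, hτ'⟩ := exists_of_dens_lt (A := Typ)
    (B := fun τ => (¬ ∃ y, x / 2 ≤ f1 y ∧ hammingDist τ y ≤ r2) ∨
      (¬ ∃ y, x / 2 ≤ f2 y ∧ hammingDist τ y ≤ r2))
    (lt_of_le_of_lt (dens_or_le _ _) (by linarith))
  simp only [not_or, not_not] at hτ'
  obtain ⟨⟨τ1, a1, b1⟩, ⟨τ2, a2, b2⟩⟩ := hτ'
  set K' : Finset β := C.K ∪ univ.filter (fun B => τ B ≠ τ1 B) ∪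
    univ.filter (fun B => τ B ≠ τ2 B) with hK'
  have hKK : C.K ⊆ K' := fun B hB => by simp [hK', hB]
  have hKc : #K' ≤ r + 2 * r2 := by
    unfold hammingDist at b1 b2
    have a1 := Finset.card_union_le (C.K ∪ univ.filter (fun B => τ B ≠ τ1 B))
      (univ.filter (fun B => τ B ≠ τ2 B))
    have a2 := Finset.card_union_le C.K (univ.filter (fun B => τ B ≠ τ1 B))
    have := C.hK
    rw [hK']
    omega
  have hKr : (#K' : ℝ) ≤ r + 2 * r2 := by exact_mod_cast hKc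
  have k1 : ∀ B, B ∉ K' → M1 B (τ B) = M1 B (τ1 B) := by
    intro B hB
    have : τ B = τ1 B := by by_contra h; exact hB (by simp [hK', h])
    rw [this]
  have k2 : ∀ B, B ∉ K' → M2 B (τ B) = M2 B (τ2 B) := by
    intro B hB
    have : τ B = τ2 B := by by_contra h; exact hB (by simp [hK', h])
    rw [this]
  obtain ⟨c1, p1, q1⟩ := freeze I C.ω hKK (C.c 2) (fun B => M1 B (τ1 B)) (fun B => M1 B (τ B)) k1
    C.a0 (C.D 2)
  obtain ⟨c2, p2, q2⟩ := freeze I C.ω hKK (C.c 3) (fun B => M2 B (τ2 B)) (fun B => M2 B (τ B)) k2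
    C.a0 (C.D 3)
  have s1 := fat I C.ω K' c1 _ C.a0 (C.D 2) hx (le_trans a1 p1)
  have s2 := fat I C.ω K' c2 _ C.a0 (C.D 3) hx (le_trans a2 p2)
  obtain ⟨⟨D, hD⟩, hO2⟩ := hO s J β R E I C.ω K' c1 c2
  obtain ⟨o1, o2⟩ := hO2 D hD
  have o3 := o2 (fun B => M1 B (τ B)) (fun B => M2 B (τ B)) (fun B _ => d12 B (τ B))
  have h2J : (0 : ℝ) ≤ 2 ^ J := by positivity
  obtain ⟨a, a', ⟨ha1, ha2⟩, ⟨ha1', ha2'⟩, hd⟩ := hFR R _ _ D hm (hxF.trans s1) (hxF.trans s2)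
    (by nlinarith) (by
      intro a a' ha ha'
      obtain ⟨g, hg⟩ := exists_pos_of_ex_pos (lt_of_lt_of_le (by linarith) ha.2)
      obtain ⟨g', hg'⟩ := exists_pos_of_ex_pos (lt_of_lt_of_le (by linarith) ha'.2)
      exact (o3 a a').1 g g' (of_ind_pos hg) (of_ind_pos hg'))
  have hK2 : 2 * #K' ≤ Fintype.card β := by omega
  have hoffK : I.off + 2 ^ J * (4 * #K' + Fintype.card R) ≤ ε * Fintype.card β / 2 := by
    nlinarith
  have r1 := hF s J φ ε N0 hφ hε hLB β R E I C.ω K' c1 (fun B => M1 B (τ B)) a hK2 hN0 hoffK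
    (hxε.trans ha2)
  have r2' := hF s J φ ε N0 hφ hε hLB β R E I C.ω K' c2 (fun B => M2 B (τ B)) a' hK2 hN0 hoffK
    (hxε.trans ha2')
  refine ⟨I.spanF C.ω K' c1 (fun B => M1 B (τ B)) a, I.spanF C.ω K' c2 (fun B => M2 B (τ B)) a',
    ?_, ?_, (o3 a a').2 hd, ?_⟩
  · exact Submodule.IsOrtho.mono_left (q1 a)
      ((((hO s J β R E I C.ω C.K (C.c 2) (C.c 0)).2 _ (C.hD 2)).2 _ (pat0 t)
        (fun B _ => d1 B (τ1 B)) a C.a0).2 ha1)
  · exact Submodule.IsOrtho.mono_left (q2 a')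
      ((((hO s J β R E I C.ω C.K (C.c 3) (C.c 0)).2 _ (C.hD 3)).2 _ (pat0 t')
        (fun B _ => d2 B (τ2 B)) a' C.a0).2 ha1')
  · have hL' := hL τ hτ
    rw [Finset.sum_add_distrib] at hL'
    have : φ * (L - 4 * (r + 2 * r2)) ≤ φ * ((∑ B, (nl (M1 B (τ B)) : ℝ) - 2 * #K') +
        (∑ B, (nl (M2 B (τ B)) : ℝ) - 2 * #K')) :=
      mul_le_mul_of_nonneg_left (by linarith) hφ
    linarith

end Pool.Agent.Lib.QX
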