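import Pool.Agent.Lib.QX.Kit

namespace Pool.Agent.Lib.QX

open Finset
open scoped BigOperators

namespace RPL

/-- sign flip and swap on one block -/
def act1 (k j : Fin 4) (g : Bool × Bool) (ω : Om) : Om :=
  (fun r => xor (ω.1 r) g.1, if g.1 = g.2 then ω.2 else ω.2 * Equiv.swap k j)

theorem act1_act1 (k j : Fin 4) (g : Bool × Bool) (ω : Om) : act1 k j g (act1 k j g ω) = ω := by
  unfold act1
  refine Prod.ext ?_ ?_
  · funext r
    simp
  · by_cases h : g.1 = g.2
    · simp [h]
    · simp [h, mul_assoc]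

theorem ln_act1 (k j : Fin 4) (g : Bool × Bool) (ω : Om) :
    ln (act1 k j g ω) k = opt ω (k, j) g := by
  funext r
  unfold opt ln act1
  by_cases h : g.1 = g.2
  · simp only [h, if_true]
    cases ω.1 r <;> cases g.2 <;> cases row (ω.2 k) r <;> rfl
  · simp only [h, if_false, Equiv.Perm.mul_apply, Equiv.swap_apply_left]
    cases ω.1 r <;> cases g.1 <;> cases row (ω.2 j) r <;> rfl

theorem opt_act1 (k j : Fin 4) (g g' : Bool × Bool) (ω : Om) :
    opt (act1 k j g ω) (k, j) g' = opt ω (k, j) (xor g.1 g'.1, xor g.2 g'.2) := by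
  funext r
  obtain ⟨a, b⟩ := g
  obtain ⟨a', b'⟩ := g'
  unfold opt ln act1
  cases a <;> cases b <;> cases a' <;> cases b' <;>
    simp [Equiv.Perm.mul_apply, Equiv.swap_apply_left, Equiv.swap_apply_right]

variable {β : Type} [Fintype β] [DecidableEq β]

/-- the action on frames -/
def act (k : Fin 4) (K : Finset β) (j : β → Fin 4) (g : β → Bool × Bool) :
    (β → Om) ≃ (β → Om) where
  toFun ω := fun B => if B ∈ K then ω B else act1 k (j B) (g B) (ω B)
  invFun ω := fun B => if B ∈ K then ω B else act1 k (j B) (g B) (ω B)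
  left_inv ω := by
    funext B
    by_cases h : B ∈ K <;> simp [h, act1_act1]
  right_inv ω := by
    funext B
    by_cases h : B ∈ K <;> simp [h, act1_act1]

/-- translation of the cell coordinates -/
def tr (g : β → Bool × Bool) : (β → Bool × Bool) ≃ (β → Bool × Bool) where
  toFun g' := fun B => (xor (g B).1 (g' B).1, xor (g B).2 (g' B).2)
  invFun g' := fun B => (xor (g B).1 (g' B).1, xor (g B).2 (g' B).2)
  left_inv g' := by
    funext B
    simp
  right_inv g' := by
    funext B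
    simp

theorem pl_act (k : Fin 4) (K : Finset β) (j : β → Fin 4) (g : β → Bool × Bool) (ω : β → Om) :
    pl (act k K j g ω) k = fam ω K (pl ω k) (fun B => (k, j B)) g := by
  funext B
  unfold pl fam act
  by_cases h : B ∈ K
  · simp [h]
  · simp [h, ln_act1]

theorem hd_act (Φ : (β → V4) → ℝ) (k : Fin 4) (K : Finset β) (j : β → Fin 4)
    (g : β → Bool × Bool) (ω : β → Om) :
    hd Φ (act k K j g ω) K (pl (act k K j g ω) k) (fun B => (k, j B)) =
      hd Φ ω K (pl ω k) (fun B => (k, j B)) := by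
  unfold hd
  rw [← ex_equiv (tr g) (fun g' => Φ (fam ω K (pl ω k) (fun B => (k, j B)) g'))]
  refine Finset.expect_congr rfl fun g' _ => ?_
  congr 1
  funext B
  unfold fam pl act tr
  by_cases h : B ∈ K
  · simp [h]
  · simp [h, opt_act1]

/-- the planted point is uniform -/
theorem ex_pl (Φ : (β → V4) → ℝ) (k : Fin 4) : 𝔼 ω : β → Om, Φ (pl ω k) = 𝔼 y, Φ y := by
  let e : (β → Om) ≃ ((β → V4) × (β → Equiv.Perm (Fin 4))) :=
    { toFun := fun ω => (pl ω k, fun B => (ω B).2)
      invFun := fun p => fun B => (fun r => xor (p.1 B r) (row (p.2 B k) r), p.2 B)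
      left_inv := fun ω => by
        funext B
        refine Prod.ext ?_ rfl
        funext r
        simp [pl, ln]
      right_inv := fun p => by
        refine Prod.ext ?_ rfl
        funext B r
        simp [pl, ln] }
  have h := ex_equiv e (fun p => Φ p.1)
  rw [ex_prod] at h
  simp only [ex_const] at h
  exact h

end RPL

open RPL

theorem st_PL : PL := by
  intro β _ _ Φ k K j th h0 hth
  set f : (β → Om) → ℝ := fun ω =>
    Φ (pl ω k) * ind (hd Φ ω K (pl ω k) (fun B => (k, j B)) < th) with hf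
  have h1 : ∀ g : β → Bool × Bool, 𝔼 ω, f ω = 𝔼 ω, Φ (fam ω K (pl ω k) (fun B => (k, j B)) g) *
      ind (hd Φ ω K (pl ω k) (fun B => (k, j B)) < th) := by
    intro g
    rw [← ex_equiv (act k K j g) f]
    refine Finset.expect_congr rfl fun ω _ => ?_
    simp only [hf]
    rw [hd_act, pl_act]
  have h2 : 𝔼 ω, f ω = 𝔼 g : β → Bool × Bool, 𝔼 ω,
      Φ (fam ω K (pl ω k) (fun B => (k, j B)) g) *
        ind (hd Φ ω K (pl ω k) (fun B => (k, j B)) < th) := by
    simp only [← h1, ex_const]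
  rw [h2, ex_comm]
  refine ex_le fun ω => ?_
  rw [ex_mul_right]
  change hd Φ ω K (pl ω k) (fun B => (k, j B)) * _ ≤ th
  by_cases h : hd Φ ω K (pl ω k) (fun B => (k, j B)) < th
  · rw [ind_pos h]; linarith
  · rw [ind_neg h]; linarith

theorem ind_sd_le {β : Type} [Fintype β] [DecidableEq β] {Φ : (β → V4) → ℝ} (h0 : ∀ y, 0 ≤ Φ y)
    (ω : β → Om) (K : Finset β) (c : β → V4) (M : β → Fin 4 → Pr) (th : ℝ) :
    ind (sd Φ ω K c M < th) ≤
      2 * 𝔼 τ : β → Fin 4, ind (hd Φ ω K c (fun B => M B (τ B)) < 2 * th) := by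
  by_cases h : sd Φ ω K c M < th
  · rw [ind_pos h]
    have hth : 0 < th := lt_of_le_of_lt (sd_nonneg h0 _ _ _ _) h
    have hm := dens_markov (a := 2 * th)
      (f := fun τ : β → Fin 4 => hd Φ ω K c (fun B => M B (τ B)))
      (fun τ => hd_nonneg h0 _ _ _ _)
    have hn := dens_not (fun τ : β → Fin 4 => 2 * th ≤ hd Φ ω K c (fun B => M B (τ B)))
    simp only [not_le] at hn
    change 1 ≤ 2 * dens (fun τ : β → Fin 4 => hd Φ ω K c (fun B => M B (τ B)) < 2 * th)
    rw [hn]
    change _ ≤ sd Φ ω K c M at hm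
    nlinarith
  · rw [ind_neg h]
    exact mul_nonneg (by norm_num) (ex_nonneg fun _ => ind_nonneg _)

theorem st_PLR (hL : LAM) : PLR := by
  intro β _ _ Φ n th th1 r h0 hth hth1
  refine ⟨ex_pl Φ _, ?_⟩
  have h1 : ∀ (K : Finset β) (u : β → Bool), 𝔼 ω : β → Om, Φ (pl ω (role n)) *
      ind (sd Φ ω K (pl ω (role n)) (menu n u) < th) ≤ 4 * th := by
    intro K u
    have : 𝔼 ω : β → Om, Φ (pl ω (role n)) * ind (sd Φ ω K (pl ω (role n)) (menu n u) < th) ≤
        𝔼 ω : β → Om, 2 * 𝔼 τ : β → Fin 4, Φ (pl ω (role n)) *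
          ind (hd Φ ω K (pl ω (role n)) (fun B => (role n, snd2 n (u B) (τ B))) < 2 * th) := by
      refine ex_mono fun ω => ?_
      rw [ex_mul_left, mul_left_comm]
      exact mul_le_mul_of_nonneg_left (ind_sd_le h0 ω K _ (menu n u) th) (h0 _)
    refine this.trans ?_
    rw [ex_mul_left, ex_comm]
    have := ex_le (a := 2 * th) fun τ : β → Fin 4 =>
      st_PL β Φ (role n) K (fun B => snd2 n (u B) (τ B)) (2 * th) h0 (by linarith)
    linarith
  have h2 : ∀ ω : β → Om, ind (¬ Rob Φ n ω th th1 r) ≤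
      (∑ K : Finset β with #K ≤ r, ∑ u : β → Bool,
        lam u * ind (sd Φ ω K (pl ω (role n)) (menu n u) < th)) / th1 := by
    intro ω
    have hnn : ∀ K : Finset β, 0 ≤ ∑ u : β → Bool,
        lam u * ind (sd Φ ω K (pl ω (role n)) (menu n u) < th) := fun K =>
      Finset.sum_nonneg fun u _ => mul_nonneg (lam_nonneg u) (ind_nonneg _)
    by_cases h : Rob Φ n ω th th1 r
    · rw [ind_neg (not_not.2 h)]
      exact div_nonneg (Finset.sum_nonneg fun K _ => hnn K) hth1.le
    · rw [ind_pos h, le_div_iff₀ hth1, one_mul]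
      unfold Rob at h
      push Not at h
      obtain ⟨K, hK, hlt⟩ := h
      refine hlt.le.trans ?_
      exact Finset.single_le_sum (f := fun K : Finset β => ∑ u : β → Bool,
        lam u * ind (sd Φ ω K (pl ω (role n)) (menu n u) < th)) (fun K _ => hnn K)
        (by simp [hK])
  have h3 : 𝔼 ω : β → Om, Φ (pl ω (role n)) * ind (¬ Rob Φ n ω th th1 r) ≤
      𝔼 ω : β → Om, (∑ K : Finset β with #K ≤ r, ∑ u : β → Bool, lam u *
        (Φ (pl ω (role n)) * ind (sd Φ ω K (pl ω (role n)) (menu n u) < th))) * th1⁻¹ := by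
    refine ex_mono fun ω => ?_
    refine (mul_le_mul_of_nonneg_left (h2 ω) (h0 _)).trans (le_of_eq ?_)
    rw [div_eq_mul_inv, ← mul_assoc, Finset.mul_sum]
    congr 1
    refine Finset.sum_congr rfl fun K _ => ?_
    rw [Finset.mul_sum]
    refine Finset.sum_congr rfl fun u _ => ?_
    ring
  refine h3.trans ?_
  rw [ex_mul_right, ex_sum, div_eq_mul_inv]
  refine mul_le_mul_of_nonneg_right ?_ (inv_nonneg.2 hth1.le)
  have h4 : ∀ K ∈ ({K : Finset β | #K ≤ r} : Finset (Finset β)), 𝔼 ω : β → Om, ∑ u : β → Bool,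
      lam u * (Φ (pl ω (role n)) * ind (sd Φ ω K (pl ω (role n)) (menu n u) < th)) ≤
      (Fintype.card β + 1) * (4 * th) := by
    intro K _
    rw [ex_sum]
    have : ∀ u ∈ (univ : Finset (β → Bool)), 𝔼 ω : β → Om,
        lam u * (Φ (pl ω (role n)) * ind (sd Φ ω K (pl ω (role n)) (menu n u) < th)) ≤
        lam u * (4 * th) := by
      intro u _
      rw [ex_mul_left]
      exact mul_le_mul_of_nonneg_left (h1 K u) (lam_nonneg u)
    refine (Finset.sum_le_sum this).trans ?_
    rw [← Finset.sum_mul]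
    exact mul_le_mul_of_nonneg_right (hL β).1 (by linarith)
  refine (Finset.sum_le_sum h4).trans (le_of_eq ?_)
  rw [Finset.sum_const, nsmul_eq_mul]
  ring

end Pool.Agent.Lib.QX
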