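import Pool.Agent.Lib.QX.Kit

/-! First and second order Poincare inequalities on the biased cube. -/

namespace Pool.Agent.Lib.QX

open Finset Function
open scoped BigOperators

namespace RPOIN

variable {β W : Type} [Fintype β] [DecidableEq β] [NormedAddCommGroup W] [InnerProductSpace ℝ W]
  {p : ℝ}

theorem mu_sum : ∑ t : β → Bool, mu p t = 1 := by
  have h := Finset.prod_univ_sum (fun _ : β => (univ : Finset Bool))
    fun _ b => if b = true then p else 1 - p
  rw [Fintype.piFinset_univ] at h
  simp only [mu]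
  rw [← h]
  simp

theorem two (B : β) (G : (β → Bool) → ℝ) : 2 * ∑ t, mu p t * G t =
    ∑ t : β → Bool, (∏ C ∈ univ.erase B, if t C = true then p else 1 - p) *
      (p * G (update t B true) + (1 - p) * G (update t B false)) := by
  have hi : Involutive fun t : β → Bool => update t B (!t B) := fun t => by simp
  rw [two_mul]
  nth_rewrite 2 [← Equiv.sum_comp hi.toPerm]
  rw [← sum_add_distrib]
  refine sum_congr rfl fun t _ => ?_
  have h1 : ∀ b, mu p (update t B b) = (if b = true then p else 1 - p) *
      ∏ C ∈ univ.erase B, if t C = true then p else 1 - p := fun b => by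
    rw [mu, ← mul_prod_erase univ _ (mem_univ B)]
    refine congrArg₂ _ (by simp) (prod_congr rfl fun C hC => ?_)
    simp [update_of_ne (ne_of_mem_erase hC)]
  have h2 : update t B (t B) = t := update_eq_self B t
  have h3 := h1 (t B)
  rw [Involutive.coe_toPerm, h1]
  rcases Bool.eq_false_or_eq_true (t B) with h | h <;> rw [h] at h2 h3 <;> rw [h2] at h3 <;>
    simp only [h, h2, h3, Bool.not_true, Bool.not_false] <;> simp <;> ring

theorem avg (B : β) (G : (β → Bool) → ℝ) : ∑ t, mu p t * G t =
    ∑ t, mu p t * (p * G (update t B true) + (1 - p) * G (update t B false)) := by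
  refine mul_left_cancel₀ (two_ne_zero (α := ℝ)) ?_
  rw [two B, two B]
  refine sum_congr rfl fun t _ => ?_
  simp only [update_idem]
  ring

/-- average over one coordinate -/
noncomputable def E (p : ℝ) (B : β) (F : (β → Bool) → W) (t : β → Bool) : W :=
  p • F (update t B true) + (1 - p) • F (update t B false)

/-- mean square -/
noncomputable def N (p : ℝ) (F : (β → Bool) → W) : ℝ := ∑ t, mu p t * ‖F t‖ ^ 2

/-- correlation after resampling -/
noncomputable def Q (p : ℝ) (Z : Finset β) (F : (β → Bool) → W) : ℝ :=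
  ∑ t, mu p t * ∑ s, mu p s * inner ℝ (F t) (F (mix Z t s))

omit [Fintype β] in
theorem mix_r (B : β) (Z : Finset β) (t s : β → Bool) (b : Bool) :
    mix (insert B Z) t (update s B b) = update (mix Z t s) B b := by
  funext C
  by_cases h : C = B
  · simp [mix, h]
  · simp [mix, h]

omit [Fintype β] in
theorem mix_l (B : β) (Z : Finset β) (t s : β → Bool) (b c : Bool) :
    update (mix Z (update t B b) s) B c = update (mix Z t s) B c := by
  funext C
  by_cases h : C = B
  · simp [h]
  · simp [mix, h]

omit [Fintype β] in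
theorem mix_e (t s : β → Bool) : mix ∅ t s = t := by
  funext C
  simp [mix]

omit [InnerProductSpace ℝ W] in
theorem N_nonneg (h0 : 0 ≤ p) (h1 : p ≤ 1) (F : (β → Bool) → W) : 0 ≤ N p F :=
  sum_nonneg fun t _ => mul_nonneg (mu_nonneg h0 h1 t) (sq_nonneg _)

theorem N_split (B : β) (F : (β → Bool) → W) :
    N p F = N p (E p B F) + p * (1 - p) * N p (dF F B) := by
  rw [N, avg B, N, N, mul_sum, ← sum_add_distrib]
  refine sum_congr rfl fun t _ => ?_
  simp only [E, dF, norm_add_sq_real, norm_sub_sq_real, norm_smul, mul_pow, Real.norm_eq_abs,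
    sq_abs, inner_smul_left, inner_smul_right, conj_trivial]
  ring

theorem Q_empty (F : (β → Bool) → W) : Q p ∅ F = N p F := by
  simp only [Q, N, mix_e, ← sum_mul, mu_sum, one_mul, real_inner_self_eq_norm_sq]

theorem Q_insert (B : β) (Z : Finset β) (F : (β → Bool) → W) :
    Q p (insert B Z) F = Q p Z (E p B F) := by
  have h : ∀ t, ∑ s, mu p s * inner ℝ (F t) (F (mix (insert B Z) t s)) =
      ∑ s, mu p s * inner ℝ (F t) (E p B F (mix Z t s)) := fun t => by
    rw [avg B]
    simp only [mix_r, E, inner_add_right, inner_smul_right]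
  simp only [Q, h]
  rw [avg B]
  refine sum_congr rfl fun t _ => ?_
  simp only [mul_sum, ← sum_add_distrib]
  refine sum_congr rfl fun s _ => ?_
  have h2 : ∀ b, E p B F (mix Z (update t B b) s) = E p B F (mix Z t s) := fun b => by
    simp only [E, mix_l]
  rw [h2, h2, E.eq_1 p B F t, inner_add_left, inner_smul_left, inner_smul_left]
  simp only [conj_trivial]
  ring

theorem R_eq (Z : Finset β) : ∀ G : (β → Bool) → ℝ,
    ∑ t, mu p t * ∑ s, mu p s * G (mix Z t s) = ∑ t, mu p t * G t := by
  induction Z using Finset.induction_on with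
  | empty => intro G; simp only [mix_e, ← sum_mul, mu_sum, one_mul]
  | insert B Z _ ih =>
    intro G
    rw [avg B G, ← ih fun t => p * G (update t B true) + (1 - p) * G (update t B false)]
    refine sum_congr rfl fun t _ => ?_
    rw [avg B fun s => G (mix (insert B Z) t s)]
    simp only [mix_r]

theorem dist_eq (Z : Finset β) (F : (β → Bool) → W) :
    ∑ t, ∑ s, mu p t * mu p s * ‖F t - F (mix Z t s)‖ ^ 2 = 2 * (N p F - Q p Z F) := by
  have h1 := R_eq (p := p) Z fun t => ‖F t‖ ^ 2
  have h2 := R_eq (p := p) ∅ fun t => ‖F t‖ ^ 2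
  simp only [mix_e] at h2
  rw [two_mul, N]
  nth_rewrite 1 [← h1]
  rw [← h2, Q]
  simp only [mul_sum, ← sum_add_distrib, ← sum_sub_distrib, norm_sub_sq_real]
  exact sum_congr rfl fun t _ => sum_congr rfl fun s _ => by ring

omit [Fintype β] in
theorem dF_E {B C : β} (h : C ≠ B) (F : (β → Bool) → W) : dF (E p B F) C = E p B (dF F C) := by
  funext t
  simp only [dF, E, update_comm h, smul_sub]
  abel

omit [Fintype β] in
theorem E_dF (B : β) (F : (β → Bool) → W) : E p B (dF F B) = dF F B := by
  funext t
  simp only [dF, E, update_idem]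
  rw [← add_smul]
  simp

omit [Fintype β] [InnerProductSpace ℝ W] in
theorem dF_dF {B C : β} (h : C ≠ B) (F : (β → Bool) → W) : dF (dF F B) C = dF (dF F C) B := by
  funext t
  simp only [dF, update_comm h]
  abel

theorem first (h0 : 0 ≤ p) (h1 : p ≤ 1) (Z : Finset β) : ∀ F : (β → Bool) → W,
    N p F - Q p Z F ≤ p * (1 - p) * ∑ B ∈ Z, N p (dF F B) := by
  have hq : 0 ≤ p * (1 - p) := mul_nonneg h0 (sub_nonneg.2 h1)
  induction Z using Finset.induction_on with
  | empty => intro F; simp [Q_empty]
  | insert B Z hB ih =>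
    intro F
    have h2 : ∑ C ∈ Z, N p (dF (E p B F) C) ≤ ∑ C ∈ Z, N p (dF F C) := sum_le_sum fun C hC => by
      rw [dF_E (ne_of_mem_of_not_mem hC hB), N_split B (dF F C)]
      exact le_add_of_nonneg_right (mul_nonneg hq (N_nonneg h0 h1 _))
    rw [Q_insert, sum_insert hB, N_split B F]
    linarith [ih (E p B F), mul_le_mul_of_nonneg_left h2 hq]

theorem second (h0 : 0 ≤ p) (h1 : p ≤ 1) (Z : Finset β) : ∀ F : (β → Bool) → W,
    2 * (N p F - Q p Z F) ≤ p * (1 - p) * ∑ B ∈ Z, (N p (dF F B) + Q p Z (dF F B)) := by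
  have hq : 0 ≤ p * (1 - p) := mul_nonneg h0 (sub_nonneg.2 h1)
  induction Z using Finset.induction_on with
  | empty => intro F; simp [Q_empty]
  | insert B Z hB ih =>
    intro F
    have h2 : ∑ C ∈ Z, (N p (dF F C) + Q p (insert B Z) (dF F C)) =
        ∑ C ∈ Z, (N p (dF (E p B F) C) + Q p Z (dF (E p B F) C)) +
          p * (1 - p) * ∑ C ∈ Z, N p (dF (dF F B) C) := by
      rw [mul_sum, ← sum_add_distrib]
      refine sum_congr rfl fun C hC => ?_
      have h := ne_of_mem_of_not_mem hC hB
      rw [dF_E h, dF_dF h, N_split B (dF F C), Q_insert]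
      ring
    rw [sum_insert hB, h2, Q_insert, Q_insert, E_dF, N_split B F]
    linarith [ih (E p B F), mul_le_mul_of_nonneg_left (first h0 h1 Z (dF F B)) hq]

theorem Q_univ (F : (β → Bool) → W) : Q p univ F = ‖∑ t, mu p t • F t‖ ^ 2 := by
  have h : ∀ t s : β → Bool, mix univ t s = s := fun t s => by funext C; simp [mix]
  simp only [Q, h, ← real_inner_self_eq_norm_sq, sum_inner, inner_sum, inner_smul_left,
    inner_smul_right, conj_trivial, mul_sum]
  rw [sum_comm]
  exact sum_congr rfl fun t _ => sum_congr rfl fun s _ => by ring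

end RPOIN

open RPOIN in
theorem st_POIN : POIN := by
  intro β W _ _ _ _ p F h0 h1
  refine ⟨fun Z => ?_, ?_⟩
  · rw [dist_eq, mul_assoc, mul_assoc, ← mul_assoc p]
    exact mul_le_mul_of_nonneg_left (first h0 h1 Z F) zero_le_two
  · have h : ∀ t s : β → Bool, mix univ t s = s := fun t s => by funext C; simp [mix]
    have h2 := dist_eq (p := p) univ F
    have h3 := second h0 h1 univ F
    simp only [h] at h2
    rw [h2]
    simp only [Q_univ (dF F _)] at h3
    exact h3

end Pool.Agent.Lib.QX
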