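import Pool.Agent.Lib.QX.Kit

/-! Row POS: the first linear lower bound. -/

namespace Pool.Agent.Lib.QX

open Finset
open scoped BigOperators

namespace RPOS

theorem two_pow_le_exp (n : ℕ) : (2 : ℝ) ^ n ≤ Real.exp n := by
  have h : (2 : ℝ) ≤ Real.exp 1 := by
    have := Real.add_one_le_exp (1 : ℝ)
    linarith
  calc (2 : ℝ) ^ n ≤ Real.exp 1 ^ n := pow_le_pow_left₀ (by norm_num) h n
    _ = Real.exp n := by rw [← Real.exp_nat_mul, mul_one]

theorem two_pow_le_exp' (n : ℕ) {L : ℝ} (hL : 1 ≤ L) : (2 : ℝ) ^ n ≤ Real.exp (n * L) := by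
  refine (two_pow_le_exp n).trans (Real.exp_le_exp.2 ?_)
  have : (0 : ℝ) ≤ n := Nat.cast_nonneg n
  nlinarith

/-- some class is large -/
theorem big_class {ι : Type} [Fintype ι] (k : ι → ℕ) (J : ℕ) (hk : ∀ i, k i ≤ J) :
    ∃ k0, k0 ≤ J ∧ Fintype.card ι ≤ (J + 1) * #{i | k i = k0} := by
  obtain ⟨k0, hk0, hmax⟩ := Finset.exists_max_image (range (J + 1))
    (fun a => #{i | k i = a}) ⟨0, by simp⟩
  refine ⟨k0, Nat.lt_succ_iff.1 (mem_range.1 hk0), ?_⟩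
  have h1 : #(univ : Finset ι) = ∑ a ∈ range (J + 1), #{i | k i = a} :=
    Finset.card_eq_sum_card_fiberwise (f := k) fun i _ => by
      simpa using Nat.lt_succ_iff.2 (hk i)
  rw [← Finset.card_univ, h1]
  calc ∑ a ∈ range (J + 1), #{i | k i = a} ≤ #(range (J + 1)) • #{i | k i = k0} :=
        Finset.sum_le_card_nsmul _ _ _ hmax
    _ = (J + 1) * #{i | k i = k0} := by simp

theorem kap_le (J : ℕ) :
    128 * 2 ^ J * ((J : ℝ) + 1) * Real.exp (-(7 * ((J : ℝ) + 1))) ≤ 1 := by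
  have h1 : (J : ℝ) + 1 ≤ 2 ^ J := by
    have : J + 1 ≤ 2 ^ J := Nat.lt_two_pow_self
    exact_mod_cast this
  have h2 : (2 : ℝ) ^ (7 * (J + 1)) ≤ Real.exp (7 * ((J : ℝ) + 1)) := by
    have := two_pow_le_exp (7 * (J + 1))
    push_cast at this
    exact this
  have h3 : 128 * 2 ^ J * ((J : ℝ) + 1) ≤ 2 ^ (7 * (J + 1)) := by
    have h4 : (2 : ℝ) ^ (2 * J + 7) ≤ 2 ^ (7 * (J + 1)) :=
      pow_le_pow_right₀ (by norm_num) (by omega)
    have h5 : (2 : ℝ) ^ (2 * J + 7) = 128 * 2 ^ J * 2 ^ J := by ring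
    have h6 : (0 : ℝ) ≤ 128 * 2 ^ J := by positivity
    have := mul_le_mul_of_nonneg_left h1 h6
    linarith
  rw [Real.exp_neg, ← div_eq_mul_inv, div_le_one (Real.exp_pos _)]
  linarith

theorem z_small {L : ℝ} (hL : 1 ≤ L) :
    (22 * L + 1 / 2) * Real.exp (-(22 * L)) ≤ Real.exp (-(7 * L)) ^ 2 / 4 := by
  have h1 : (2 : ℝ) ^ 7 ≤ Real.exp (7 * L) := by exact_mod_cast two_pow_le_exp' 7 hL
  have h2 := Real.add_one_le_exp L
  have h3 : Real.exp (-(7 * L)) ^ 2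
      = Real.exp (7 * L) * Real.exp L * Real.exp (-(22 * L)) := by
    rw [sq, ← Real.exp_add, ← Real.exp_add, ← Real.exp_add]
    congr 1
    ring
  have h4 : 128 * (L + 1) ≤ Real.exp (7 * L) * Real.exp L :=
    mul_le_mul (by linarith) h2 (by linarith) (Real.exp_pos _).le
  have h5 := Real.exp_pos (-(22 * L))
  rw [h3]
  nlinarith

/-- the last numerical contradiction -/
theorem last {L N ε κ : ℝ} {d : ℕ} (hL : 1 ≤ L) (hN : 0 ≤ N) (hd : (d : ℝ) ≤ N / 4)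
    (hκ : κ = Real.exp (-(7 * L))) (hε : ε ≤ κ ^ 2 / 4) (hN1 : 10 + 88 * L < κ ^ 2 * N)
    (h : Real.exp (-(22 * L)) ^ (⌈Real.exp (-(22 * L)) * N⌉₊ + 1)
        * (1 - Real.exp (-(22 * L))) ^ d
      ≤ (4 * (2 * Real.exp (-(26 * L)))) ^ (⌈Real.exp (-(22 * L)) * N⌉₊ + 1)
        + 8 * Real.exp (-(κ ^ 2 * N)) / (Real.exp (-(ε * N)) / 2)) : False := by
  have hs := z_small hL
  rw [← hκ] at hs
  set z := Real.exp (-(22 * L)) with hz
  have hz0 : 0 < z := Real.exp_pos _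
  set p := ⌈z * N⌉₊ with hp
  have hp1 : z * N ≤ p := Nat.le_ceil _
  have hp2 : (p : ℝ) < z * N + 1 := Nat.ceil_lt_add_one (by positivity)
  have h16 : (2 : ℝ) ^ 4 ≤ Real.exp (4 * L) := by exact_mod_cast two_pow_le_exp' 4 hL
  have hzt : z = Real.exp (4 * L) * Real.exp (-(26 * L)) := by
    rw [hz, ← Real.exp_add]
    congr 1
    ring
  have he26 := Real.exp_pos (-(26 * L))
  have ht : 4 * (2 * Real.exp (-(26 * L))) ≤ z * (1 / 2) := by
    rw [hzt]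
    nlinarith
  have hz2 : z ≤ 1 / 2 := by
    have h1 := Real.add_one_le_exp (22 * L)
    rw [hz, Real.exp_neg, inv_le_comm₀ (Real.exp_pos _) (by norm_num)]
    norm_num
    linarith
  have h1z : Real.exp (-(2 * z)) ≤ 1 - z := by
    have h1 := Real.add_one_le_exp (2 * z)
    rw [Real.exp_neg, inv_le_iff_one_le_mul₀ (Real.exp_pos _)]
    have h2 : (1 - z) * (2 * z + 1) ≤ (1 - z) * Real.exp (2 * z) :=
      mul_le_mul_of_nonneg_left h1 (by linarith)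
    nlinarith
  have hA : Real.exp (-(z * N / 2)) ≤ (1 - z) ^ d := by
    calc Real.exp (-(z * N / 2)) ≤ Real.exp (d * -(2 * z)) := by
          refine Real.exp_le_exp.2 ?_
          nlinarith
      _ = Real.exp (-(2 * z)) ^ d := Real.exp_nat_mul _ _
      _ ≤ (1 - z) ^ d := pow_le_pow_left₀ (Real.exp_pos _).le h1z d
  have hB : (1 / 2 : ℝ) ^ p ≤ Real.exp (-(z * N / 2)) := by
    have h1 : (1 / 2 : ℝ) ≤ Real.exp (-(1 / 2)) := by
      have := Real.add_one_le_exp (-(1 / 2) : ℝ)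
      linarith
    calc (1 / 2 : ℝ) ^ p ≤ Real.exp (-(1 / 2)) ^ p := pow_le_pow_left₀ (by norm_num) h1 p
      _ = Real.exp (p * -(1 / 2)) := (Real.exp_nat_mul _ _).symm
      _ ≤ Real.exp (-(z * N / 2)) := Real.exp_le_exp.2 (by linarith)
  have hq0 : 0 < z ^ (p + 1) := pow_pos hz0 _
  have hC : (4 * (2 * Real.exp (-(26 * L)))) ^ (p + 1)
      ≤ z ^ (p + 1) * (Real.exp (-(z * N / 2)) / 2) := by
    calc (4 * (2 * Real.exp (-(26 * L)))) ^ (p + 1) ≤ (z * (1 / 2)) ^ (p + 1) :=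
          pow_le_pow_left₀ (by positivity) ht _
      _ = z ^ (p + 1) * ((1 / 2) ^ p / 2) := by rw [mul_pow, pow_succ (1 / 2 : ℝ)]; ring
      _ ≤ _ := mul_le_mul_of_nonneg_left (by linarith) hq0.le
  have hD : z ^ (p + 1) * Real.exp (-(z * N / 2)) ≤ z ^ (p + 1) * (1 - z) ^ d :=
    mul_le_mul_of_nonneg_left hA hq0.le
  have hE : 8 * Real.exp (-(κ ^ 2 * N)) / (Real.exp (-(ε * N)) / 2)
      = 16 * Real.exp (ε * N - κ ^ 2 * N) := by
    rw [Real.exp_sub, Real.exp_neg, Real.exp_neg]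
    have := Real.exp_pos (ε * N)
    have := Real.exp_pos (κ ^ 2 * N)
    field_simp
    norm_num
  have hF : z ^ (p + 1) * Real.exp (-(z * N / 2)) ≤ 32 * Real.exp (ε * N - κ ^ 2 * N) := by
    rw [hE] at h
    linarith
  have h32 : (2 : ℝ) ^ 5 ≤ Real.exp 5 := by exact_mod_cast two_pow_le_exp 5
  have hG : Real.exp (((p + 1 : ℕ) : ℝ) * -(22 * L) + -(z * N / 2))
      ≤ Real.exp (5 + (ε * N - κ ^ 2 * N)) := by
    rw [Real.exp_add, Real.exp_add, Real.exp_nat_mul]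
    have := Real.exp_pos (ε * N - κ ^ 2 * N)
    refine hF.trans (mul_le_mul_of_nonneg_right (by linarith) this.le)
  have hH := Real.exp_le_exp.1 hG
  push_cast at hH
  have h1 := mul_le_mul_of_nonneg_right hs hN
  have h2 := mul_le_mul_of_nonneg_right hε hN
  have h3 : ((p : ℝ) + 1) * (22 * L) ≤ (z * N + 2) * (22 * L) :=
    mul_le_mul_of_nonneg_right (by linarith) (by linarith)
  nlinarith

end RPOS

open RPOS in
theorem st_POS (hP1 : POS1) (hT : TIE) (hPA : PAR) (hF : FR) : POS := by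
  obtain ⟨εF, hεF, m0, hFR⟩ := hF
  refine ⟨min (1 / 4) (εF / 234), lt_min (by norm_num) (by positivity), fun s J hs => ?_⟩
  set c := min (1 / 4 : ℝ) (εF / 234) with hc
  have hc0 : 0 < c := lt_min (by norm_num) (by positivity)
  have hc1 : c ≤ 1 / 4 := min_le_left _ _
  have hc2 : c ≤ εF / 234 := min_le_right _ _
  obtain ⟨L, hLJ⟩ : ∃ L : ℝ, L = (J : ℝ) + 1 := ⟨_, rfl⟩
  have hJ0 : (0 : ℝ) ≤ J := Nat.cast_nonneg J
  have hL : 1 ≤ L := by linarith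
  have hL0 : 0 < L := by linarith
  obtain ⟨κ, hκ⟩ : ∃ κ : ℝ, κ = Real.exp (-(7 * L)) := ⟨_, rfl⟩
  have hκ0 : 0 < κ := hκ ▸ Real.exp_pos _
  have hκ1 : 128 * 2 ^ J * L * κ ≤ 1 := by
    rw [hκ, hLJ]
    exact kap_le J
  obtain ⟨ε, hε0, hε1, hε2, hε3⟩ :
      ∃ ε : ℝ, 0 < ε ∧ ε ≤ εF / (3 * L) ∧ ε ≤ κ ^ 2 / 4 ∧ ε ≤ 1 / (64 * L) :=
    ⟨min (εF / (3 * L)) (min (κ ^ 2 / 4) (1 / (64 * L))),
      lt_min (by positivity) (lt_min (by positivity) (by positivity)), min_le_left _ _,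
      (min_le_right _ _).trans (min_le_left _ _), (min_le_right _ _).trans (min_le_right _ _)⟩
  obtain ⟨N0, hN0⟩ := exists_nat_gt
    (L * m0 + 64 * L * (J * 2 ^ J) + 18 * L / εF + (10 + 88 * L) / κ ^ 2)
  refine ⟨ε, hε0, N0, ?_⟩
  intro ι _ _ k H A E _ _ _ v hk hH hN hoff hA hR
  by_contra hd
  push Not at hd
  rw [← hLJ] at hd
  obtain ⟨N, hNι⟩ : ∃ N : ℝ, N = Fintype.card ι := ⟨_, rfl⟩
  have hNN : (N0 : ℝ) ≤ N := by rw [hNι]; exact_mod_cast hN
  rw [← hNι] at hd hoff hA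
  have p1 : 0 ≤ L * m0 := by positivity
  have p2 : 0 ≤ 64 * L * (J * 2 ^ J) := by positivity
  have p3 : 0 ≤ 18 * L / εF := by positivity
  have p4 : 0 ≤ (10 + 88 * L) / κ ^ 2 := by positivity
  have hN1 : L * m0 ≤ N := by linarith
  have hN2 : 64 * L * (J * 2 ^ J) ≤ N := by linarith
  have hN3 : 18 * L ≤ N * εF := (div_le_iff₀ hεF).1 (by linarith)
  have hN4 : 10 + 88 * L < N * κ ^ 2 := (div_lt_iff₀ (by positivity)).1 (by linarith)
  have hNpos : 0 < N := by linarith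
  obtain ⟨k0, hk0, hbig⟩ := big_class k J hk
  obtain ⟨ι', _, _, k', A', v', hR', hA', hk', hcard, -, hm, hs1, hs2⟩ :=
    hT ι E k H J k0 A v hR hk hk0
  obtain ⟨A2, hsub, hA2, hpar⟩ := hPA ι' k' k0 A' fun j => (hk' j).1
  have hR2 : IsRep k' H A2 v' :=
    ⟨fun x hx => hR'.1 x (hsub x hx), fun x y hx hy => hR'.2 x y (hsub x hx) (hsub y hy)⟩
  have hdiv : 2 * 2 ^ k0 ∣ H := by
    refine Dvd.dvd.trans ?_ hH
    rw [← pow_succ']
    exact pow_dvd_pow 2 (by omega)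
  obtain ⟨m, hmm⟩ : ∃ m : ℝ, m = #{j | k' j = k0} := ⟨_, rfl⟩
  have hNm : N ≤ L * m := by
    rw [hNι, hLJ, hmm]
    exact_mod_cast hbig.trans (Nat.mul_le_mul_left _ hm)
  have hm0 : m0 ≤ #{j | k' j = k0} := by
    have : (m0 : ℝ) ≤ m := le_of_mul_le_mul_left (hN1.trans hNm) hL0
    rw [hmm] at this
    exact_mod_cast this
  have hs1' : ∑ j, (2 : ℝ) ^ k' j ≤ ∑ i, (2 : ℝ) ^ k i := by exact_mod_cast hs1
  have hs2' : ∑ i, (2 : ℝ) ^ k i ≤ ∑ j, (2 : ℝ) ^ k' j + J * 2 ^ J := by exact_mod_cast hs2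
  have hoff' : |2 * (H : ℝ) - ∑ j, (2 : ℝ) ^ k' j| ≤ ε * N + J * 2 ^ J := by
    have := abs_le.1 hoff
    have h2 : (0 : ℝ) ≤ J * 2 ^ J := by positivity
    exact abs_le.2 ⟨by linarith, by linarith⟩
  obtain ⟨d, hdE⟩ : ∃ d : ℕ, d = Module.finrank ℂ E := ⟨_, rfl⟩
  rw [← hdE] at hd
  have hdL : (d : ℝ) * L ^ 2 ≤ c * N := by
    rw [div_mul_eq_mul_div, lt_div_iff₀ (by positivity)] at hd
    exact hd.le
  have hd0 : (0 : ℝ) ≤ d := Nat.cast_nonneg d
  have hd4 : (d : ℝ) ≤ N / 4 := by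
    have h1 : (d : ℝ) * 1 ≤ d * L ^ 2 := mul_le_mul_of_nonneg_left (by nlinarith) hd0
    have h2 : c * N ≤ 1 / 4 * N := mul_le_mul_of_nonneg_right hc1 hNpos.le
    linarith
  have he26 := Real.exp_pos (-(26 * L))
  have key := hP1 εF m0 hFR ι' E k' H J k0 A2 v' (Real.exp (-(ε * N)) / 2) N (κ * N)
    (2 * Real.exp (-(26 * L))) (Real.exp (-(22 * L))) (⌈Real.exp (-(22 * L)) * N⌉₊ + 1)
    hR2 hk' hdiv hpar (by positivity) (by linarith) hm0 (by rw [hNι]; exact_mod_cast hcard)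
    (by positivity) (by positivity) ?_ (Real.exp_pos _) ?_ ?_ ?_
  · rw [← hdE, show (κ * N) ^ 2 / N = κ ^ 2 * N by field_simp] at key
    exact last hL hNpos.le hd4 hκ hε2 (by linarith) key
  · have h1 := Real.add_one_le_exp (26 * L)
    rw [Real.exp_neg, ← div_eq_mul_inv, div_le_one (Real.exp_pos _)]
    linarith
  · exact Real.exp_lt_one_iff.2 (by linarith)
  · rw [← hmm]
    refine le_of_mul_le_mul_left ?_ hL0
    have h1 : ε * (64 * L) ≤ 1 := (le_div_iff₀ (by positivity)).1 hε3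
    have h2 := mul_le_mul_of_nonneg_right h1 hNpos.le
    have h3 := mul_le_mul_of_nonneg_right hκ1 hNpos.le
    have h4 := mul_le_mul_of_nonneg_left hoff' hL0.le
    linarith
  · rw [← hmm, ← hdE]
    have hlog : Real.log (2 / (2 * Real.exp (-(26 * L)))) = 26 * L := by
      rw [show 2 / (2 * Real.exp (-(26 * L))) = Real.exp (26 * L) by
        rw [Real.exp_neg]; field_simp, Real.log_exp]
    rw [hlog]
    have h4 : (2 : ℝ) ^ 2 ≤ Real.exp 2 := by exact_mod_cast two_pow_le_exp 2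
    have h5 : εF * m ≥ 3 * d * (26 * L) + 4 + ε * N + 2 := by
      refine le_of_mul_le_mul_left ?_ hL0
      have h1 : ε * (3 * L) ≤ εF := (le_div_iff₀ (by positivity)).1 hε1
      have h2 := mul_le_mul_of_nonneg_right h1 hNpos.le
      have h3 := mul_le_mul_of_nonneg_right hc2 hNpos.le
      have h6 := mul_le_mul_of_nonneg_left hNm hεF.le
      linarith
    have h6 : Real.exp (-(εF * m)) * Real.exp 2
        ≤ Real.exp (-(3 * d * (26 * L) + 4)) * Real.exp (-(ε * N)) := by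
      rw [← Real.exp_add, ← Real.exp_add]
      exact Real.exp_le_exp.2 (by linarith)
    have h7 := mul_le_mul_of_nonneg_left h4 (Real.exp_pos (-(εF * m))).le
    linarith

end Pool.Agent.Lib.QX
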