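import Pool.Agent.Lib.QX.Kit

/-! Positivity with explicit numbers. -/

namespace Pool.Agent.Lib.QX

open Finset
open scoped BigOperators

namespace RPOS1

section Geo
variable {E : Type} [NormedAddCommGroup E] [InnerProductSpace ℂ E]

theorem rest_sq {x e : E} (hx : ‖x‖ = 1) (he : ‖e‖ = 1) :
    ‖e - inner ℂ x e • x‖ ^ 2 = 1 - ‖inner ℂ x e‖ ^ 2 := by
  rw [@norm_sub_sq ℂ, inner_smul_right, norm_smul, hx, he, ← inner_conj_symm e x, RCLike.mul_conj]
  simp only [mul_one, one_pow, ← RCLike.ofReal_pow, RCLike.ofReal_re]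
  ring

theorem unit_cap {x y e e' : E} {t : ℝ} (hx : ‖x‖ = 1) (hy : ‖y‖ = 1) (he : ‖e‖ = 1)
    (he' : ‖e'‖ = 1) (hxy : inner ℂ x y = 0) (h1 : 1 - t ≤ ‖inner ℂ x e‖ ^ 2)
    (h2 : 1 - t ≤ ‖inner ℂ y e'‖ ^ 2) : ‖inner ℂ e e'‖ ^ 2 ≤ 4 * t := by
  have a1 := rest_sq hx he
  have a2 := rest_sq hy he'
  set p := e - inner ℂ x e • x with hp
  set p' := e' - inner ℂ y e' • y with hp'
  have b1 : inner ℂ p y = inner ℂ e y := by
    rw [hp, inner_sub_left, inner_smul_left, hxy, mul_zero, sub_zero]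
  have b2 : inner ℂ e e' = inner ℂ e p' + inner ℂ y e' * inner ℂ p y := by
    rw [b1, hp', inner_sub_right, inner_smul_right]; ring
  have c1 : ‖inner ℂ e p'‖ ≤ ‖p'‖ := by
    have := norm_inner_le_norm (𝕜 := ℂ) e p'
    rwa [he, one_mul] at this
  have c2 : ‖inner ℂ p y‖ ≤ ‖p‖ := by
    have := norm_inner_le_norm (𝕜 := ℂ) p y
    rwa [hy, mul_one] at this
  have c3 : ‖inner ℂ y e'‖ ≤ 1 := by
    have := norm_inner_le_norm (𝕜 := ℂ) y e'
    rwa [hy, he', mul_one] at this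
  have c4 : ‖inner ℂ e e'‖ ≤ ‖p'‖ + ‖p‖ := by
    rw [b2]
    refine (norm_add_le _ _).trans (add_le_add c1 ?_)
    rw [norm_mul]
    exact (mul_le_of_le_one_left (norm_nonneg _) c3).trans c2
  have c5 : ‖inner ℂ e e'‖ ^ 2 ≤ (‖p'‖ + ‖p‖) ^ 2 := pow_le_pow_left₀ (norm_nonneg _) c4 2
  nlinarith [sq_nonneg (‖p'‖ - ‖p‖)]

theorem scale_cap {x e : E} {t : ℝ} (hx : x ≠ 0) (h : (1 - t) * ‖x‖ ^ 2 ≤ ‖inner ℂ x e‖ ^ 2) :
    ‖((‖x‖⁻¹ : ℝ) : ℂ) • x‖ = 1 ∧ 1 - t ≤ ‖inner ℂ (((‖x‖⁻¹ : ℝ) : ℂ) • x) e‖ ^ 2 := by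
  have h0 : 0 < ‖x‖ := norm_pos_iff.2 hx
  have hn : ‖((‖x‖⁻¹ : ℝ) : ℂ)‖ = ‖x‖⁻¹ := by
    rw [Complex.norm_real, Real.norm_of_nonneg (inv_nonneg.2 h0.le)]
  refine ⟨by rw [norm_smul, hn, inv_mul_cancel₀ h0.ne'], ?_⟩
  rw [inner_smul_left, norm_mul, RCLike.norm_conj, hn, mul_pow, inv_pow,
    le_inv_mul_iff₀ (by positivity), mul_comm]
  exact h

theorem cap {x y e e' : E} {t : ℝ} (hx : x ≠ 0) (hy : y ≠ 0) (he : ‖e‖ = 1)
    (he' : ‖e'‖ = 1) (hxy : inner ℂ x y = 0) (h1 : (1 - t) * ‖x‖ ^ 2 ≤ ‖inner ℂ x e‖ ^ 2)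
    (h2 : (1 - t) * ‖y‖ ^ 2 ≤ ‖inner ℂ y e'‖ ^ 2) : ‖inner ℂ e e'‖ ^ 2 ≤ 4 * t := by
  obtain ⟨a1, a2⟩ := scale_cap hx h1
  obtain ⟨b1, b2⟩ := scale_cap hy h2
  refine unit_cap a1 b1 he he' ?_ a2 b2
  rw [inner_smul_left, inner_smul_right, hxy, mul_zero, mul_zero]

end Geo

theorem dens_sub {X : Type} [Fintype X] (U B : X → Prop) [DecidablePred U] :
    dens U * dens (fun y : {u // U u} => B y.1) ≤ dens B := by
  classical
  rw [dens_eq_card, dens_eq_card, dens_eq_card, Fintype.card_subtype]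
  have h1 : #{y : {u // U u} | B y.1} ≤ #{x | B x} :=
    card_le_card_of_injOn Subtype.val (fun y hy => by simpa using hy)
      fun _ _ _ _ h => Subtype.ext h
  have h2 : (#{y : {u // U u} | B y.1} : ℝ) ≤ #{x | B x} := by exact_mod_cast h1
  rcases Nat.eq_zero_or_pos #{x | U x} with h | h
  · rw [h]; simp only [Nat.cast_zero, zero_div, zero_mul]; positivity
  · have h3 : (0 : ℝ) < #{x | U x} := by exact_mod_cast h
    rw [div_mul_div_comm, mul_comm (Fintype.card X : ℝ), mul_div_mul_left _ _ h3.ne']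
    exact div_le_div_of_nonneg_right h2 (Nat.cast_nonneg _)

section Split
variable {ι : Type} [Fintype ι] (k : ι → ℕ) (k0 : ℕ)

/-- glue the light and the heavy coordinates -/
def glue (a : {i // k i = k0} → Bool) (u : {i // ¬ k i = k0} → Bool) : ι → Bool :=
  fun i => if h : k i = k0 then a ⟨i, h⟩ else u ⟨i, h⟩

theorem dw_glue (a a' : {i // k i = k0} → Bool) (u u' : {i // ¬ k i = k0} → Bool) :
    dw (fun i => 2 ^ k i) (glue k k0 a u) (glue k k0 a' u')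
      = 2 ^ k0 * hammingDist a a' + dw (fun i : {i // ¬ k i = k0} => 2 ^ k i.1) u u' := by
  unfold dw
  rw [← Fintype.sum_subtype_add_sum_subtype (fun i => k i = k0)]
  congr 1
  · rw [hammingDist, card_filter, mul_sum]
    refine sum_congr rfl fun i _ => ?_
    simp only [glue, i.2, dite_true]
    by_cases h : a i = a' i <;> simp [h]
  · refine sum_congr rfl fun i _ => ?_
    simp only [glue, dif_neg i.2]

theorem tot_split : ∑ i, (2 : ℝ) ^ k i = 2 ^ k0 * Fintype.card {i // k i = k0}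
    + ∑ i : {i // ¬ k i = k0}, ((2 ^ k i.1 : ℕ) : ℝ) := by
  rw [← Fintype.sum_subtype_add_sum_subtype (fun i => k i = k0)]
  congr 1
  · rw [sum_congr rfl fun (i : {i // k i = k0}) _ => (by rw [i.2] : (2 : ℝ) ^ k i.1 = 2 ^ k0)]
    simp [mul_comm]
  · simp

theorem dens_glue [DecidableEq ι] (A : (ι → Bool) → Prop) :
    dens A = 𝔼 u, dens fun a => A (glue k k0 a u) := by
  unfold dens
  rw [← ex_equiv (Equiv.piEquivPiSubtypeProd (fun i => k i = k0) fun _ => Bool).symm, ex_prod,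
    ex_comm]
  rfl

theorem dvd_heavy (hk : ∀ i, k0 ≤ k i) (u u' : {i // ¬ k i = k0} → Bool) :
    2 ^ k0 ∣ dw (fun i : {i // ¬ k i = k0} => 2 ^ k i.1) u u' := by
  refine dvd_sum fun i _ => ?_
  split_ifs
  · exact dvd_zero _
  · exact pow_dvd_pow 2 (hk i.1)

end Split

end RPOS1

open RPOS1 in
theorem st_POS1 (hCAP : CAP) (hWEL : WEL) (hTAIL : TAIL) : POS1 := by
  intro εF m0 hFR ι E _ _ _ _ _ k H J k0 A v μ n r t z q hrep hk hH hpar hμ hA hm0 hn hr ht0 ht1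
    hz0 hz1 hoff hcap
  classical
  rw [← Fintype.card_subtype] at hm0 hoff hcap
  set U : ({i // ¬ k i = k0} → Bool) → Prop :=
    fun u => μ / 2 ≤ dens fun a => A (glue k k0 a u) with hU
  have hdU : μ / 2 ≤ dens U := by
    have := dens_ge_of_ex (f := fun u : {i // ¬ k i = k0} → Bool =>
      dens fun a => A (glue k k0 a u)) (a := μ / 2) (by linarith) fun _ => dens_le_one _
    rw [← dens_glue] at this
    linarith
  have hne : Nonempty {u // U u} := by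
    obtain ⟨u, hu⟩ := exists_of_dens_pos (lt_of_lt_of_le (by linarith) hdU)
    exact ⟨⟨u, hu⟩⟩
  have hc : ∀ u : {u // U u}, ∃ e : E, ‖e‖ = 1 ∧
      Real.exp (-(εF * Fintype.card {i // k i = k0})) ≤ dens fun a => A (glue k k0 a u.1) ∧
        (1 - t) * ‖v (glue k k0 a u.1)‖ ^ 2 ≤ ‖inner ℂ (v (glue k k0 a u.1)) e‖ ^ 2 := by
    intro u
    obtain ⟨e, he, hd⟩ := hCAP _ E (fun a => A (glue k k0 a u.1)) (fun a => v (glue k k0 a u.1)) t
      (fun a ha => hrep.1 _ ha) (exists_of_dens_pos (lt_of_lt_of_le (by linarith) u.2)) ht0 ht1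
    exact ⟨e, he, hcap.trans
      ((mul_le_mul_of_nonneg_left u.2 (Real.exp_pos _).le).trans hd)⟩
  choose e he hd using hc
  set Bad : ({i // ¬ k i = k0} → Bool) → ({i // ¬ k i = k0} → Bool) → Prop := fun u u' =>
    2 * 2 ^ J * r < |2 * (dw (fun i : {i // ¬ k i = k0} => 2 ^ k i.1) u u' : ℝ)
      - ∑ i : {i // ¬ k i = k0}, ((2 ^ k i.1 : ℕ) : ℝ)| with hBad
  have good : ∀ u u' : {u // U u}, ¬ Bad u.1 u'.1 → ‖inner ℂ (e u) (e u')‖ ^ 2 ≤ 4 * t := by
    intro u u' hb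
    obtain ⟨g, hg⟩ := dvd_heavy k k0 (fun i => (hk i).1) u.1 u'.1
    obtain ⟨h, hh⟩ := hH
    have p0 : (1 : ℝ) ≤ 2 ^ k0 := one_le_pow₀ one_le_two
    obtain ⟨a, a', ha, ha', hD⟩ := hFR _ _ _ (2 * h - g) hm0 (hd u) (hd u') (by
      simp only [hBad, not_lt, hg] at hb
      rw [tot_split k k0, hh] at hoff
      push_cast at hb hoff ⊢
      set S : ℝ := ∑ i : {i // ¬ k i = k0}, (2 : ℝ) ^ k i.1
      set m : ℝ := (Fintype.card {i // k i = k0} : ℝ)
      have e1 : (2 : ℝ) ^ k0 * (2 * (2 * h - g) - m)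
          = (2 * (2 * 2 ^ k0 * h) - (2 ^ k0 * m + S)) - (2 * (2 ^ k0 * g) - S) := by ring
      have e2 := abs_sub (2 * (2 * (2 : ℝ) ^ k0 * h) - (2 ^ k0 * m + S)) (2 * (2 ^ k0 * g) - S)
      rw [← e1, abs_mul, abs_of_nonneg (by positivity : (0 : ℝ) ≤ 2 ^ k0)] at e2
      have e3 := le_mul_of_one_le_left (abs_nonneg (2 * (2 * (h : ℝ) - g) - m)) p0
      have e4 : (0 : ℝ) ≤ 2 ^ J * r := by positivity
      linarith) (by
      intro a a' ha ha'
      have := hpar _ _ ha.1 ha'.1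
      rw [dw_glue, hg, ← mul_add, mul_comm 2, Nat.mul_dvd_mul_iff_left (by positivity)] at this
      obtain ⟨c, hc⟩ := this
      exact ⟨c - h, by omega⟩)
    refine cap (hrep.1 _ ha.1) (hrep.1 _ ha'.1) (he u) (he u') (hrep.2 _ _ ha.1 ha'.1 ?_) ha.2 ha'.2
    rw [dw_glue, hg, hh, ← mul_add, show hammingDist a a' + g = 2 * h by omega]
    ring
  have tail : ∀ u : {u // U u},
      dens (fun y : {u // U u} => Bad u.1 y.1) ≤ 8 * Real.exp (-(r ^ 2 / n)) / μ := by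
    intro u
    have h1 := hTAIL _ (fun i : {i // ¬ k i = k0} => 2 ^ k i.1) (2 ^ J) n r u.1 (by positivity)
      (fun i => by
        push_cast
        exact pow_le_pow_right₀ one_le_two (hk i.1).2)
      (le_trans (by exact_mod_cast Fintype.card_subtype_le _) hn) hr
    have h2 := dens_sub U (Bad u.1)
    have h3 := mul_le_mul_of_nonneg_right hdU
      (dens_nonneg fun y : {u // U u} => Bad u.1 y.1)
    rw [le_div_iff₀ hμ]
    have h4 : dens (Bad u.1) ≤ 4 * Real.exp (-(r ^ 2 / n)) := h1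
    linarith
  refine (hWEL {u // U u} E e q z he hz0 hz1).trans (ex_le fun u => ?_)
  have : 𝔼 y, ‖inner ℂ (e u) (e y)‖ ^ (2 * q) ≤
      𝔼 y : {u // U u}, ((4 * t) ^ q + ind (Bad u.1 y.1)) := by
    refine ex_mono fun y => ?_
    by_cases hb : Bad u.1 y.1
    · have h1 : ‖inner ℂ (e u) (e y)‖ ≤ 1 := by
        have := norm_inner_le_norm (𝕜 := ℂ) (e u) (e y)
        rwa [he, he, mul_one] at this
      have h2 := pow_le_one₀ (n := 2 * q) (norm_nonneg _) h1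
      have h3 : 0 ≤ (4 * t) ^ q := by positivity
      rw [ind_pos hb]; linarith
    · rw [ind_neg hb, add_zero, pow_mul]
      exact pow_le_pow_left₀ (by positivity) (good u y hb) q
  rw [ex_add, ex_const] at this
  exact this.trans (add_le_add le_rfl (tail u))

end Pool.Agent.Lib.QX
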