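import Pool.Agent.Lib.QX.Kit

/-! Russo formula and mean value theorem. -/

namespace Pool.Agent.Lib.QX

open Finset
open scoped BigOperators

namespace RRUSSO

variable {β : Type} [Fintype β] [DecidableEq β]

/-- flip one coordinate -/
def flip (B : β) : Equiv.Perm (β → Bool) :=
  Function.Involutive.toPerm (fun t => Function.update t B (!t B)) fun t => by simp

theorem one (p : ℝ) (r : (β → Bool) → ℝ) (B : β) :
    ∑ t, mu p t * dF r B t = ∑ t : β → Bool, ((∏ C ∈ univ.erase B,
      if t C = true then p else 1 - p) * if t B = true then 1 else -1) * r t := by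
  have key : ∀ f g : (β → Bool) → ℝ, (∀ t, f t + f (flip B t) = g t + g (flip B t)) →
      ∑ t, f t = ∑ t, g t := fun f g h => by
    have h1 := Finset.sum_congr rfl fun t (_ : t ∈ univ) => h t
    rw [sum_add_distrib, sum_add_distrib, Equiv.sum_comp (flip B) f,
      Equiv.sum_comp (flip B) g] at h1
    linarith
  refine key _ _ fun t => ?_
  have h1 : ∀ u : β → Bool, mu p u = (if u B = true then p else 1 - p) *
      ∏ C ∈ univ.erase B, if u C = true then p else 1 - p := fun u =>
    (mul_prod_erase univ (fun C => if u C = true then p else 1 - p) (mem_univ B)).symm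
  have h2 : (∏ C ∈ univ.erase B, if flip B t C = true then p else 1 - p) =
      ∏ C ∈ univ.erase B, if t C = true then p else 1 - p :=
    prod_congr rfl fun C hC => by
      simp [flip, Function.update_of_ne (ne_of_mem_erase hC)]
  have h3 : flip B t = Function.update t B (!t B) := rfl
  have h4 : flip B t B = !t B := by simp [h3]
  have h5 : dF r B (flip B t) = dF r B t := by simp [dF, h3]
  rw [h1, h1, h2, h4, h5, h3, dF]
  cases h : t B
  · have : Function.update t B false = t := by rw [← h]; simp
    rw [this]
    simp
    ring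
  · have : Function.update t B true = t := by rw [← h]; simp
    rw [this]
    simp
    ring

theorem der (r : (β → Bool) → ℝ) (p : ℝ) :
    HasDerivAt (fun q => ∑ t, mu q t * r t) (∑ B, ∑ t, mu p t * dF r B t) p := by
  simp only [one]
  rw [sum_comm]
  refine HasDerivAt.fun_sum fun t _ => ?_
  rw [← sum_mul]
  refine HasDerivAt.mul_const ?_ _
  have h : ∀ B ∈ (univ : Finset β), HasDerivAt (fun q : ℝ => if t B = true then q else 1 - q)
      (if t B = true then 1 else -1) p := fun B _ => by
    cases t B
    · simpa using (hasDerivAt_id p).const_sub 1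
    · simpa using hasDerivAt_id' p
  simpa [mu] using HasDerivAt.fun_finsetProd h

end RRUSSO

theorem st_RUSSO : RUSSO := by
  intro β _ _ r
  obtain ⟨p, hp, h⟩ := exists_hasDerivAt_eq_slope (fun q => ∑ t, mu q t * r t)
    (fun q => ∑ B, ∑ t, mu q t * dF r B t) (show (1 / 4 : ℝ) < 3 / 4 by norm_num)
    (fun q _ => (RRUSSO.der r q).continuousAt.continuousWithinAt) fun q _ => RRUSSO.der r q
  exact ⟨p, hp.1.le, hp.2.le, by rw [h]; ring⟩

end Pool.Agent.Lib.QX
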