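import Pool.Agent.Lib.QX.Kit

/-! Tying the light coordinates, and the normal form. -/

namespace Pool.Agent.Lib.QX

open Finset
open scoped BigOperators

namespace RTIE

/-- the class of exponent `i` inside `T` -/
def cls {ι : Type} (k : ι → ℕ) (T : Finset ι) (J : ℕ) (i : Fin (J + 1)) : Finset ι :=
  T.filter fun x => k x = i

theorem mem_cls {ι : Type} {k : ι → ℕ} {T : Finset ι} {J : ℕ} {i : Fin (J + 1)} {x : ι} :
    x ∈ cls k T J i ↔ x ∈ T ∧ k x = i := by
  unfold cls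
  rw [mem_filter]

theorem cls_disj {ι : Type} (k : ι → ℕ) (T : Finset ι) (J : ℕ) (i j : Fin (J + 1)) (h : i ≠ j) :
    Disjoint (cls k T J i) (cls k T J j) := by
  rw [Finset.disjoint_left]
  intro x hx hy
  exact h (Fin.ext ((mem_cls.1 hx).2.symm.trans (mem_cls.1 hy).2))

theorem sum_cls {ι : Type} (k : ι → ℕ) (T : Finset ι) (J : ℕ) (hk : ∀ x, k x ≤ J) (f : ℕ → ℕ) :
    ∑ x ∈ T, f (k x) = ∑ i : Fin (J + 1), #(cls k T J i) * f i := by
  rw [← Finset.sum_fiberwise T (fun x => (⟨k x, Nat.lt_succ_of_le (hk x)⟩ : Fin (J + 1)))]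
  refine Finset.sum_congr rfl fun i _ => ?_
  have e : (T.filter fun x => (⟨k x, Nat.lt_succ_of_le (hk x)⟩ : Fin (J + 1)) = i)
      = cls k T J i := by
    ext x
    rw [mem_filter, mem_cls, Fin.ext_iff]
  rw [e, Finset.sum_congr rfl (g := fun _ => f i) fun x hx => by rw [(mem_cls.1 hx).2]]
  rw [Finset.sum_const, smul_eq_mul]

theorem sum_sig {n : ℕ} (a : Fin n → ℕ) (f : Fin n → ℕ) :
    ∑ j : (Σ i : Fin n, Fin (a i)), f j.1 = ∑ i, a i * f i := by
  rw [Fintype.sum_sigma]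
  refine Finset.sum_congr rfl fun i _ => ?_
  simp

theorem pow_max (i k0 : ℕ) : 2 ^ (k0 - i) * 2 ^ i = 2 ^ max i k0 := by
  rw [← pow_add]
  congr 1
  omega

theorem sum_fib {n : ℕ} (a g : Fin n → ℕ) (f : Fin n → ℕ) (j : Σ i : Fin n, Fin (a i)) :
    ∑ x : (Σ i : Fin n, Fin (a i) × Fin (g i)) with
      (⟨x.1, x.2.1⟩ : Σ i : Fin n, Fin (a i)) = j, f x.1 = g j.1 * f j.1 := by
  obtain ⟨i, b⟩ := j
  have e : (univ.filter fun x : (Σ i : Fin n, Fin (a i) × Fin (g i)) =>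
      (⟨x.1, x.2.1⟩ : Σ i : Fin n, Fin (a i)) = ⟨i, b⟩)
      = univ.image fun c : Fin (g i) => (⟨i, (b, c)⟩ : Σ i : Fin n, Fin (a i) × Fin (g i)) := by
    ext ⟨i', b', c'⟩
    simp only [mem_filter, mem_univ, true_and, mem_image]
    constructor
    · intro h
      cases h
      exact ⟨c', rfl⟩
    · rintro ⟨c, h⟩
      cases h
      rfl
  rw [e, Finset.sum_image]
  · simp
  · intro c _ c' _ h
    have := (Sigma.mk.inj_iff.1 h).2
    exact (Prod.ext_iff.1 (eq_of_heq this)).2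

theorem rem_le (N i k0 J : ℕ) (hi : i ≤ J) (h0 : k0 ≤ J) :
    N * 2 ^ i ≤ N / 2 ^ (k0 - i) * 2 ^ max i k0 + if i < J then 2 ^ J else 0 := by
  rw [← pow_max]
  have hp : 0 < 2 ^ (k0 - i) := by positivity
  have h1 := Nat.div_add_mod N (2 ^ (k0 - i))
  have h2 := Nat.mod_lt N hp
  split_ifs with h
  · have h3 : 2 ^ (k0 - i) * 2 ^ i ≤ 2 ^ J := by
      rw [pow_max]
      exact Nat.pow_le_pow_right (by norm_num) (by omega)
    have h4 : N % 2 ^ (k0 - i) * 2 ^ i ≤ 2 ^ (k0 - i) * 2 ^ i :=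
      Nat.mul_le_mul_right _ h2.le
    calc N * 2 ^ i = (2 ^ (k0 - i) * (N / 2 ^ (k0 - i)) + N % 2 ^ (k0 - i)) * 2 ^ i := by rw [h1]
      _ = N / 2 ^ (k0 - i) * (2 ^ (k0 - i) * 2 ^ i) + N % 2 ^ (k0 - i) * 2 ^ i := by ring
      _ ≤ _ := Nat.add_le_add_left (h4.trans h3) _
  · have : k0 - i = 0 := by omega
    rw [this]
    simp

/-- a point of the cube from its block part and its reservoir part -/
def join {β R : Type} (y : β → V4) (a : R → Bool) : (β × Fin 4) ⊕ R → Bool :=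
  Sum.elim (fun p => y p.1 p.2) a

/-- the same as an equivalence -/
def joinE (β R : Type) : ((β → V4) × (R → Bool)) ≃ ((β × Fin 4) ⊕ R → Bool) where
  toFun p := join p.1 p.2
  invFun x := (fun B r => x (Sum.inl (B, r)), fun a => x (Sum.inr a))
  left_inv _ := rfl
  right_inv x := by
    funext j
    cases j <;> rfl

theorem dw_const {X : Type} [Fintype X] (c : ℕ) (x y : X → Bool) :
    ∑ i, (if x i = y i then 0 else c) = c * hammingDist x y := by
  unfold hammingDist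
  rw [Finset.card_filter, Finset.mul_sum]
  refine Finset.sum_congr rfl fun i _ => ?_
  by_cases h : x i = y i <;> simp [h]

theorem dw_join {β R : Type} [Fintype β] [Fintype R] (kB : β → ℕ) (k0 : ℕ)
    (kk : (β × Fin 4) ⊕ R → ℕ) (h1 : ∀ p, kk (Sum.inl p) = kB p.1) (h2 : ∀ a, kk (Sum.inr a) = k0)
    (y y' : β → V4) (a a' : R → Bool) :
    dw (fun i => 2 ^ kk i) (join y a) (join y' a') =
      db kB y y' + 2 ^ k0 * hammingDist a a' := by
  unfold dw db
  rw [Fintype.sum_sum_type, Fintype.sum_prod_type]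
  simp only [h1, h2, join, Sum.elim_inl, Sum.elim_inr]
  rw [dw_const]
  congr 1
  exact Finset.sum_congr rfl fun B _ => dw_const _ (y B) (y' B)

theorem off_le (H W W2 c : ℝ) (h1 : W2 ≤ W) (h2 : W ≤ W2 + c) :
    |2 * H - W2| ≤ |2 * H - W| + c := by
  have := le_abs_self (2 * H - W)
  have := neg_abs_le (2 * H - W)
  rw [abs_le]
  constructor <;> linarith

end RTIE

open RTIE

theorem st_TIE (hC : CHILD) (hG : GRP) : TIE := by
  intro ι E _ _ _ _ k H J k0 A v hR hk h0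
  obtain ⟨e, he, hm⟩ := hG ι (J + 1) (cls k univ J) (fun i => 2 ^ (k0 - i)) (cls_disj k univ J)
  have hke : ∀ x, k (e x) = x.1 := fun x => (mem_cls.1 (hm x)).2
  obtain ⟨A', v', hR', hd⟩ := hC ι _ (Σ i : Fin (J + 1), Fin (#(cls k univ J i) / 2 ^ (k0 - i)))
    E k H A v e (fun x => ⟨x.1, x.2.1⟩) (fun j => max j.1 k0) hR he (fun j => by
      simp only [hke]
      rw [sum_fib (fun i => #(cls k univ J i) / 2 ^ (k0 - i)) (fun i => 2 ^ (k0 - i))
        (fun i => 2 ^ (i : ℕ)) j, pow_max])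
  have hc : Fintype.card (Σ i : Fin (J + 1), Fin (#(cls k univ J i) / 2 ^ (k0 - i)))
      = ∑ i : Fin (J + 1), #(cls k univ J i) / 2 ^ (k0 - i) := by
    simp
  have hw := sum_sig (fun i : Fin (J + 1) => #(cls k univ J i) / 2 ^ (k0 - i))
    (fun i => 2 ^ max (i : ℕ) k0)
  have hv := sum_cls k univ J hk (fun i => 2 ^ i)
  refine ⟨_, inferInstance, inferInstance, _, A', v', hR', hd, fun j => ⟨le_max_right _ _,
    max_le (Nat.le_of_lt_succ j.1.2) h0⟩, ?_, ?_, ?_, ?_, ?_⟩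
  · have h1 := sum_cls k univ J hk (fun _ => 1)
    simp only [Finset.sum_const, smul_eq_mul, mul_one, Finset.card_univ] at h1
    rw [hc, h1]
    exact Finset.sum_le_sum fun i _ => Nat.div_le_self _ _
  · have h1 := sum_cls k univ J hk (fun i => if k0 ≤ i then 1 else 0)
    rw [hc, Finset.card_filter, h1]
    refine Finset.sum_le_sum fun i _ => ?_
    split_ifs with h
    · have : k0 - i = 0 := by omega
      rw [this]
      simp
    · simp
  · have h1 := sum_cls k univ J hk (fun i => if i = k0 then 1 else 0)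
    have h2 := sum_sig (fun i : Fin (J + 1) => #(cls k univ J i) / 2 ^ (k0 - i))
      (fun i => if max (i : ℕ) k0 = k0 then 1 else 0)
    rw [Finset.card_filter, Finset.card_filter, h1, h2]
    refine Finset.sum_le_sum fun i _ => ?_
    by_cases h : (i : ℕ) = k0
    · have : k0 - i = 0 := by omega
      rw [this, if_pos h, if_pos (by omega)]
      simp
    · rw [if_neg h]
      simp
  · rw [hw, hv]
    refine Finset.sum_le_sum fun i _ => ?_
    rw [← pow_max, ← mul_assoc]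
    exact Nat.mul_le_mul_right _ (Nat.div_mul_le_self _ _)
  · rw [hw, hv]
    have h3 : ∑ i : Fin (J + 1), (if (i : ℕ) < J then 2 ^ J else 0) = J * 2 ^ J := by
      rw [Fin.sum_univ_castSucc]
      simp
    rw [← h3, ← Finset.sum_add_distrib]
    exact Finset.sum_le_sum fun i _ => rem_le _ _ _ _ (Nat.le_of_lt_succ i.2) h0

theorem st_NFORM (hC : CHILD) (hG : GRP) (hT : TIE) (hP : PAR) : NFORM := by
  intro ι E _ _ _ _ k H s J k0 m A v hR hk h0 hJ hH hm
  obtain ⟨ι', _, _, k', A', v', hR', hd', hk', c1, c2, c3, c4, c5⟩ :=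
    hT ι E k H J k0 A v hR hk h0
  obtain ⟨R, hRs, hRc⟩ := Finset.exists_subset_card_eq (hm.trans c3)
  have hRk : ∀ a ∈ R, k' a = k0 := fun a ha => (mem_filter.1 (hRs ha)).2
  obtain ⟨e1, he1, hm1⟩ := hG ι' (J + 1) (cls k' Rᶜ J) (fun _ => 4) (cls_disj k' Rᶜ J)
  let β : Type := Σ i : Fin (J + 1), Fin (#(cls k' Rᶜ J i) / 4)
  let e : (β × Fin 4) ⊕ R → ι' := Sum.elim (fun p => e1 ⟨p.1.1, (p.1.2, p.2)⟩) Subtype.val
  have hn : ∀ x, e1 x ∉ R := fun x => mem_compl.1 (mem_cls.1 (hm1 x)).1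
  have he : Function.Injective e := by
    rintro (⟨⟨i, b⟩, c⟩ | a) (⟨⟨i', b'⟩, c'⟩ | a') h
    · have := he1 h
      cases this
      rfl
    · have h' : (a' : ι') = e1 ⟨i, (b, c)⟩ := h.symm
      exact absurd (h' ▸ a'.2) (hn _)
    · have h' : (a : ι') = e1 ⟨i', (b', c')⟩ := h
      exact absurd (h' ▸ a.2) (hn _)
    · exact congrArg Sum.inr (Subtype.ext h)
  have k1 : ∀ p : β × Fin 4, k' (e (Sum.inl p)) = p.1.1 := fun p => (mem_cls.1 (hm1 _)).2
  have k2 : ∀ a : R, k' (e (Sum.inr a)) = k0 := fun a => hRk a a.2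
  obtain ⟨A2, v2, hR2, hd2⟩ := hC ι' _ ((β × Fin 4) ⊕ R) E k' H A' v' e id (fun j => k' (e j))
    hR' he (fun j => by
      simp only [id]
      rw [Finset.filter_eq', if_pos (mem_univ _), Finset.sum_singleton])
  obtain ⟨A3, h3, hd3, hp3⟩ := hP _ (fun j => k' (e j)) k0 A2 (fun j => (hk' _).1)
  have hdw := dw_join (fun B : β => (B.1 : ℕ)) k0 (fun j => k' (e j)) k1 k2
  let I : Inst s J β R E :=
    { k0 := k0
      H := H
      kB := fun B => B.1
      A := fun y a => A3 (join y a)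
      v := fun y a => v2 (join y a)
      hJ := hJ
      hH := hH
      hk0 := h0
      hk := fun B => by
        rw [← k1 (B, 0)]
        exact hk' _
      ne := fun y a h => hR2.1 _ (h3 _ h)
      orth := fun y a y' a' h h' hh => hR2.2 _ _ (h3 _ h) (h3 _ h') (by rw [hdw, hh])
      par := fun y a y' a' h h' => by
        rw [← hdw]
        exact hp3 _ _ h h' }
  have hcR : Fintype.card R = m := by rw [Fintype.card_coe, hRc]
  have hcβ : Fintype.card β = ∑ i : Fin (J + 1), #(cls k' Rᶜ J i) / 4 := by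
    simp [β]
  have hkJ : ∀ x, k' x ≤ J := fun x => (hk' x).2
  refine ⟨β, R, inferInstance, inferInstance, inferInstance, inferInstance, I, hcR, ?_, ?_, ?_, ?_⟩
  · have : I.den = dens A3 := by
      unfold Inst.den dens
      rw [← ex_equiv (joinE β R), ex_prod]
      rfl
    rw [this]
    linarith
  · have h1 := sum_cls k' Rᶜ J hkJ (fun _ => 1)
    simp only [Finset.sum_const, smul_eq_mul, mul_one] at h1
    have h2 := Finset.card_add_card_compl R
    have h4 : ∑ i : Fin (J + 1), #(cls k' Rᶜ J i) ≤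
        ∑ i : Fin (J + 1), (4 * (#(cls k' Rᶜ J i) / 4) + 3) :=
      Finset.sum_le_sum fun i _ => by omega
    rw [Finset.sum_add_distrib, ← Finset.mul_sum, ← hcβ, Finset.sum_const, Finset.card_univ,
      Fintype.card_fin, smul_eq_mul] at h4
    omega
  · have h1 := Fintype.card_le_of_injective e he
    rw [Fintype.card_sum, Fintype.card_prod, Fintype.card_fin, hcR] at h1
    omega
  · have h1 := sum_cls k' Rᶜ J hkJ (fun i => 2 ^ i)
    have h2 := Finset.sum_add_sum_compl R (fun x => 2 ^ k' x)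
    have h4 : ∑ x ∈ R, 2 ^ k' x = 2 ^ k0 * m := by
      rw [Finset.sum_congr rfl (g := fun _ => 2 ^ k0) fun x hx => by rw [hRk x hx],
        Finset.sum_const, smul_eq_mul, hRc, mul_comm]
    have h5 : ∑ B : β, 4 * 2 ^ (B.1 : ℕ) =
        ∑ i : Fin (J + 1), #(cls k' Rᶜ J i) / 4 * (4 * 2 ^ (i : ℕ)) :=
      sum_sig (fun i : Fin (J + 1) => #(cls k' Rᶜ J i) / 4) (fun i => 4 * 2 ^ (i : ℕ))
    have h6 : ∑ i : Fin (J + 1), #(cls k' Rᶜ J i) / 4 * (4 * 2 ^ (i : ℕ)) ≤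
        ∑ i : Fin (J + 1), #(cls k' Rᶜ J i) * 2 ^ (i : ℕ) :=
      Finset.sum_le_sum fun i _ => by
        rw [← mul_assoc]
        exact Nat.mul_le_mul_right _ (Nat.div_mul_le_self _ _)
    have h7 : ∑ i : Fin (J + 1), #(cls k' Rᶜ J i) * 2 ^ (i : ℕ) ≤
        ∑ i : Fin (J + 1), (#(cls k' Rᶜ J i) / 4 * (4 * 2 ^ (i : ℕ)) + 3 * 2 ^ J) :=
      Finset.sum_le_sum fun i _ => by
        have a1 : 2 ^ (i : ℕ) ≤ 2 ^ J :=
          Nat.pow_le_pow_right (by norm_num) (Nat.le_of_lt_succ i.2)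
        have a2 : #(cls k' Rᶜ J i) ≤ #(cls k' Rᶜ J i) / 4 * 4 + 3 := by omega
        calc #(cls k' Rᶜ J i) * 2 ^ (i : ℕ)
            ≤ (#(cls k' Rᶜ J i) / 4 * 4 + 3) * 2 ^ (i : ℕ) := Nat.mul_le_mul_right _ a2
          _ = #(cls k' Rᶜ J i) / 4 * (4 * 2 ^ (i : ℕ)) + 3 * 2 ^ (i : ℕ) := by ring
          _ ≤ _ := Nat.add_le_add_left (Nat.mul_le_mul_left _ a1) _
    rw [Finset.sum_add_distrib, Finset.sum_const, Finset.card_univ, Fintype.card_fin,
      smul_eq_mul] at h7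
    have a : ∑ B : β, 4 * 2 ^ (B.1 : ℕ) + 2 ^ k0 * m ≤ ∑ i, 2 ^ k i := by omega
    have b : ∑ i, 2 ^ k i ≤ ∑ B : β, 4 * 2 ^ (B.1 : ℕ) + 2 ^ k0 * m + 4 * (J + 1) * 2 ^ J := by
      have : 4 * (J + 1) * 2 ^ J = (J + 1) * (3 * 2 ^ J) + J * 2 ^ J + 2 ^ J := by ring
      linarith [Nat.zero_le (2 ^ J)]
    unfold Inst.off
    rw [hcR]
    refine off_le _ _ _ _ ?_ ?_
    · exact_mod_cast a
    · exact_mod_cast b

end Pool.Agent.Lib.QX
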