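import Pool.Agent.Lib.QX.Kit

/-! The two-point inequality and its corollaries. -/

namespace Pool.Agent.Lib.QX

open Finset
open scoped BigOperators

namespace RTP

lemma cosh_bd (l : ℝ) : (1 + Real.exp (-l)) ^ 2 ≤ 4 * Real.exp (-l) * Real.exp (l ^ 2 / 4) := by
  have h1 := Real.cosh_le_exp_half_sq (l / 2)
  have h2 : Real.cosh (l / 2) ^ 2 ≤ Real.exp (l ^ 2 / 4) := by
    have : Real.exp (l ^ 2 / 4) = Real.exp ((l / 2) ^ 2 / 2) ^ 2 := by
      rw [← Real.exp_nat_mul]; congr 1; push_cast; ring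
    rw [this]
    exact pow_le_pow_left₀ (Real.cosh_pos _).le h1 2
  have h3 : Real.exp (-l) = Real.exp (-(l / 2)) * Real.exp (-(l / 2)) := by
    rw [← Real.exp_add]; congr 1; ring
  have h4 : Real.exp (l / 2) * Real.exp (-(l / 2)) = 1 := by
    rw [← Real.exp_add]; simp
  have h5 : (1 + Real.exp (-l)) ^ 2 = 4 * Real.exp (-l) * Real.cosh (l / 2) ^ 2 := by
    rw [Real.cosh_eq, h3]
    linear_combination (-(Real.exp (l / 2) * Real.exp (-(l / 2))) - 1 -
      2 * Real.exp (-(l / 2)) ^ 2) * h4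
  rw [h5]
  exact mul_le_mul_of_nonneg_left h2 (by positivity)

lemma one {X : Type} [Fintype X] [DecidableEq X] [Nonempty X] (F G : X → ℝ) (l C : ℝ)
    (hl : 0 ≤ l) (hC : 0 ≤ C) (hF : ∀ a, 0 ≤ F a) (hG : ∀ a, 0 ≤ G a)
    (h : ∀ a b, F a * G b ≤ C * Real.exp (l * if a = b then 0 else 1)) :
    (𝔼 a, F a) * (𝔼 a, G a) ≤ C * Real.exp (l ^ 2 / 4) := by
  obtain ⟨a0, -, h0⟩ := Finset.exists_max_image univ F univ_nonempty
  rcases (hF a0).eq_or_lt with hM | hM
  · have : 𝔼 a, F a ≤ 0 := ex_le fun a => hM ▸ h0 a (mem_univ a)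
    have h2 : 𝔼 a, F a = 0 := le_antisymm this (ex_nonneg hF)
    rw [h2, zero_mul]; positivity
  set M := F a0
  set ε := Real.exp (-l) with hε
  have hε0 : 0 < ε := Real.exp_pos _
  have hε1 : ε ≤ 1 := Real.exp_le_one_iff.2 (by linarith)
  let k : X → ℝ := fun b => max (F b / M) ε
  have k0 : ∀ b, ε ≤ k b := fun b => le_max_right _ _
  have k1 : ∀ b, k b ≤ 1 := fun b => max_le ((div_le_one hM).2 (h0 b (mem_univ b))) hε1
  have kp : ∀ b, 0 < k b := fun b => hε0.trans_le (k0 b)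
  have hFk : ∀ b, F b ≤ M * k b := fun b => by
    have : F b / M ≤ k b := le_max_left _ _
    rwa [div_le_iff₀ hM, mul_comm] at this
  have hGk : ∀ b, G b ≤ C / M * (k b)⁻¹ := fun b => by
    rw [← div_eq_mul_inv, le_div_iff₀ (kp b), le_div_iff₀ hM]
    rcases le_total (F b / M) ε with h1 | h1
    · have e1 : k b = ε := max_eq_right h1
      have h2 : M * G b ≤ C * Real.exp l := by
        refine (h a0 b).trans (mul_le_mul_of_nonneg_left (Real.exp_le_exp.2 ?_) hC)
        split_ifs <;> linarith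
      have h3 : Real.exp l * ε = 1 := by rw [hε, ← Real.exp_add]; simp
      rw [e1]
      calc G b * ε * M = M * G b * ε := by ring
        _ ≤ C * Real.exp l * ε := mul_le_mul_of_nonneg_right h2 hε0.le
        _ = C := by rw [mul_assoc, h3, mul_one]
    · have e1 : k b = F b / M := max_eq_left h1
      have h2 := h b b
      rw [if_pos rfl, mul_zero, Real.exp_zero, mul_one] at h2
      rw [e1, mul_assoc, div_mul_cancel₀ _ hM.ne', mul_comm]
      exact h2
  have hs : ∀ b, k b + ε * (k b)⁻¹ ≤ 1 + ε := fun b => by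
    have h1 := mul_nonneg (sub_nonneg.2 (k0 b)) (sub_nonneg.2 (k1 b))
    have h2 : k b * (k b)⁻¹ = 1 := mul_inv_cancel₀ (kp b).ne'
    have h3 := inv_pos.2 (kp b)
    refine le_of_mul_le_mul_left ?_ (kp b)
    nlinarith
  have e1 : 𝔼 a, F a ≤ M * 𝔼 a, k a := by rw [← ex_mul_left]; exact ex_mono hFk
  have e2 : 𝔼 a, G a ≤ C / M * 𝔼 a, (k a)⁻¹ := by rw [← ex_mul_left]; exact ex_mono hGk
  have e3 : 𝔼 a, k a + ε * 𝔼 a, (k a)⁻¹ ≤ 1 + ε := by
    rw [← ex_mul_left, ← ex_add]; exact ex_le hs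
  have p1 : 0 ≤ 𝔼 a, k a := ex_nonneg fun a => (kp a).le
  have p2 : 0 ≤ 𝔼 a, (k a)⁻¹ := ex_nonneg fun a => (inv_pos.2 (kp a)).le
  set u := 𝔼 a, k a
  set v := 𝔼 a, (k a)⁻¹
  have e4 : u * v ≤ Real.exp (l ^ 2 / 4) := by
    have h1 : (u + ε * v) ^ 2 ≤ (1 + ε) ^ 2 := pow_le_pow_left₀ (by positivity) e3 2
    have h2 := cosh_bd l
    refine le_of_mul_le_mul_left ?_ (show 0 < 4 * ε by positivity)
    nlinarith [sq_nonneg (u - ε * v)]
  calc (𝔼 a, F a) * (𝔼 a, G a) ≤ (M * u) * (C / M * v) :=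
        mul_le_mul e1 e2 (ex_nonneg hG) (by positivity)
    _ = C * (u * v) := by field_simp
    _ ≤ _ := mul_le_mul_of_nonneg_left e4 hC

lemma ex_cons {X : Type} [Fintype X] (n : ℕ) (f : (Fin (n + 1) → X) → ℝ) :
    𝔼 x, f x = 𝔼 a, 𝔼 x : Fin n → X, f (Fin.cons a x) := by
  rw [← ex_equiv (Fin.consEquiv fun _ : Fin (n + 1) => X) f, ex_prod]
  rfl

lemma fin {X : Type} [Fintype X] [DecidableEq X] [Nonempty X] (l : ℝ) (hl : 0 ≤ l) (n : ℕ) :
    ∀ (f g : (Fin n → X) → ℝ) (C : ℝ), 0 ≤ C → (∀ x, 0 ≤ f x) → (∀ x, 0 ≤ g x) →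
      (∀ x y, f x * g y ≤ C * Real.exp (l * ∑ i, if x i = y i then 0 else 1)) →
      (𝔼 x, f x) * (𝔼 x, g x) ≤ C * Real.exp (l ^ 2 * n / 4) := by
  induction n with
  | zero =>
    intro f g C _ _ _ h
    have := h default default
    simpa using this
  | succ n ih =>
    intro f g C hC hf hg h
    rw [ex_cons n f, ex_cons n g]
    have e1 : C * Real.exp (l ^ 2 * (n + 1 : ℕ) / 4) =
        C * Real.exp (l ^ 2 * n / 4) * Real.exp (l ^ 2 / 4) := by
      rw [mul_assoc, ← Real.exp_add]; congr 2; push_cast; ring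
    rw [e1]
    refine one _ _ l _ hl (by positivity) (fun a => ex_nonneg fun _ => hf _)
      (fun a => ex_nonneg fun _ => hg _) fun a b => ?_
    rw [mul_right_comm]
    refine ih _ _ _ (by positivity) (fun _ => hf _) (fun _ => hg _) fun x y => ?_
    refine (h _ _).trans_eq ?_
    rw [Fin.sum_univ_succ, mul_add, Real.exp_add, mul_assoc]
    rfl

lemma ham_eq {X ι : Type} [DecidableEq X] [Fintype ι] (x y : ι → X) :
    (hammingDist x y : ℝ) = ∑ i, if x i = y i then 0 else 1 := by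
  unfold hammingDist
  rw [Finset.card_filter]
  push_cast
  refine Finset.sum_congr rfl fun i _ => ?_
  by_cases h : x i = y i <;> simp [h]

lemma opt (r n : ℝ) : (r / n) ^ 2 * n - 2 * (r / n) * r = -(r ^ 2 / n) := by
  rcases eq_or_ne n 0 with h | h
  · simp [h]
  · field_simp; ring

lemma dw_cast {ι : Type} [Fintype ι] (w : ι → ℕ) (a x : ι → Bool) :
    (dw w a x : ℝ) = ∑ i, if a i = x i then 0 else (w i : ℝ) := by
  unfold dw
  push_cast
  rfl

lemma dw_lip {ι : Type} [Fintype ι] (w : ι → ℕ) (W : ℝ) (hW : ∀ i, (w i : ℝ) ≤ W)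
    (a x y : ι → Bool) : (dw w a y : ℝ) - dw w a x ≤ W * hammingDist x y := by
  rw [dw_cast, dw_cast, ham_eq, ← Finset.sum_sub_distrib, Finset.mul_sum]
  refine Finset.sum_le_sum fun i _ => ?_
  have h0 : (0 : ℝ) ≤ w i := Nat.cast_nonneg _
  have h1 := hW i
  by_cases h : x i = y i
  · simp [h]
  · rw [if_neg h]
    split_ifs <;> linarith

lemma dw_not {ι : Type} [Fintype ι] (w : ι → ℕ) (a x : ι → Bool) :
    (dw w a (fun i => !x i) : ℝ) = ∑ i, (w i : ℝ) - dw w a x := by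
  rw [dw_cast, dw_cast, ← Finset.sum_sub_distrib]
  refine Finset.sum_congr rfl fun i _ => ?_
  cases a i <;> cases x i <;> simp

lemma dens_flip {ι : Type} [Fintype ι] [DecidableEq ι] (A : (ι → Bool) → Prop) :
    dens (fun x : ι → Bool => A fun i => !x i) = dens A := by
  let e : (ι → Bool) ≃ (ι → Bool) :=
    { toFun := fun x i => !x i
      invFun := fun x i => !x i
      left_inv := fun x => by funext i; simp
      right_inv := fun x => by funext i; simp }
  exact ex_equiv e fun x => ind (A x)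

end RTP

theorem st_TP : TP := by
  intro X ι _ _ _ _ _ f g l hl hf hg h
  let e := Fintype.equivFin ι
  let E : (Fin (Fintype.card ι) → X) ≃ (ι → X) := Equiv.arrowCongr e.symm (Equiv.refl X)
  rw [← ex_equiv E f, ← ex_equiv E g]
  have := RTP.fin l hl (Fintype.card ι) (fun x => f (E x)) (fun x => g (E x)) 1 zero_le_one
    (fun _ => hf _) (fun _ => hg _) fun x y => ?_
  · rwa [one_mul] at this
  · rw [one_mul]
    refine (h _ _).trans_eq ?_
    rw [RTP.ham_eq, ← Equiv.sum_comp e]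
    rfl

theorem st_TP2 (hTP : TP) : TP2 := by
  intro X ι _ _ _ _ _ G G' r γ hγ h
  have := hTP X ι (fun x => ind (G x)) (fun x => Real.exp (2 * γ * r) * ind (G' x)) (2 * γ)
    (by positivity) (fun _ => ind_nonneg _)
    (fun _ => mul_nonneg (Real.exp_pos _).le (ind_nonneg _)) fun x y => ?_
  · rw [ex_mul_left] at this
    have e1 : (2 * γ) ^ 2 * (Fintype.card ι : ℝ) / 4 = γ ^ 2 * Fintype.card ι := by ring
    rw [e1] at this
    rw [Real.exp_sub, le_div_iff₀ (Real.exp_pos _)]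
    unfold dens
    linarith
  · by_cases h1 : G x
    · by_cases h2 : G' y
      · rw [ind_pos h1, ind_pos h2, one_mul, mul_one]
        exact Real.exp_le_exp.2 (mul_le_mul_of_nonneg_left (h x y h1 h2) (by positivity))
      · rw [ind_neg h2, mul_zero, mul_zero]; positivity
    · rw [ind_neg h1, zero_mul]; positivity

theorem st_NEAR (hTP2 : TP2) : NEAR := by
  intro X ι _ _ _ _ _ G r
  rw [← RTP.opt]
  refine hTP2 X ι G _ r _ (by positivity) fun x y hx hy => ?_
  have : ¬hammingDist y x ≤ r := fun h => hy ⟨x, hx, h⟩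
  rw [hammingDist_comm] at this
  exact_mod_cast (not_le.1 this).le

theorem st_TAIL (hTP2 : TP2) : TAIL := by
  intro ι _ _ w W n r a hW hw hn hr
  have hn0 : 0 ≤ n := (Nat.cast_nonneg _).trans hn
  set S := ∑ i, (w i : ℝ) with hS
  have half : 1 / 2 ≤ dens fun x => 2 * (dw w a x : ℝ) ≤ S := by
    have h1 := RTP.dens_flip fun x => 2 * (dw w a x : ℝ) ≤ S
    have h2 := dens_not fun x => 2 * (dw w a x : ℝ) ≤ S
    have h3 : dens (fun x => ¬2 * (dw w a x : ℝ) ≤ S) ≤
        dens fun x : ι → Bool => 2 * (dw w a (fun i => !x i) : ℝ) ≤ S := by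
      refine dens_mono fun x hx => ?_
      rw [RTP.dw_not]
      linarith [not_le.1 hx]
    linarith
  have up : dens (fun x => 2 * W * r < 2 * (dw w a x : ℝ) - S) ≤ 2 * Real.exp (-(r ^ 2 / n)) := by
    have h1 := hTP2 Bool ι (fun x => 2 * (dw w a x : ℝ) ≤ S)
      (fun x => 2 * W * r < 2 * (dw w a x : ℝ) - S) r (r / n) (by positivity) fun x y hx hy => by
        have h2 := RTP.dw_lip w W hw a x y
        have h3 : W * r < W * hammingDist x y := by linarith
        exact (lt_of_mul_lt_mul_left h3 hW).le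
    have h2 : Real.exp ((r / n) ^ 2 * Fintype.card ι - 2 * (r / n) * r) ≤
        Real.exp (-(r ^ 2 / n)) := by
      rw [← RTP.opt]
      exact Real.exp_le_exp.2 (by nlinarith [sq_nonneg (r / n)])
    have h3 := dens_nonneg fun x => 2 * W * r < 2 * (dw w a x : ℝ) - S
    nlinarith
  have dn : dens (fun x => 2 * W * r < -(2 * (dw w a x : ℝ) - S)) ≤
      2 * Real.exp (-(r ^ 2 / n)) := by
    refine le_trans (le_of_eq ?_) up
    rw [← RTP.dens_flip fun x => 2 * W * r < 2 * (dw w a x : ℝ) - S]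
    congr 1
    funext x
    rw [RTP.dw_not]
    congr 1
    ring
  have h4 := dens_or_le (fun x => 2 * W * r < 2 * (dw w a x : ℝ) - S)
    fun x => 2 * W * r < -(2 * (dw w a x : ℝ) - S)
  have h5 : dens (fun x => 2 * W * r < |2 * (dw w a x : ℝ) - S|) ≤ dens fun x =>
      2 * W * r < 2 * (dw w a x : ℝ) - S ∨ 2 * W * r < -(2 * (dw w a x : ℝ) - S) :=
    dens_mono fun x hx => lt_abs.1 hx
  linarith

end Pool.Agent.Lib.QX
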