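import Pool.Agent.Lib.QX.Kit

/-! Subspaces as vectors: the Hilbert-Schmidt norm of a difference of projections. -/

namespace Pool.Agent.Lib.QX

open Finset Module

namespace RTR

variable {E : Type} [NormedAddCommGroup E] [InnerProductSpace ℂ E] [FiniteDimensional ℂ E]

/-- the projection as an endomorphism -/
noncomputable def pr (U : Submodule ℂ E) : Module.End ℂ E := U.starProjection.toLinearMap

/-- the trace of a product of two projections -/
noncomputable def tt (U V : Submodule ℂ E) : ℝ := (LinearMap.trace ℂ E (pr U * pr V)).re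

lemma pr_le {U V : Submodule ℂ E} (h : U ≤ V) : pr U * pr V = pr U :=
  congrArg ContinuousLinearMap.toLinearMap (Submodule.starProjection_comp_starProjection_of_le h)

lemma pr_orth {U V : Submodule ℂ E} (h : U ⟂ V) : pr U * pr V = 0 :=
  congrArg ContinuousLinearMap.toLinearMap h.starProjection_comp_starProjection

lemma pr_perp (U : Submodule ℂ E) : pr Uᗮ = 1 - pr U :=
  congrArg ContinuousLinearMap.toLinearMap U.starProjection_orthogonal'

lemma tr_pr (U : Submodule ℂ E) : LinearMap.trace ℂ E (pr U) = finrank ℂ U :=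
  LinearMap.IsProj.trace ⟨U.starProjection_apply_mem, fun _ => Submodule.starProjection_eq_self_iff.2⟩

lemma tt_comm (U V : Submodule ℂ E) : tt U V = tt V U := by rw [tt, LinearMap.trace_mul_comm, tt]

lemma tt_le {U V : Submodule ℂ E} (h : U ≤ V) : tt U V = finrank ℂ U := by
  rw [tt, pr_le h, tr_pr, Complex.natCast_re]

lemma tt_inner (U V : Submodule ℂ E) : tt U V = ∑ i, (inner ℂ (pr U (stdOrthonormalBasis ℂ E i))
    (pr V (stdOrthonormalBasis ℂ E i))).re := by
  rw [tt, LinearMap.trace_eq_sum_inner _ (stdOrthonormalBasis ℂ E), Complex.re_sum]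
  exact sum_congr rfl fun i _ => congrArg _ (U.inner_starProjection_left_eq_right _ _).symm

lemma tt_norm (U V : Submodule ℂ E) :
    tt U V = ∑ i, ‖pr U (pr V (stdOrthonormalBasis ℂ E i))‖ ^ 2 := by
  have h : LinearMap.trace ℂ E (pr U * pr V) = LinearMap.trace ℂ E (pr V * (pr U * (pr U * pr V))) := by
    rw [LinearMap.trace_mul_comm ℂ (pr V), ← mul_assoc, pr_le le_rfl, mul_assoc, pr_le le_rfl]
  rw [tt, h, LinearMap.trace_eq_sum_inner _ (stdOrthonormalBasis ℂ E), Complex.re_sum]
  refine sum_congr rfl fun i _ => ?_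
  rw [@norm_sq_eq_re_inner ℂ]
  exact congrArg _ ((V.inner_starProjection_left_eq_right _ _).symm.trans
    (U.inner_starProjection_left_eq_right _ _).symm)

lemma tt_mono {U U' : Submodule ℂ E} (h : U ≤ U') (V : Submodule ℂ E) : tt U V ≤ tt U' V := by
  rw [tt_norm, tt_norm]
  refine sum_le_sum fun i _ => pow_le_pow_left₀ (norm_nonneg _) ?_ 2
  rw [← pr_le h]
  exact U.norm_starProjection_apply_le _

lemma tt_perp {U V : Submodule ℂ E} (h : U ⟂ V) :
    tt Uᗮ Vᗮ = (finrank ℂ E : ℝ) - finrank ℂ U - finrank ℂ V := by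
  rw [tt, pr_perp, pr_perp, mul_sub, mul_one, sub_mul, one_mul, pr_orth h, sub_zero, map_sub,
    map_sub, tr_pr, tr_pr, LinearMap.trace_one]
  simp

/-- the vector of a subspace -/
noncomputable def vec (U : Submodule ℂ E) : PiLp 2 fun _ : Fin (finrank ℂ E) => E :=
  WithLp.toLp 2 fun i => pr U (stdOrthonormalBasis ℂ E i)

lemma norm_vec (U V : Submodule ℂ E) :
    ‖vec U - vec V‖ ^ 2 = finrank ℂ U + finrank ℂ V - 2 * tt U V := by
  rw [← tt_le (le_refl U), ← tt_le (le_refl V), tt_inner, tt_inner, tt_inner,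
    PiLp.norm_sq_eq_of_L2, mul_sum, ← sum_add_distrib, ← sum_sub_distrib]
  refine sum_congr rfl fun i _ => ?_
  rw [PiLp.sub_apply, @norm_sub_sq ℂ, @norm_sq_eq_re_inner ℂ, @norm_sq_eq_re_inner ℂ]
  simp only [vec, RCLike.re_to_complex]
  ring

end RTR

open RTR in
theorem st_TR : TR := by
  intro E _ _ _
  refine ⟨PiLp 2 fun _ : Fin (finrank ℂ E) => E, inferInstance, InnerProductSpace.complexToReal,
    vec, fun U U' h => ?_, fun U U' W1 W2 h1 h2 h3 => ?_⟩
  · rw [norm_vec, tt_comm, tt_le h]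
    ring
  · have h4 := tt_mono h1.le U'
    have h5 := tt_mono h2.le W1ᗮ
    rw [tt_comm U', tt_comm W2ᗮ, tt_perp h3] at h5
    rw [norm_vec]
    linarith

end Pool.Agent.Lib.QX
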