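import Pool.Agent.Lib.QX.Kit

/-! The Welch bound and a heavy cap. -/

namespace Pool.Agent.Lib.QX

open Finset
open scoped BigOperators ComplexConjugate

namespace RWEL

theorem base {X A : Type} [Fintype X] (S : Finset A) (a : X → A → ℂ)
    (h : ∀ x, ∑ α ∈ S, ‖a x α‖ ^ 2 = 1) :
    (Fintype.card X : ℝ) ^ 2 ≤ #S * ∑ x, ∑ y, ‖∑ α ∈ S, conj (a x α) * a y α‖ ^ 2 := by
  have e1 : ∑ x, ∑ y, ‖∑ α ∈ S, conj (a x α) * a y α‖ ^ 2
      = ∑ α ∈ S, ∑ β ∈ S, ‖∑ y, a y α * conj (a y β)‖ ^ 2 := by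
    apply Complex.ofReal_injective
    push_cast
    simp only [← Complex.conj_mul', map_sum, map_mul, Complex.conj_conj, sum_mul_sum]
    calc _ = ∑ x, ∑ α ∈ S, ∑ y, ∑ β ∈ S, a x α * conj (a y α) * (conj (a x β) * a y β) :=
          sum_congr rfl fun x _ => sum_comm
      _ = ∑ α ∈ S, ∑ x, ∑ β ∈ S, ∑ y, a x α * conj (a y α) * (conj (a x β) * a y β) := by
          rw [sum_comm]
          exact sum_congr rfl fun α _ => sum_congr rfl fun x _ => sum_comm
      _ = _ := by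
          refine sum_congr rfl fun α _ => ?_
          rw [sum_comm]
          refine sum_congr rfl fun β _ => ?_
          rw [sum_comm]
          exact sum_congr rfl fun y _ => sum_congr rfl fun x _ => by ring
  have e2 : (Fintype.card X : ℝ) = ∑ α ∈ S, ∑ y, ‖a y α‖ ^ 2 := by
    rw [sum_comm]
    simp [h]
  rw [e1, e2]
  refine sq_sum_le_card_mul_sum_sq.trans (mul_le_mul_of_nonneg_left
    (sum_le_sum fun α hα => ?_) (Nat.cast_nonneg _))
  refine le_trans (le_of_eq ?_) (single_le_sum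
    (f := fun β => ‖∑ y, a y α * conj (a y β)‖ ^ 2) (fun _ _ => sq_nonneg _) hα)
  have : ∑ y, a y α * conj (a y α) = ((∑ y, ‖a y α‖ ^ 2 : ℝ) : ℂ) := by
    push_cast
    simp only [Complex.mul_conj']
  rw [this, Complex.norm_real, Real.norm_eq_abs, sq_abs]

theorem count (ι : Type) [Fintype ι] [DecidableEq ι] (k : ℕ) {z : ℝ} (h0 : 0 < z) (h1 : z < 1) :
    z ^ k * (1 - z) ^ Fintype.card ι * #(piAntidiag (univ : Finset ι) k) ≤ 1 := by
  have e1 : z ^ k * #(piAntidiag (univ : Finset ι) k)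
      = ∑ α ∈ piAntidiag (univ : Finset ι) k, ∏ i, z ^ α i := by
    rw [sum_congr rfl (g := fun _ => z ^ k) fun α hα => by
      rw [prod_pow_eq_pow_sum, (mem_piAntidiag.1 hα).1]]
    simp [mul_comm]
  have e2 : ∑ α ∈ piAntidiag (univ : Finset ι) k, ∏ i, z ^ α i
      ≤ ∑ α ∈ Fintype.piFinset fun _ : ι => range (k + 1), ∏ i, z ^ α i := by
    refine sum_le_sum_of_subset_of_nonneg (fun α hα => ?_) fun _ _ _ => by positivity
    refine Fintype.mem_piFinset.2 fun i => mem_range.2 (Nat.lt_succ_of_le ?_)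
    rw [← (mem_piAntidiag.1 hα).1]
    exact single_le_sum (fun _ _ => Nat.zero_le _) (mem_univ i)
  rw [← prod_univ_sum (fun _ : ι => range (k + 1)) fun _ j => z ^ j, prod_const, card_univ] at e2
  have h2 : 0 ≤ 1 - z := by linarith
  calc _ = z ^ k * #(piAntidiag (univ : Finset ι) k) * (1 - z) ^ Fintype.card ι := by ring
    _ ≤ (∑ j ∈ range (k + 1), z ^ j) ^ Fintype.card ι * (1 - z) ^ Fintype.card ι := by
      rw [e1]
      exact mul_le_mul_of_nonneg_right e2 (pow_nonneg h2 _)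
    _ ≤ 1 := by
      rw [← mul_pow, geom_sum_mul_neg]
      refine pow_le_one₀ (sub_nonneg.2 (pow_le_one₀ h0.le h1.le)) (sub_le_self _ (by positivity))

theorem num {t : ℝ} (h0 : 0 < t) (h1 : t ≤ 1) (d : ℕ) :
    ∃ k : ℕ, k ≠ 0 ∧ Real.exp (-(3 * d * Real.log (2 / t) + 4))
      ≤ (1 - t / 2) ^ k * (1 - (1 - t / 2)) ^ d - (1 - t) ^ k := by
  set L := Real.log (2 / t) with hL
  have hL0 : 0 ≤ L := Real.log_nonneg (by rw [le_div_iff₀ h0]; linarith)
  have hp : 0 < 2 * (d * L + 1) / t := by positivity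
  set k := ⌈2 * (d * L + 1) / t⌉₊ with hk
  have k1 : 2 * (d * L + 1) ≤ k * t := (div_le_iff₀ h0).1 (Nat.le_ceil _)
  have k2 : k * t ≤ 2 * (d * L + 1) + t := by
    have := (Nat.ceil_lt_add_one hp.le).le
    rw [← hk, div_add_one h0.ne', le_div_iff₀ h0] at this
    exact this
  refine ⟨k, (Nat.ceil_pos.2 hp).ne', ?_⟩
  have z0 : 0 ≤ 1 - t / 2 := by linarith
  have a1 : (1 - t) ^ k ≤ (1 - t / 2) ^ k * (1 - t / 2) ^ k := by
    rw [← mul_pow]
    exact pow_le_pow_left₀ (by linarith) (by nlinarith) k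
  have a2 : (1 - (1 - t / 2)) ^ d = Real.exp (-(d * L)) := by
    rw [← mul_neg, Real.exp_nat_mul, hL, ← Real.log_inv, Real.exp_log (by positivity)]
    congr 1
    field_simp
    ring
  have a3 : (1 - t / 2) ^ k ≤ Real.exp (-(d * L)) * Real.exp (-1) := by
    calc _ ≤ Real.exp (-(t / 2)) ^ k :=
          pow_le_pow_left₀ z0 (by linarith [Real.add_one_le_exp (-(t / 2))]) k
      _ ≤ _ := by
          rw [← Real.exp_nat_mul, ← Real.exp_add]
          exact Real.exp_le_exp.2 (by linarith)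
  have a4 : Real.exp (-(2 * (d * L) + 3)) ≤ (1 - t / 2) ^ k := by
    calc _ ≤ Real.exp (-t) ^ k := by
          rw [← Real.exp_nat_mul]
          exact Real.exp_le_exp.2 (by linarith)
      _ ≤ _ := by
          refine pow_le_pow_left₀ (Real.exp_pos _).le ?_ k
          rw [Real.exp_neg, inv_le_iff_one_le_mul₀ (Real.exp_pos _)]
          nlinarith [Real.add_one_le_exp t]
  have a5 : Real.exp (-1) ≤ 1 / 2 := by
    rw [Real.exp_neg, inv_le_iff_one_le_mul₀ (Real.exp_pos _)]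
    linarith [Real.add_one_le_exp (1 : ℝ)]
  have a6 : Real.exp (-(3 * d * L + 4))
      = Real.exp (-(2 * (d * L) + 3)) * (Real.exp (-(d * L)) * Real.exp (-1)) := by
    rw [← Real.exp_add, ← Real.exp_add]
    congr 1
    ring
  have a7 : Real.exp (-(d * L)) * Real.exp (-1) ≤ Real.exp (-(d * L)) - (1 - t / 2) ^ k := by
    nlinarith [Real.exp_pos (-(d * L))]
  rw [a6, a2]
  calc _ ≤ (1 - t / 2) ^ k * (Real.exp (-(d * L)) - (1 - t / 2) ^ k) :=
        mul_le_mul a4 a7 (by positivity) (pow_nonneg z0 _)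
    _ ≤ _ := by linarith

theorem dens_sub {X : Type} [Fintype X] (A B : X → Prop) [DecidablePred A] (h : ∃ x, A x) :
    dens (fun x => A x ∧ B x) = dens (fun x : {x // A x} => B x.1) * dens A := by
  have h0 : (Fintype.card {x // A x} : ℝ) ≠ 0 := by
    obtain ⟨x, hx⟩ := h
    have : Nonempty {x // A x} := ⟨⟨x, hx⟩⟩
    exact Nat.cast_ne_zero.2 Fintype.card_ne_zero
  rw [dens_eq_card A, ← Fintype.card_subtype]
  unfold dens
  rw [Fintype.expect_eq_sum_div_card, Fintype.expect_eq_sum_div_card,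
    ← sum_subtype (univ.filter A) (by simp) fun x => ind (B x), sum_filter]
  simp only [ind_and, ind_eq_ite (A _), ite_mul, one_mul, zero_mul]
  field_simp

end RWEL

open RWEL

theorem st_WEL : WEL := by
  intro X E _ _ _ _ _ e k z he h0 h1
  set b := stdOrthonormalBasis ℂ E
  set S := piAntidiag (univ : Finset (Fin (Module.finrank ℂ E))) k with hS
  set a : X → (Fin (Module.finrank ℂ E) → ℕ) → ℂ := fun x α =>
    (√(Nat.multinomial univ α) : ℝ) * ∏ i, inner ℂ (b i) (e x) ^ α i with ha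
  have e1 : ∀ x y, ∑ α ∈ S, conj (a x α) * a y α = inner ℂ (e x) (e y) ^ k := by
    intro x y
    rw [← b.sum_inner_mul_inner, sum_pow_eq_sum_piAntidiag]
    refine sum_congr rfl fun α _ => ?_
    simp only [ha, map_mul, map_prod, map_pow, Complex.conj_ofReal, inner_conj_symm, mul_pow,
      prod_mul_distrib]
    rw [mul_mul_mul_comm, ← Complex.ofReal_mul, Real.mul_self_sqrt (Nat.cast_nonneg _),
      Complex.ofReal_natCast]
  have e2 : ∀ x, ∑ α ∈ S, ‖a x α‖ ^ 2 = 1 := by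
    intro x
    apply Complex.ofReal_injective
    push_cast
    simp only [← Complex.conj_mul', e1]
    rw [inner_self_eq_norm_sq_to_K, he]
    simp
  have e3 := base S a e2
  have e4 := count (Fin (Module.finrank ℂ E)) k h0 h1
  simp only [e1, norm_pow, ← pow_mul, mul_comm k 2] at e3
  rw [Fintype.card_fin, ← hS] at e4
  have hN : (0 : ℝ) < Fintype.card X := Nat.cast_pos.2 Fintype.card_pos
  simp only [Fintype.expect_eq_sum_div_card, ← sum_div]
  rw [div_div, le_div_iff₀ (by positivity), ← sq]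
  have h2 : 0 ≤ z ^ k * (1 - z) ^ Module.finrank ℂ E :=
    mul_nonneg (by positivity) (pow_nonneg (by linarith) _)
  refine (mul_le_mul_of_nonneg_left e3 h2).trans ?_
  rw [← mul_assoc]
  exact mul_le_of_le_one_left (by positivity) e4

theorem st_CAP (hW : WEL) : CAP := by
  intro X E _ _ _ _ A v t hv hA h0 h1
  classical
  have : Nonempty {x // A x} := let ⟨x, hx⟩ := hA; ⟨⟨x, hx⟩⟩
  set e : {x // A x} → E := fun x => ((‖v x.1‖ : ℂ))⁻¹ • v x.1 with hev
  have hn : ∀ x : {x // A x}, 0 < ‖v x.1‖ := fun x => norm_pos_iff.2 (hv _ x.2)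
  have he : ∀ x, ‖e x‖ = 1 := fun x => by
    simp only [hev, norm_smul, norm_inv, Complex.norm_real, norm_norm]
    exact inv_mul_cancel₀ (hn x).ne'
  obtain ⟨k, hk, hnum⟩ := num h0 h1 (Module.finrank ℂ E)
  have h2 := hW _ E e k (1 - t / 2) he (by linarith) (by linarith)
  rw [ex_comm] at h2
  obtain ⟨y, hy⟩ := exists_ge_ex fun y => 𝔼 x, ‖inner ℂ (e x) (e y)‖ ^ (2 * k)
  refine ⟨e y, he y, ?_⟩
  rw [dens_sub A _ hA]
  refine mul_le_mul_of_nonneg_right ?_ (dens_nonneg A)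
  have h3 := dens_ge_of_ex (f := fun x => ‖inner ℂ (e x) (e y)‖ ^ (2 * k))
    (pow_nonneg (sub_nonneg.2 h1) k) fun x => pow_le_one₀ (norm_nonneg _)
      ((norm_inner_le_norm _ _).trans (by rw [he, he, mul_one]))
  refine le_trans (by linarith) (h3.trans (dens_mono fun x hx => ?_))
  rw [pow_mul, pow_le_pow_iff_left₀ (sub_nonneg.2 h1) (sq_nonneg _) hk] at hx
  have h4 : ‖inner ℂ (e x) (e y)‖ = ‖v x.1‖⁻¹ * ‖inner ℂ (v x.1) (e y)‖ := by
    conv_lhs => rw [hev]
    simp only [inner_smul_left, norm_mul, map_inv₀, Complex.conj_ofReal, norm_inv,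
      Complex.norm_real, norm_norm]
    rfl
  rw [h4, mul_pow, inv_pow, ← div_eq_inv_mul, le_div_iff₀ (pow_pos (hn x) 2)] at hx
  exact hx

end Pool.Agent.Lib.QX
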