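import Pool.Agent.Lib.QX.R_AN
import Pool.Agent.Lib.QX.R_ASC
import Pool.Agent.Lib.QX.R_CHILD
import Pool.Agent.Lib.QX.R_CORE
import Pool.Agent.Lib.QX.R_DN
import Pool.Agent.Lib.QX.R_FL
import Pool.Agent.Lib.QX.R_FR
import Pool.Agent.Lib.QX.R_FRI
import Pool.Agent.Lib.QX.R_LAM
import Pool.Agent.Lib.QX.R_PAIR
import Pool.Agent.Lib.QX.R_PL
import Pool.Agent.Lib.QX.R_POIN
import Pool.Agent.Lib.QX.R_POS
import Pool.Agent.Lib.QX.R_POS1
import Pool.Agent.Lib.QX.R_PUSH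
import Pool.Agent.Lib.QX.R_RUSSO
import Pool.Agent.Lib.QX.R_SEL
import Pool.Agent.Lib.QX.R_TIE
import Pool.Agent.Lib.QX.R_TP
import Pool.Agent.Lib.QX.R_TR
import Pool.Agent.Lib.QX.R_WEL
import Pool.Agent.Lib.QX.Fin

namespace Pool.Agent.Lib.QX

theorem tp2 : TP2 := st_TP2 st_TP
theorem near : NEAR := st_NEAR tp2
theorem tail : TAIL := st_TAIL tp2
theorem fr : FR := st_FR (st_FRI tp2) tail
theorem dn : DN := st_DN fr tail
theorem tie : TIE := st_TIE st_CHILD st_GRP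
theorem pos : POS := st_POS (st_POS1 (st_CAP st_WEL) st_WEL tail) tie st_PAR fr
theorem an : AN := st_AN st_POIN st_RUSSO (st_MUP st_PUSH)
theorem core : CORE := st_CORE (st_PAIR near st_ORT st_FL) st_FL (st_SDEQ st_PUSH) st_TR an
theorem ascn : ASCN :=
  st_ASCN fr dn st_CNT (st_SEL1 near (st_PLR st_LAM)) (st_SEL2 st_LAM st_ORT) core
theorem asc : ASC := st_ASC (st_NFORM st_CHILD st_GRP tie st_PAR) ascn
theorem main : MAIN := st_MAIN pos asc

end Pool.Agent.Lib.QX
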