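import Pool.Agent.Lib.QX.Kit

/-! Integrality of the rank jumps. -/

namespace Pool.Agent.Lib.QX

open Finset
open scoped BigOperators

namespace RAN

theorem cnt_le {β : Type} [Fintype β] (t : β → Bool) : (cnt t : ℝ) ≤ Fintype.card β := by
  unfold cnt
  exact_mod_cast Finset.card_le_univ _

theorem ham_le {β : Type} [Fintype β] [DecidableEq β] (t s : β → Bool) :
    (hammingDist t s : ℝ) ≤ Fintype.card β := by
  exact_mod_cast hammingDist_le_card_fintype

theorem norm_le_sq {x : ℝ} {a c : ℕ} (hx : 0 ≤ x) (h : x ^ 2 = (a : ℝ) - c) : x ≤ x ^ 2 := by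
  rcases le_or_gt a c with hac | hac
  · have h1 : (a : ℝ) ≤ c := by exact_mod_cast hac
    have h2 : x ^ 2 = 0 := le_antisymm (by linarith) (sq_nonneg x)
    have h3 : x = 0 := by simpa using h2
    simp [h3]
  · have h1 : (c : ℝ) + 1 ≤ a := by exact_mod_cast hac
    have h2 : 1 ≤ x := by
      by_contra hc
      push Not at hc
      nlinarith
    nlinarith

theorem gam_le {X W : Type} [Fintype X] [NormedAddCommGroup W] [NormedSpace ℝ W]
    (μ : X → ℝ) (q : X → W) (h0 : ∀ x, 0 ≤ μ x) (h1 : ∑ x, μ x = 1)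
    (hq : ∀ x, ‖q x‖ ≤ ‖q x‖ ^ 2) :
    ‖∑ x, μ x • q x‖ ^ 2 ≤ ∑ x, μ x * ‖q x‖ ^ 2 ∧
      ‖∑ x, μ x • q x‖ ^ 2 ≤ (∑ x, μ x * ‖q x‖ ^ 2) ^ 2 := by
  have ha : ‖∑ x, μ x • q x‖ ≤ ∑ x, μ x * ‖q x‖ := by
    refine (norm_sum_le _ _).trans (le_of_eq ?_)
    refine Finset.sum_congr rfl fun x _ => ?_
    rw [norm_smul, Real.norm_of_nonneg (h0 x)]
  set m := ∑ x, μ x * ‖q x‖ with hm
  have hb : m ≤ ∑ x, μ x * ‖q x‖ ^ 2 :=
    Finset.sum_le_sum fun x _ => mul_le_mul_of_nonneg_left (hq x) (h0 x)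
  have hc : m ^ 2 ≤ ∑ x, μ x * ‖q x‖ ^ 2 := by
    have h2 : 0 ≤ ∑ x, μ x * (‖q x‖ - m) ^ 2 :=
      Finset.sum_nonneg fun x _ => mul_nonneg (h0 x) (sq_nonneg _)
    have h3 : ∑ x, μ x * (‖q x‖ - m) ^ 2 =
        ∑ x, μ x * ‖q x‖ ^ 2 - 2 * m * ∑ x, μ x * ‖q x‖ + m ^ 2 * ∑ x, μ x := by
      rw [Finset.mul_sum univ _ (2 * m), Finset.mul_sum univ _ (m ^ 2), ← Finset.sum_sub_distrib,
        ← Finset.sum_add_distrib]
      exact Finset.sum_congr rfl fun x _ => by ring
    rw [h3, h1, ← hm] at h2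
    nlinarith
  have hn := norm_nonneg (∑ x, μ x • q x)
  constructor
  · nlinarith
  · exact pow_le_pow_left₀ hn (ha.trans hb) 2

theorem arith {φ δ e b w S G SZ z : ℝ} (hφ : 0 < φ) (hδ : 0 < δ) (hφδ : φ ≤ 1 - δ) (he : 0 ≤ e)
    (hb : 0 ≤ b) (hz : 0 ≤ z) (hw : 3 / 16 ≤ w) (h3 : S ≤ φ * b + 4 * e)
    (h4 : 2 * w * φ * b - e ≤ w * (S + G)) (h6 : w * φ * z / 2 - e ≤ 2 * w * SZ)
    (hZ : (b - z) * (1 - δ / 2) ≤ S) (hD : δ / 2 * SZ ≤ S - G) :
    δ ^ 2 * φ * b / 256 ≤ e := by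
  have hX : 2 * φ * b - (S + G) ≤ 16 / 3 * e := by
    by_contra hc
    push Not at hc
    nlinarith
  have hY : φ * z / 4 - SZ ≤ 8 / 3 * e := by
    by_contra hc
    push Not at hc
    nlinarith
  have hz2 : δ * b / 2 - 4 * e ≤ z := by nlinarith [mul_nonneg hδ.le hz, mul_nonneg hδ.le hb]
  have h7 : φ * (δ * b / 2 - 4 * e) ≤ φ * z := mul_le_mul_of_nonneg_left hz2 hφ.le
  have h8 : φ * e ≤ e := by nlinarith
  have h9 : φ * δ * b / 8 - 11 / 3 * e ≤ SZ := by nlinarith
  have h10 : δ / 2 * (φ * δ * b / 8 - 11 / 3 * e) ≤ δ / 2 * SZ :=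
    mul_le_mul_of_nonneg_left h9 (by linarith)
  have h11 : δ * e ≤ e := by nlinarith
  nlinarith

section
variable {β : Type} [Fintype β] [DecidableEq β]

theorem sum2_fst {p : ℝ} (h1 : ∑ t : β → Bool, mu p t = 1) (G : (β → Bool) → ℝ) :
    ∑ t, ∑ s : β → Bool, mu p t * mu p s * G t = ∑ t, mu p t * G t := by
  refine Finset.sum_congr rfl fun t _ => ?_
  have : ∀ s : β → Bool, mu p t * mu p s * G t = (mu p t * G t) * mu p s := fun s => by ring
  simp only [this]
  rw [← Finset.mul_sum, h1, mul_one]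

theorem sum2_le {p : ℝ} (h0 : 0 ≤ p) (h1 : p ≤ 1) {f g : (β → Bool) → (β → Bool) → ℝ}
    (h : ∀ t s, f t s ≤ g t s) :
    ∑ t, ∑ s, mu p t * mu p s * f t s ≤ ∑ t, ∑ s, mu p t * mu p s * g t s :=
  Finset.sum_le_sum fun t _ => Finset.sum_le_sum fun s _ =>
    mul_le_mul_of_nonneg_left (h t s) (mul_nonneg (mu_nonneg h0 h1 t) (mu_nonneg h0 h1 s))

theorem sum2_lin (p a c d : ℝ) (f g1 g2 g3 : (β → Bool) → (β → Bool) → ℝ) :
    ∑ t, ∑ s, mu p t * mu p s * (a * f t s - c - d * (g1 t s + g2 t s + g3 t s)) =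
      a * ∑ t, ∑ s, mu p t * mu p s * f t s - c * ∑ t : β → Bool, ∑ s : β → Bool, mu p t * mu p s * 1 -
        d * (∑ t, ∑ s, mu p t * mu p s * g1 t s + ∑ t, ∑ s, mu p t * mu p s * g2 t s +
          ∑ t, ∑ s, mu p t * mu p s * g3 t s) := by
  simp only [Finset.mul_sum, ← Finset.sum_sub_distrib, ← Finset.sum_add_distrib]
  exact Finset.sum_congr rfl fun t _ => Finset.sum_congr rfl fun s _ => by ring

theorem sum1_lin (p a c d : ℝ) (f g : (β → Bool) → ℝ) :
    ∑ t, mu p t * (a * f t + c + d * g t) =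
      a * ∑ t, mu p t * f t + c * ∑ t : β → Bool, mu p t + d * ∑ t, mu p t * g t := by
  simp only [Finset.mul_sum, ← Finset.sum_add_distrib]
  exact Finset.sum_congr rfl fun t _ => by ring

theorem mix_univ (t s : β → Bool) : mix univ t s = s := by
  funext B
  simp [mix]

end

end RAN

open RAN in
theorem st_AN (hP : POIN) (hR : RUSSO) (hM : MUP) : AN := by
  intro β W _ _ _ _ F r Good φ δ η θ hφ hδ hφδ hη hθ hq hbad hlo hup h5 hb hc
  set b : ℝ := (Fintype.card β : ℝ) with hbdef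
  have hb0 : 0 ≤ b := by positivity
  have hφb : 0 ≤ φ * b := by positivity
  obtain ⟨p, hp1, hp2, hp⟩ := hR β (fun u => (r u : ℝ))
  have hp0 : 0 ≤ p := by linarith
  have hp3 : p ≤ 1 := by linarith
  have hbet : ∀ B, bet p F B = ∑ t, mu p t * dF (fun u => (r u : ℝ)) B t := fun B => by
    unfold bet
    exact Finset.sum_congr rfl fun t _ => by rw [hq]
  -- the two means of the rank
  have hU : ∑ t, mu (3 / 4) t * (r t : ℝ) ≤ φ * (b + 3 / 4 * b) + η + 4 * φ * b * θ := by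
    have h1 : ∑ t, mu (3 / 4) t * (r t : ℝ) ≤
        ∑ t, mu (3 / 4) t * (φ * cnt t + (φ * b + η) + 4 * φ * b * ind (¬ Good t)) := by
      refine Finset.sum_le_sum fun t _ => mul_le_mul_of_nonneg_left ?_
        (mu_nonneg (by norm_num) (by norm_num) t)
      by_cases hg : Good t
      · rw [ind_neg (not_not.2 hg)]; have := hup t hg; linarith
      · rw [ind_pos hg]
        have := h5 t
        have h2 : 0 ≤ φ * cnt t := by positivity
        linarith
    rw [sum1_lin, (hM β (3 / 4)).1, (hM β (3 / 4)).2.1] at h1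
    have h2 := mul_le_mul_of_nonneg_left (hbad (3 / 4) (by norm_num) (by norm_num))
      (show 0 ≤ 4 * φ * b by positivity)
    linarith
  have hL : φ * (b + 1 / 4 * b) - η - 2 * φ * b * θ ≤ ∑ t, mu (1 / 4) t * (r t : ℝ) := by
    have h1 : ∑ t, mu (1 / 4) t * (φ * cnt t + (φ * b - η) + (-(2 * φ * b)) * ind (¬ Good t)) ≤
        ∑ t, mu (1 / 4) t * (r t : ℝ) := by
      refine Finset.sum_le_sum fun t _ => mul_le_mul_of_nonneg_left ?_
        (mu_nonneg (by norm_num) (by norm_num) t)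
      by_cases hg : Good t
      · rw [ind_neg (not_not.2 hg)]; have := hlo t hg; linarith
      · rw [ind_pos hg]
        have h2 : φ * cnt t ≤ φ * b := mul_le_mul_of_nonneg_left (cnt_le t) hφ.le
        have h3 : (0 : ℝ) ≤ r t := by positivity
        linarith
    rw [sum1_lin, (hM β (1 / 4)).1, (hM β (1 / 4)).2.1] at h1
    have h2 := mul_le_mul_of_nonneg_left (hbad (1 / 4) (by norm_num) (by norm_num))
      (show 0 ≤ 2 * φ * b by positivity)
    linarith
  have hθb : 0 ≤ θ * φ * b := by positivity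
  have h3 : ∑ B, bet p F B ≤ φ * b + 4 * (η + 4 * θ * φ * b) := by
    simp only [hbet]
    rw [hp]
    linarith
  obtain ⟨m1, -, m3, m4, m5⟩ := hM β p
  have hone : ∑ t : β → Bool, ∑ s : β → Bool, mu p t * mu p s * 1 = 1 := by
    rw [sum2_fst m1 (fun _ => 1)]
    simpa using m1
  have hg1 : ∑ t, ∑ s : β → Bool, mu p t * mu p s * ind (¬ Good t) ≤ θ := by
    rw [sum2_fst m1]; exact hbad p hp0 hp3
  have hg2 : ∀ Z : Finset β,
      ∑ t, ∑ s : β → Bool, mu p t * mu p s * ind (¬ Good (mix Z t s)) ≤ θ := fun Z => by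
    rw [m3 Z (fun u => ind (¬ Good u))]; exact hbad p hp0 hp3
  have hg3 : ∑ t, ∑ s : β → Bool, mu p t * mu p s * ind (¬ Good (sdf t s)) ≤ θ := by
    rw [m4 (fun u => ind (¬ Good u))]
    exact hbad _ (mul_nonneg hp0 (by linarith)) (by nlinarith)
  obtain ⟨P1, P2⟩ := hP β W p F hp0 hp3
  -- independent pairs
  have h4 : 2 * (p * (1 - p)) * φ * b - (η + 4 * θ * φ * b) ≤
      p * (1 - p) * (∑ B, bet p F B + ∑ B, gam p F B) := by
    have h1 := sum2_le hp0 hp3 (β := β)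
      (f := fun t s => φ * hammingDist t s - η - φ * b *
        (ind (¬ Good t) + ind (¬ Good s) + ind (¬ Good (sdf t s))))
      (g := fun t s => ‖F t - F s‖ ^ 2) (fun t s => by
        have n1 := ind_nonneg (¬ Good t)
        have n2 := ind_nonneg (¬ Good s)
        have n3 := ind_nonneg (¬ Good (sdf t s))
        have n4 := sq_nonneg ‖F t - F s‖
        have n5 : φ * hammingDist t s ≤ φ * b := mul_le_mul_of_nonneg_left (ham_le t s) hφ.le
        by_cases g1 : Good t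
        · by_cases g2 : Good s
          · by_cases g3 : Good (sdf t s)
            · have := hb t s g1 g2 g3
              nlinarith [mul_nonneg hφb (add_nonneg (add_nonneg n1 n2) n3)]
            · rw [ind_pos g3]; nlinarith [mul_nonneg hφb (add_nonneg n1 n2)]
          · rw [ind_pos g2]; nlinarith [mul_nonneg hφb (add_nonneg n1 n3)]
        · rw [ind_pos g1]; nlinarith [mul_nonneg hφb (add_nonneg n2 n3)])
    rw [sum2_lin, hone] at h1
    have h2 := m5 univ
    have h6 := hg2 univ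
    simp only [mix_univ] at h2 h6
    rw [h2, Finset.card_univ] at h1
    rw [Finset.sum_add_distrib] at P2
    have h7 := mul_le_mul_of_nonneg_left (add_le_add (add_le_add hg1 h6) hg3) hφb
    linarith
  -- the derivatives
  have hbg : ∀ B, gam p F B ≤ bet p F B ∧ gam p F B ≤ bet p F B ^ 2 := fun B =>
    gam_le (mu p) (dF F B) (mu_nonneg hp0 hp3) m1
      fun t => norm_le_sq (norm_nonneg _) (hq t B)
  have hbn : ∀ B, 0 ≤ bet p F B := fun B =>
    Finset.sum_nonneg fun t _ => mul_nonneg (mu_nonneg hp0 hp3 t) (sq_nonneg _)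
  classical
  set Z : Finset β := {B | bet p F B ≤ 1 - δ / 2} with hZdef
  have h6 : p * (1 - p) * φ * #Z / 2 - (η + 4 * θ * φ * b) ≤
      2 * (p * (1 - p)) * ∑ B ∈ Z, bet p F B := by
    have h1 := sum2_le hp0 hp3 (β := β)
      (f := fun t s => φ / 4 * hammingDist t (mix Z t s) - η - φ * b *
        (ind (¬ Good t) + ind (¬ Good (mix Z t s)) + ind (¬ Good t)))
      (g := fun t s => ‖F t - F (mix Z t s)‖ ^ 2) (fun t s => by
        have n1 := ind_nonneg (¬ Good t)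
        have n2 := ind_nonneg (¬ Good (mix Z t s))
        have n4 := sq_nonneg ‖F t - F (mix Z t s)‖
        have n5 : φ * hammingDist t (mix Z t s) ≤ φ * b :=
          mul_le_mul_of_nonneg_left (ham_le _ _) hφ.le
        by_cases g1 : Good t
        · by_cases g2 : Good (mix Z t s)
          · have := hc t _ g1 g2
            nlinarith [mul_nonneg hφb (add_nonneg (add_nonneg n1 n2) n1)]
          · rw [ind_pos g2]; nlinarith [mul_nonneg hφb (add_nonneg n1 n1)]
        · rw [ind_pos g1]; nlinarith [mul_nonneg hφb n2])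
    rw [sum2_lin, hone, m5 Z] at h1
    have h7 := mul_le_mul_of_nonneg_left (add_le_add (add_le_add hg1 (hg2 Z)) hg1) hφb
    have h8 := P1 Z
    linarith
  have hsplit : ∀ f : β → ℝ, ∑ B, f B = ∑ B ∈ Z, f B + ∑ B ∈ Zᶜ, f B := fun f =>
    (Finset.sum_add_sum_compl Z f).symm
  have hZ : (b - #Z) * (1 - δ / 2) ≤ ∑ B, bet p F B := by
    have h1 : ∑ _B ∈ Zᶜ, (1 - δ / 2) ≤ ∑ B ∈ Zᶜ, bet p F B := by
      refine Finset.sum_le_sum fun B hB => ?_
      rw [Finset.mem_compl, hZdef] at hB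
      simp only [Finset.mem_filter, Finset.mem_univ, true_and, not_le] at hB
      exact hB.le
    have h2 : 0 ≤ ∑ B ∈ Z, bet p F B := Finset.sum_nonneg fun B _ => hbn B
    have h7 : (#Zᶜ : ℝ) = b - #Z := by
      have := Finset.card_add_card_compl Z
      have h8 : (#Z : ℝ) + #Zᶜ = b := by rw [hbdef]; exact_mod_cast this
      linarith
    rw [Finset.sum_const, nsmul_eq_mul, h7] at h1
    rw [hsplit]
    linarith
  have hD : δ / 2 * ∑ B ∈ Z, bet p F B ≤ ∑ B, bet p F B - ∑ B, gam p F B := by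
    rw [← Finset.sum_sub_distrib, hsplit, Finset.mul_sum]
    have h1 : ∑ B ∈ Z, δ / 2 * bet p F B ≤ ∑ B ∈ Z, (bet p F B - gam p F B) := by
      refine Finset.sum_le_sum fun B hB => ?_
      rw [hZdef] at hB
      simp only [Finset.mem_filter, Finset.mem_univ, true_and] at hB
      have := (hbg B).2
      nlinarith [mul_le_mul_of_nonneg_left hB (hbn B)]
    have h2 : 0 ≤ ∑ B ∈ Zᶜ, (bet p F B - gam p F B) :=
      Finset.sum_nonneg fun B _ => by linarith [(hbg B).1]
    linarith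
  have hw : 3 / 16 ≤ p * (1 - p) := by nlinarith
  have := arith hφ hδ hφδ (by positivity : 0 ≤ η + 4 * θ * φ * b) hb0 (Nat.cast_nonneg #Z) hw
    h3 h4 h6 hZ hD
  linarith

end Pool.Agent.Lib.QX
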