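import Pool.Agent.Lib.QX.Kit

namespace Pool.Agent.Lib.QX

open Finset Filter
open scoped BigOperators

namespace RASCN

theorem ev_lin {a : ℝ} (ha : 0 < a) (C : ℝ) : ∀ᶠ b : ℕ in atTop, C ≤ a * b := by
  obtain ⟨n, hn⟩ := exists_nat_ge (C / a)
  filter_upwards [eventually_ge_atTop n] with b hb
  have : (n : ℝ) ≤ b := by exact_mod_cast hb
  rw [div_le_iff₀ ha] at hn
  nlinarith

theorem ev_exp {a : ℝ} (ha : 0 < a) (C : ℝ) :
    ∀ᶠ b : ℕ in atTop, C * (b + 1) ≤ Real.exp (a * b) := by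
  filter_upwards [ev_lin (a := a ^ 2 / 4) (by positivity) C, ev_lin one_pos 1] with b h1 h2
  have h3 := Real.quadratic_le_exp_of_nonneg (x := a * b) (by positivity)
  have h4 : C * (b + 1) ≤ a ^ 2 / 4 * b * (b + 1) :=
    mul_le_mul_of_nonneg_right h1 (by positivity)
  have h5 : 0 ≤ a * b := by positivity
  have h6 : a ^ 2 / 4 * b * (b + 1) ≤ a ^ 2 / 4 * b * (2 * b) :=
    mul_le_mul_of_nonneg_left (by linarith) (by positivity)
  nlinarith

theorem exp_step {C u v w : ℝ} (h : C ≤ Real.exp w) (huv : v + w ≤ u) :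
    C * Real.exp (-u) ≤ Real.exp (-v) := by
  calc C * Real.exp (-u) ≤ Real.exp w * Real.exp (-u) :=
        mul_le_mul_of_nonneg_right h (Real.exp_pos _).le
    _ = Real.exp (w - u) := by rw [← Real.exp_add]; ring_nf
    _ ≤ Real.exp (-v) := Real.exp_le_exp.2 (by linarith)

theorem ceil_sq {κ : ℝ} {b : ℕ} (hκ : 0 < κ) (hb : (0 : ℝ) < b) :
    κ ^ 2 * b ≤ ((⌈κ * b⌉₊ : ℕ) : ℝ) ^ 2 / b := by
  rw [le_div_iff₀ hb]
  have h1 := Nat.le_ceil (κ * b)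
  have h2 : 0 ≤ κ * b := by positivity
  nlinarith

theorem ceil_le {κ : ℝ} {b : ℕ} (h : 1 ≤ κ * b) : ((⌈κ * b⌉₊ : ℕ) : ℝ) ≤ 2 * κ * b := by
  have := Nat.ceil_lt_add_one (a := κ * b) (by linarith)
  linarith

end RASCN

open RASCN

theorem st_ASCN (hFR : FR) (hDN : DN) (hC : CNT) (h1 : SEL1) (h2 : SEL2) (hCo : CORE) : ASCN := by
  intro s J φ δ hφ hδ hφδ ⟨ε', hε', N0, hLB⟩ ρ0 hρ0
  obtain ⟨εF, hεF, mF, hFR⟩ := hFR
  have hδ1 : δ < 1 := by linarith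
  have hδ2 : δ ^ 2 < 1 := by nlinarith
  have hδ3 : 0 < δ ^ 2 := by positivity
  obtain ⟨W, hW⟩ : ∃ W : ℝ, W = 2 ^ J := ⟨_, rfl⟩
  have hW1 : 1 ≤ W := hW ▸ one_le_pow₀ (by norm_num)
  have hW0 : 0 < W := by linarith
  obtain ⟨ρ, hρ, ρ1, ρ2, ρ3⟩ : ∃ ρ : ℝ, 0 < ρ ∧ ρ ≤ ρ0 ∧ ρ ≤ 1 ∧ 16 * W * ρ ≤ ε' := by
    refine ⟨min ρ0 (min 1 (ε' / (16 * W))), by positivity, min_le_left _ _,
      (min_le_right _ _).trans (min_le_left _ _), ?_⟩
    have : min ρ0 (min 1 (ε' / (16 * W))) ≤ ε' / (16 * W) :=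
      (min_le_right _ _).trans (min_le_right _ _)
    rw [le_div_iff₀ (by positivity)] at this
    linarith
  obtain ⟨κ2, hκ2, a1, a2⟩ : ∃ κ2 : ℝ, 0 < κ2 ∧ 1280 * W * κ2 ≤ ρ ∧ 245760 * κ2 ≤ δ ^ 2 := by
    refine ⟨min (ρ / (1280 * W)) (δ ^ 2 / 245760), by positivity, ?_, ?_⟩
    · have := min_le_left (ρ / (1280 * W)) (δ ^ 2 / 245760)
      rw [le_div_iff₀ (by positivity)] at this
      linarith
    · have := min_le_right (ρ / (1280 * W)) (δ ^ 2 / 245760)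
      rw [le_div_iff₀ (by positivity)] at this
      linarith
  obtain ⟨e3, he3, b1, b2, b3⟩ : ∃ e3 : ℝ, 0 < e3 ∧ e3 ≤ εF / 2 ∧ e3 ≤ κ2 ^ 2 / 4 ∧
      e3 ≤ ε' / 8 :=
    ⟨min (εF / 2) (min (κ2 ^ 2 / 4) (ε' / 8)), by positivity, min_le_left _ _,
      (min_le_right _ _).trans (min_le_left _ _), (min_le_right _ _).trans (min_le_right _ _)⟩
  obtain ⟨e2, he2, he23, m1, hDN⟩ := hDN e3 he3
  obtain ⟨κc, hκc, hC⟩ := hC (e2 * ρ / 4) (by positivity)
  obtain ⟨κ, hκ, c1, c2, c3⟩ : ∃ κ : ℝ, 0 < κ ∧ κ ≤ κ2 ∧ 6 * κ ≤ κc ∧ 48 * W * κ ≤ e2 * ρ := by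
    refine ⟨min κ2 (min (κc / 6) (e2 * ρ / (48 * W))), by positivity, min_le_left _ _, ?_, ?_⟩
    · have : min κ2 (min (κc / 6) (e2 * ρ / (48 * W))) ≤ κc / 6 :=
        (min_le_right _ _).trans (min_le_left _ _)
      linarith
    · have : min κ2 (min (κc / 6) (e2 * ρ / (48 * W))) ≤ e2 * ρ / (48 * W) :=
        (min_le_right _ _).trans (min_le_right _ _)
      rw [le_div_iff₀ (by positivity)] at this
      linarith
  obtain ⟨ε, hε, d1, d2, d3, d4⟩ : ∃ ε : ℝ, 0 < ε ∧ ε ≤ ρ / 32 ∧ ε ≤ ε' / 8 ∧ ε ≤ e2 * ρ / 4 ∧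
      ε ≤ κ ^ 2 / 2 :=
    ⟨min (min (ρ / 32) (ε' / 8)) (min (e2 * ρ / 4) (κ ^ 2 / 2)), by positivity,
      (min_le_left _ _).trans (min_le_left _ _), (min_le_left _ _).trans (min_le_right _ _),
      (min_le_right _ _).trans (min_le_left _ _), (min_le_right _ _).trans (min_le_right _ _)⟩
  obtain ⟨th1, hth1⟩ : ∃ th1 : ℝ, th1 = δ ^ 2 / 98304 := ⟨_, rfl⟩
  have hth10 : 0 < th1 := by rw [hth1]; positivity
  obtain ⟨b0, hb0⟩ := eventually_atTop.1 ((ev_lin hκ 1).and ((ev_lin hρ mF).and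
    ((ev_lin hρ m1).and ((ev_lin one_pos (2 * N0)).and
    ((ev_exp (a := κ2 ^ 2 / 2) (by positivity) 13).and
    ((ev_exp (a := εF * ρ / 2) (by positivity) 4).and
    ((ev_exp (a := ε' / 4) (by positivity) 4).and
    ((ev_exp (a := κ ^ 2 / 2) (by positivity) 13).and
    (ev_exp (a := e2 * ρ / 2) (by positivity) (16 / th1))))))))))
  refine ⟨ρ, hρ, ρ1, ε, hε, b0, ?_⟩
  intro β R E _ _ _ _ _ _ _ I hb hm1 hm2 hoff hden
  obtain ⟨l1, l2, l3, l4, l5, l6, l7, l8, l9⟩ := hb0 _ hb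
  by_contra hcon
  have hcon' := not_le.1 hcon
  set b : ℕ := Fintype.card β with hbdef
  set m : ℕ := Fintype.card R with hmdef
  have hb0' : (0 : ℝ) < b := by
    by_contra h
    have : (b : ℝ) = 0 := le_antisymm (not_lt.1 h) (by positivity)
    rw [this] at l1
    linarith
  have hm0 : (0 : ℝ) ≤ m := by positivity
  obtain ⟨r, r1, r3⟩ : ∃ r : ℕ, (r : ℝ) ≤ 2 * κ * b ∧ κ ^ 2 * b ≤ (r : ℝ) ^ 2 / b :=
    ⟨_, ceil_le l1, ceil_sq hκ hb0'⟩
  have mb : ∀ {x y : ℝ}, x ≤ y → x * b ≤ y * b := fun h => mul_le_mul_of_nonneg_right h hb0'.le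
  have c1b := mb c1
  obtain ⟨r2, r2', r4⟩ : ∃ r : ℕ, (r : ℝ) ≤ 2 * κ2 * b ∧ κ2 ^ 2 * b ≤ (r : ℝ) ^ 2 / b :=
    ⟨_, ceil_le (by linarith), ceil_sq hκ2 hb0'⟩
  have hq : (3 * r + 2 * r2 : ℝ) ≤ 10 * κ2 * b := by linarith
  have hμ0 : 0 < I.den := lt_of_lt_of_le (Real.exp_pos _) hden
  have hem : e2 * (ρ * b) ≤ e2 * m := mul_le_mul_of_nonneg_left hm1 he2.le
  have ρ2b := mb ρ2
  have he3m : e3 * m ≤ e3 * (2 * b) := mul_le_mul_of_nonneg_left (by linarith) he3.le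
  have d1b := mb d1
  have d2b := mb d2
  have d3b := mb d3
  have d4b := mb d4
  have b2b := mb b2
  have b3b := mb b3
  have c2b := mb c2
  have c3b := mb c3
  have a1b := mb a1
  have ρ3b := mb ρ3
  have a2b := mb (a2.trans hδ2.le)
  have big : ∀ {C y : ℝ}, 0 ≤ C → C * (b + 1) ≤ y → C ≤ y := fun {C y} h0 h => by
    have := mul_nonneg h0 hb0'.le
    linarith
  have hE1 : 1 ≤ Real.exp (e2 * ρ / 4 * b) := Real.one_le_exp (by positivity)
  have key : 16 * (b + 1) * Real.exp (e2 * ρ / 4 * b) * Real.exp (-(e2 * m)) ≤ I.den * th1 := by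
    have e1 : 16 / th1 * (b + 1) * Real.exp (e2 * ρ / 4 * b) ≤
        Real.exp (e2 * ρ / 2 * b + e2 * ρ / 4 * b) := by
      rw [Real.exp_add]
      exact mul_le_mul_of_nonneg_right l9 (Real.exp_pos _).le
    have e2' := exp_step (u := e2 * m) (v := ε * b) e1 (by linarith)
    have e3' : 16 * (b + 1) * Real.exp (e2 * ρ / 4 * b) * Real.exp (-(e2 * m)) =
        16 / th1 * (b + 1) * Real.exp (e2 * ρ / 4 * b) * Real.exp (-(e2 * m)) * th1 := by
      field_simp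
    rw [e3']
    exact mul_le_mul_of_nonneg_right (e2'.trans hden) hth10.le
  have s1 : 12 * Real.exp (-((r : ℝ) ^ 2 / b)) < I.den := by
    have := exp_step (C := 13) (u := (r : ℝ) ^ 2 / b) (v := ε * b) (w := κ ^ 2 / 2 * b)
      (big (by norm_num) l8) (by linarith)
    have h0 := Real.exp_pos (-((r : ℝ) ^ 2 / b))
    linarith
  have s2 : 16 * (#{K : Finset β | #K ≤ 3 * r} : ℝ) * (b + 1) * Real.exp (-(e2 * m)) ≤
      I.den * th1 := by
    have hcn := hC β (3 * r) (by push_cast; linarith)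
    refine le_trans ?_ key
    refine mul_le_mul_of_nonneg_right ?_ (Real.exp_pos _).le
    have := mul_le_mul_of_nonneg_left hcn (show (0 : ℝ) ≤ 16 * (b + 1) by positivity)
    linarith
  have hpre := h1 s J β R E I (Real.exp (-(e2 * m))) th1 r (Real.exp_pos _).le hth10 s1 s2
  have s3 : 16 * ((b : ℝ) + 1) * Real.exp (-(e2 * m)) ≤ I.den * th1 := by
    refine le_trans ?_ key
    refine mul_le_mul_of_nonneg_right ?_ (Real.exp_pos _).le
    exact le_mul_of_one_le_right (by positivity) hE1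
  have s4 : I.off + 4 * 2 ^ J * ((3 * r : ℕ) : ℝ) ≤ e2 * m := by
    rw [← hW]
    push_cast
    have h1 : W * r ≤ W * (2 * κ * b) := mul_le_mul_of_nonneg_left r1 hW0.le
    have h2 : 0 ≤ e2 * ρ * b := by positivity
    linarith
  have hconf := h2 e3 e2 m1 hDN he23 s J β R E I (Real.exp (-(e2 * m))) th1 (3 * r) hpre hμ0
    hth10 (by exact_mod_cast l3.trans hm1) le_rfl s3 s4
  have hWq : W * (3 * r + 2 * r2) ≤ W * (10 * κ2 * b) := mul_le_mul_of_nonneg_left hq hW0.le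
  have hρW : ρ * b ≤ W * (ρ * b) := le_mul_of_one_le_left (by positivity) hW1
  have hWm : W * m ≤ W * (2 * ρ * b) := mul_le_mul_of_nonneg_left hm2 hW0.le
  have hφb : 0 < φ * b := by positivity
  have f4 : δ ^ 2 * (φ * b) ≤ 1 * (φ * b) := mul_le_mul_of_nonneg_right hδ2.le hφb.le
  have t1 : 12 * Real.exp (-((r2 : ℝ) ^ 2 / b)) < Real.exp (-(e3 * m)) := by
    have := exp_step (C := 13) (u := (r2 : ℝ) ^ 2 / b) (v := e3 * m) (w := κ2 ^ 2 / 2 * b)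
      (big (by norm_num) l5) (by linarith)
    have h0 := Real.exp_pos (-((r2 : ℝ) ^ 2 / b))
    linarith
  have t2 : Real.exp (-(εF * m)) ≤ Real.exp (-(e3 * m)) / 4 := by
    have g1 : εF * (ρ * b) ≤ εF * m := mul_le_mul_of_nonneg_left hm1 hεF.le
    have g2 : e3 * m ≤ εF / 2 * m := mul_le_mul_of_nonneg_right b1 hm0
    have := exp_step (C := 4) (u := εF * m) (v := e3 * m) (w := εF * ρ / 2 * b)
      (big (by norm_num) l6) (by linarith)
    linarith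
  have t3 : 16 * (I.off + 4 * 2 ^ J * (((3 * r : ℕ) : ℝ) + 2 * r2)) ≤ m := by
    rw [← hW]; push_cast; linarith
  have t4 : 2 * (3 * r + 2 * r2) ≤ b := by
    have : 2 * (3 * r + 2 * r2 : ℝ) ≤ b := by linarith
    exact_mod_cast this
  have t5 : 2 * N0 ≤ b := by
    have : (2 * N0 : ℝ) ≤ b := by linarith
    exact_mod_cast this
  have t6 : I.off + 2 ^ J * (4 * (((3 * r : ℕ) : ℝ) + 2 * r2) + m) ≤ ε' * b / 2 := by
    have : 0 ≤ ρ * b := by positivity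
    rw [← hW]; push_cast; linarith
  have t7 : Real.exp (-(ε' * b / 2)) ≤ Real.exp (-(e3 * m)) / 4 := by
    have := exp_step (C := 4) (u := ε' * b / 2) (v := e3 * m) (w := ε' / 4 * b)
      (big (by norm_num) l7) (by linarith)
    linarith
  have hfin := hCo s J φ δ ε' εF N0 mF hφ hδ hφδ hε'.le hLB hFR β R E I _ (6 * th1)
    (φ * b * δ ^ 2 / 1024) (3 * r) r2 hconf (by linarith) (by rw [hth1]; linarith)
    (by positivity) (by linarith) (by linarith) t1 (by exact_mod_cast l2.trans hm1) t2 t3 t4 t5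
    t6 t7
  push_cast at hfin
  rw [hth1] at hfin
  have f1 : φ * (3 * r + 2 * r2) ≤ φ * (10 * κ2 * b) := mul_le_mul_of_nonneg_left hq hφ.le
  have f2 : 245760 * κ2 * (φ * b) ≤ δ ^ 2 * (φ * b) := mul_le_mul_of_nonneg_right a2 hφb.le
  have f3 : 0 < δ ^ 2 * (φ * b) := by positivity
  linarith

end Pool.Agent.Lib.QX
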