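import Pool.Agent.Lib.QX.Kit

namespace Pool.Agent.Lib.QX

open Finset
open scoped BigOperators

namespace RFRAME

theorem ham4 (x y : V4) : hammingDist x y =
    (if x 0 = y 0 then 0 else 1) + (if x 1 = y 1 then 0 else 1) + (if x 2 = y 2 then 0 else 1) +
      (if x 3 = y 3 then 0 else 1) := by
  unfold hammingDist
  rw [Finset.card_filter, Fin.sum_univ_four]
  simp only [ne_eq, ite_not]

theorem ham_xor (z x y : V4) :
    hammingDist (fun r => xor (z r) (x r)) (fun r => xor (z r) (y r)) = hammingDist x y := by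
  unfold hammingDist
  congr 1
  ext r
  cases z r <;> cases x r <;> cases y r <;> simp

theorem opt_eq (ω : Om) (W : Pr) (z : Bool × Bool) :
    opt ω W z = fun r => xor (ω.1 r) (xor (row (ω.2 (if z.1 = z.2 then W.1 else W.2)) r) z.1) := by
  funext r
  unfold opt ln
  rw [Bool.xor_assoc]

theorem row_ne : ∀ (i j : Fin 4) (s s' : Bool), i ≠ j →
    hammingDist (fun r => xor (row i r) s) (fun r => xor (row j r) s') = 2 := by
  intro i j s s' h
  rw [ham4]
  revert i j s s'
  decide

theorem row_eq : ∀ (i : Fin 4) (s s' : Bool),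
    hammingDist (fun r => xor (row i r) s) (fun r => xor (row i r) s') =
      if s = s' then 0 else 4 := by
  intro i s s'
  rw [ham4]
  revert i s s'
  decide

end RFRAME

open RFRAME

theorem st_FRAME : FRAME := by
  refine ⟨?_, ?_, ?_⟩
  · intro ω W W' z z' h
    rw [opt_eq, opt_eq, ham_xor]
    apply row_ne
    obtain ⟨h1, h2, h3, h4⟩ := h
    intro hc
    have := ω.2.injective hc
    split_ifs at this <;> contradiction
  · intro ω W z z' h
    rw [opt_eq, opt_eq, ham_xor, ← h]
    simp only [ite_self]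
    exact row_eq _ _ _
  · intro ω W z z' h
    rw [opt_eq, opt_eq, ham_xor]
    have h' : ω.2 W.1 ≠ ω.2 W.2 := fun hc => h (ω.2.injective hc)
    obtain ⟨a, b⟩ := z
    obtain ⟨a', b'⟩ := z'
    cases a <;> cases b <;> cases a' <;> cases b' <;>
      simp only [if_true, if_false, Bool.false_eq_true, Bool.true_eq_false] <;>
      first
        | exact row_ne _ _ _ _ h'
        | exact row_ne _ _ _ _ h'.symm
        | (rw [row_eq]; simp)

/-- block distance of two families with different lines -/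
theorem db_fam {β : Type} [Fintype β] [DecidableEq β] (kB : β → ℕ) (ω : β → Om) (K : Finset β)
    (c c' : β → V4) (W W' : β → Pr) (h : ∀ B, B ∉ K → Dis (W B) (W' B))
    (g g' : β → Bool × Bool) :
    db kB (fam ω K c W g) (fam ω K c' W' g') = cross kB K c c' := by
  unfold db cross
  refine Finset.sum_congr rfl fun B _ => ?_
  by_cases hB : B ∈ K
  · simp only [fam, hB, if_true]
  · simp only [fam, hB, if_false]
    rw [st_FRAME.1 _ _ _ _ _ (h B hB)]

theorem ham_le_four (x y : V4) : hammingDist x y ≤ 4 := by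
  have := hammingDist_le_card_fintype (x := x) (y := y)
  simpa using this

theorem st_ORT : ORT := by
  intro s J β R E _ _ _ _ _ _ I ω K c c'
  have hk0s : I.k0 + 1 ≤ s := by have := I.hJ; have := I.hk0; omega
  have hH2 : 2 * 2 ^ I.k0 ∣ I.H := by
    refine Dvd.dvd.trans ?_ I.hH
    rw [← pow_succ']
    exact pow_dvd_pow 2 hk0s
  have hcr : 2 ^ I.k0 ∣ cross I.kB K c c' := by
    unfold cross
    refine Finset.dvd_sum fun B _ => Dvd.dvd.mul_right (pow_dvd_pow 2 (I.hk B).1) _
  refine ⟨?_, ?_⟩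
  · obtain ⟨a, ha⟩ := hcr
    obtain ⟨b, hb⟩ := hH2
    refine ⟨2 * b - a, ?_⟩
    rw [ha, hb]
    push_cast
    ring
  · intro D hD
    refine ⟨?_, ?_⟩
    · have hD' : (cross I.kB K c c' : ℝ) + 2 ^ I.k0 * (D : ℝ) = I.H := by exact_mod_cast hD
      have hp : (1 : ℝ) ≤ 2 ^ I.k0 := one_le_pow₀ (by norm_num)
      have hsum : |∑ B, 4 * (2 : ℝ) ^ I.kB B - 2 * (cross I.kB K c c' : ℝ)| ≤ 4 * 2 ^ J * #K := by
        unfold cross
        push_cast
        rw [Finset.mul_sum, ← Finset.sum_sub_distrib]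
        refine (Finset.abs_sum_le_sum_abs _ _).trans ?_
        have : ∀ B ∈ (univ : Finset β), |4 * (2 : ℝ) ^ I.kB B - 2 * (2 ^ I.kB B *
            (if B ∈ K then (hammingDist (c B) (c' B) : ℝ) else 2))| ≤
            if B ∈ K then 4 * 2 ^ J else 0 := by
          intro B _
          have hJ : (2 : ℝ) ^ I.kB B ≤ 2 ^ J := pow_le_pow_right₀ (by norm_num) (I.hk B).2
          have h0 : (0 : ℝ) < 2 ^ I.kB B := by positivity
          split_ifs with hB
          · have h4 : (hammingDist (c B) (c' B) : ℝ) ≤ 4 := by exact_mod_cast ham_le_four _ _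
            have h5 : (0 : ℝ) ≤ hammingDist (c B) (c' B) := by positivity
            rw [abs_le]
            constructor <;> nlinarith
          · have : 4 * (2 : ℝ) ^ I.kB B - 2 * (2 ^ I.kB B * 2) = 0 := by ring
            rw [this, abs_zero]
        refine (Finset.sum_le_sum this).trans ?_
        rw [Finset.sum_ite_mem, univ_inter, Finset.sum_const, nsmul_eq_mul]
        linarith
      have hkey : 2 ^ I.k0 * (2 * (D : ℝ) - Fintype.card R) =
          (2 * (I.H : ℝ) - (∑ B, 4 * (2 : ℝ) ^ I.kB B + 2 ^ I.k0 * Fintype.card R)) +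
          (∑ B, 4 * (2 : ℝ) ^ I.kB B - 2 * (cross I.kB K c c' : ℝ)) := by
        rw [← hD']; ring
      have h1 : |2 ^ I.k0 * (2 * (D : ℝ) - Fintype.card R)| ≤ I.off + 4 * 2 ^ J * #K := by
        rw [hkey]
        exact (abs_add_le _ _).trans (add_le_add le_rfl hsum)
      rw [abs_mul, abs_of_pos (by positivity : (0 : ℝ) < 2 ^ I.k0)] at h1
      have h2 := abs_nonneg (2 * (D : ℝ) - Fintype.card R)
      nlinarith
    · intro W W' hW a a'
      refine ⟨?_, ?_⟩
      · intro g g' h1 h2
        have hp := I.par _ _ _ _ h1 h2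
        rw [db_fam _ _ _ _ _ _ _ hW] at hp
        obtain ⟨x, hx⟩ := hp
        obtain ⟨y, hy⟩ := hH2
        have hx' : (cross I.kB K c c' : ℤ) + 2 ^ I.k0 * (hammingDist a a' : ℤ) =
            2 * 2 ^ I.k0 * x := by exact_mod_cast hx
        have hy' : (I.H : ℤ) = 2 * 2 ^ I.k0 * y := by exact_mod_cast hy
        have hne : (2 : ℤ) ^ I.k0 ≠ 0 := by positivity
        refine ⟨(x : ℤ) - y, ?_⟩
        apply mul_left_cancel₀ hne
        linear_combination hx' - hD - hy'
      · intro hh
        unfold Inst.spanF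
        rw [Submodule.isOrtho_span]
        rintro _ ⟨g, h1, rfl⟩ _ ⟨g', h2, rfl⟩
        apply I.orth _ _ _ _ h1 h2
        rw [db_fam _ _ _ _ _ _ _ hW]
        rw [← hh] at hD
        exact_mod_cast hD

end Pool.Agent.Lib.QX
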