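import Pool.Agent.Lib.QX.Kit

namespace Pool.Agent.Lib.QX

open Finset
open scoped BigOperators

namespace RMENU

/-- first witness, by the membership of the block in the two sets -/
def m1 (a b : Bool) : Fin 4 → Pr :=
  if a = true then (if b = true then ![(2, 2), (2, 2), (2, 2), (3, 3)]
    else ![(2, 2), (2, 2), (3, 3), (2, 2)])
  else (if b = true then ![(2, 1), (2, 1), (3, 1), (2, 2)] else ![(2, 1), (2, 2), (2, 3), (1, 1)])

/-- second witness -/
def m2 (a b : Bool) : Fin 4 → Pr :=
  if a = true then (if b = true then ![(3, 3), (3, 3), (3, 3), (2, 2)]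
    else ![(3, 1), (3, 1), (2, 1), (3, 3)])
  else (if b = true then ![(3, 3), (3, 3), (2, 2), (3, 3)] else ![(3, 3), (3, 1), (1, 1), (2, 3)])

theorem dis1 : ∀ (a b : Bool) (τ : Fin 4), Dis (m1 a b τ) (0, if a = true then 1 else 0) ∧
    Dis (m2 a b τ) (0, if b = true then 1 else 0) ∧ Dis (m1 a b τ) (m2 a b τ) := by
  unfold Dis
  decide

theorem lc1 : ∀ (a b : Bool) (i : Fin 4),
    lcnt (m1 a b) i = lcnt (fun τ => (role 3, snd2 3 a τ)) i ∧
    lcnt (m2 a b) i = lcnt (fun τ => (role 4, snd2 4 b τ)) i := by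
  unfold lcnt
  decide

theorem nl1 : ∀ (a b : Bool) (τ : Fin 4),
    2 * (nl (m1 a b τ) + nl (m2 a b τ)) + (if a = true then 1 else 0) +
      (if b = true then 1 else 0) + 2 * (if a ≠ b ∧ τ = 3 then 1 else 0) =
      6 + (if a ≠ b then 1 else 0) := by
  decide

theorem dis0 : ∀ (a b : Bool) (τ : Fin 4),
    Dis (role 1, snd2 1 a τ) (0, if a = true then 1 else 0) ∧
    Dis (role 2, snd2 2 (a && !b) τ) (0, if b = true then 1 else 0) ∧
    Dis (role 1, snd2 1 a τ) (role 2, snd2 2 (a && !b) τ) := by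
  unfold Dis
  decide

theorem nl0 : ∀ (a b : Bool) (τ : Fin 4),
    2 * (nl (role 1, snd2 1 a τ) + nl (role 2, snd2 2 (a && !b) τ)) +
      (if a = true then 1 else 0) + (if b = true then 1 else 0) =
      6 + (if a ≠ b then 1 else 0) := by
  decide

variable {β : Type} [Fintype β] [DecidableEq β]

theorem ex_eval {X : Type} [Fintype X] [Nonempty X] (B : β) (f : X → ℝ) :
    𝔼 τ : β → X, f (τ B) = 𝔼 x, f x := by
  have h := ex_equiv (Equiv.funSplitAt B X) (fun p => f p.1)
  rw [ex_prod] at h
  simp only [ex_const] at h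
  exact h

omit [DecidableEq β] in
theorem cnt_eq (t : β → Bool) : (cnt t : ℝ) = ∑ B, if t B = true then (1 : ℝ) else 0 := by
  unfold cnt
  rw [Finset.sum_boole]

omit [DecidableEq β] in
theorem ham_eq (t t' : β → Bool) :
    (hammingDist t t' : ℝ) = ∑ B, if t B ≠ t' B then (1 : ℝ) else 0 := by
  unfold hammingDist
  rw [Finset.sum_boole]

end RMENU

open RMENU

theorem st_MENU : MENU := by
  intro β _ _ t t'
  have hb : (6 : ℝ) * Fintype.card β = ∑ _B : β, (6 : ℝ) := by
    rw [Finset.sum_const, nsmul_eq_mul, Finset.card_univ]; ring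
  refine ⟨⟨fun B τ => (dis0 (t B) (t' B) τ).1, fun B τ => (dis0 (t B) (t' B) τ).2.1,
    fun B τ => (dis0 (t B) (t' B) τ).2.2, fun τ => ?_⟩, ?_⟩
  · rw [hb, cnt_eq, cnt_eq, ham_eq, ← Finset.sum_add_distrib, ← Finset.sum_sub_distrib,
      ← Finset.sum_sub_distrib, Finset.mul_sum]
    refine Finset.sum_le_sum fun B _ => ?_
    have h := nl0 (t B) (t' B) (τ B)
    have h' : 2 * ((nl (role 1, snd2 1 (t B) (τ B)) : ℝ) +
        nl (role 2, snd2 2 (t B && !t' B) (τ B))) + (if t B = true then 1 else 0) +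
        (if t' B = true then 1 else 0) = 6 + (if t B ≠ t' B then 1 else 0) := by
      exact_mod_cast h
    change _ ≤ 2 * ((nl (role 1, snd2 1 (t B) (τ B)) : ℝ) +
        nl (role 2, snd2 2 (t B && !t' B) (τ B)))
    linarith
  · set c3 : (β → Fin 4) → ℝ := fun τ => ∑ B, if t B ≠ t' B ∧ τ B = 3 then (1 : ℝ) else 0
      with hc3
    refine ⟨fun B => m1 (t B) (t' B), fun B => m2 (t B) (t' B),
      fun τ => c3 τ ≤ 3 / 8 * hammingDist t t', fun B τ => (dis1 (t B) (t' B) τ).1,
      fun B τ => (dis1 (t B) (t' B) τ).2.1, fun B τ => (dis1 (t B) (t' B) τ).2.2,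
      fun B i => (lc1 (t B) (t' B) i).1, fun B i => (lc1 (t B) (t' B) i).2, ?_, ?_⟩
    · have h0 : ∀ τ, 0 ≤ c3 τ := fun τ =>
        Finset.sum_nonneg fun B _ => by split_ifs <;> norm_num
      have he : 𝔼 τ, c3 τ = hammingDist t t' / 4 := by
        simp only [hc3]
        rw [ex_sum, ham_eq, Finset.sum_div]
        refine Finset.sum_congr rfl fun B _ => ?_
        rw [ex_eval B (fun x : Fin 4 => if t B ≠ t' B ∧ x = 3 then (1 : ℝ) else 0),
          Fintype.expect_eq_sum_div_card, Fin.sum_univ_four]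
        by_cases h : t B = t' B
        · simp [h]
        · simp [h]
      by_cases hz : (hammingDist t t' : ℝ) = 0
      · have : dens (fun _ : β → Fin 4 => True) ≤
            dens (fun τ => c3 τ ≤ 3 / 8 * hammingDist t t') := by
          refine dens_mono fun τ _ => ?_
          have hz' : hammingDist t t' = 0 := by exact_mod_cast hz
          have e : t = t' := hammingDist_eq_zero.1 hz'
          simp [hc3, e]
        refine le_trans ?_ this
        unfold dens
        simp only [ind_pos trivial, ex_const]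
        norm_num
      · have hp : (0 : ℝ) < hammingDist t t' := lt_of_le_of_ne (by positivity) (Ne.symm hz)
        have hm := dens_markov (a := 3 / 8 * hammingDist t t') h0
        have hn := dens_not (fun τ => 3 / 8 * (hammingDist t t' : ℝ) ≤ c3 τ)
        have h2 : dens (fun τ => ¬ 3 / 8 * (hammingDist t t' : ℝ) ≤ c3 τ) ≤
            dens (fun τ => c3 τ ≤ 3 / 8 * hammingDist t t') :=
          dens_mono fun τ h => (not_le.1 h).le
        rw [he] at hm
        have h3 : dens (fun τ => 3 / 8 * (hammingDist t t' : ℝ) ≤ c3 τ) ≤ 2 / 3 := by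
          by_contra hc
          have := not_le.1 hc
          nlinarith
        linarith
    · intro τ hτ
      have : 6 * (Fintype.card β : ℝ) + hammingDist t t' - cnt t - cnt t' - 2 * c3 τ =
          2 * ∑ B, ((nl (m1 (t B) (t' B) (τ B)) : ℝ) + nl (m2 (t B) (t' B) (τ B))) := by
        simp only [hc3]
        rw [hb, cnt_eq, cnt_eq, ham_eq, Finset.mul_sum, ← Finset.sum_add_distrib,
          ← Finset.sum_sub_distrib, ← Finset.sum_sub_distrib, ← Finset.sum_sub_distrib,
          Finset.mul_sum]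
        refine Finset.sum_congr rfl fun B _ => ?_
        have h := nl1 (t B) (t' B) (τ B)
        have h' : 2 * ((nl (m1 (t B) (t' B) (τ B)) : ℝ) + nl (m2 (t B) (t' B) (τ B))) +
            (if t B = true then 1 else 0) + (if t' B = true then 1 else 0) +
            2 * (if t B ≠ t' B ∧ τ B = 3 then 1 else 0) =
            6 + (if t B ≠ t' B then 1 else 0) := by
          exact_mod_cast h
        linarith
      linarith

end Pool.Agent.Lib.QX
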