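import Pool.Agent.Lib.QX.Kit

/-! Push-forward of product weights. -/

namespace Pool.Agent.Lib.QX

open Finset
open scoped BigOperators

theorem st_PUSH : PUSH := by
  intro β X Y _ _ _ _ _ ν ψ G
  rw [← Finset.sum_fiberwise (s := univ) (g := fun x : β → X => fun B => ψ B (x B))]
  refine Finset.sum_congr rfl fun y _ => ?_
  rw [Finset.prod_univ_sum, Finset.sum_mul]
  refine Finset.sum_congr ?_ fun x hx => ?_
  · ext x
    simp [Fintype.mem_piFinset, funext_iff]
  · have : (fun B => ψ B (x B)) = y := by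
      simpa [Fintype.mem_piFinset, funext_iff] using hx
    rw [this]

namespace RPUSH

variable {β X : Type} [Fintype β] [DecidableEq β] [Fintype X]

lemma tot (ν : β → X → ℝ) : ∑ x : β → X, ∏ B, ν B (x B) = ∏ B, ∑ a, ν B a := by
  rw [Finset.prod_univ_sum, Fintype.piFinset_univ]

lemma marg (ν : X → ℝ) (h : ∑ a, ν a = 1) (B0 : β) (g : X → ℝ) :
    ∑ x : β → X, (∏ B, ν (x B)) * g (x B0) = ∑ a, ν a * g a := by
  have h1 : ∀ x : β → X, (∏ B, ν (x B)) * g (x B0) =
      ∏ B, (ν (x B) * if B = B0 then g (x B) else 1) := fun x => by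
    rw [Finset.prod_mul_distrib, Finset.prod_ite_eq' univ B0 fun B => g (x B),
      if_pos (mem_univ _)]
  simp only [h1]
  rw [tot fun B a => ν a * if B = B0 then g a else 1, Finset.prod_eq_single B0]
  · simp
  · intro B _ hB
    simp [hB, h]
  · simp

/-- the weight of one coordinate -/
noncomputable def w1 (p : ℝ) (b : Bool) : ℝ := if b = true then p else 1 - p

noncomputable def w2 (p : ℝ) (z : Bool × Bool) : ℝ := w1 p z.1 * w1 p z.2

lemma w1_sum (p : ℝ) : ∑ b, w1 p b = 1 := by simp [w1]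

lemma w2_sum (p : ℝ) : ∑ z, w2 p z = 1 := by
  simp [w2, w1, Fintype.sum_prod_type]; ring

lemma pair (p : ℝ) (H : (β → Bool) → (β → Bool) → ℝ) :
    ∑ t, ∑ s, mu p t * mu p s * H t s =
      ∑ x : β → Bool × Bool, (∏ B, w2 p (x B)) * H (fun B => (x B).1) fun B => (x B).2 := by
  rw [← Fintype.sum_prod_type' fun t s => mu p t * mu p s * H t s]
  refine (Fintype.sum_equiv (Equiv.arrowProdEquivProdArrow β (fun _ => Bool) fun _ => Bool) _ _
    fun x => ?_).symm
  simp only [w2, Finset.prod_mul_distrib]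
  rfl

lemma fib (M : Fin 4 → Pr) (y : Fin 4 × Bool) :
    ∑ x : Fin 4 × Bool × Bool with
      ((if x.2.1 = x.2.2 then (M x.1).1 else (M x.1).2, x.2.1) : Fin 4 × Bool) = y, (1 : ℝ) =
      lcnt M y.1 := by
  obtain ⟨i, b⟩ := y
  unfold lcnt
  rw [Finset.card_filter, Finset.sum_filter, Fintype.sum_prod_type, Fintype.sum_prod_type]
  push_cast
  refine Finset.sum_congr rfl fun τ _ => ?_
  rw [Fintype.sum_prod_type]
  cases b <;> simp only [Fintype.sum_bool] <;> simp [add_comm]

lemma sd_eq (hP : PUSH) (Φ : (β → V4) → ℝ) (ω : β → Om) (K : Finset β) (c : β → V4)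
    (M : β → Fin 4 → Pr) : sd Φ ω K c M =
      (∑ y : β → Fin 4 × Bool, (∏ B, (lcnt (M B) (y B).1 : ℝ)) *
        Φ fun B => if B ∈ K then c B else fun r => xor (ln (ω B) (y B).1 r) (y B).2) /
      Fintype.card ((β → Fin 4) × (β → Bool × Bool)) := by
  have h := hP β (Fin 4 × Bool × Bool) (Fin 4 × Bool) (fun _ _ => 1)
    (fun B x => (if x.2.1 = x.2.2 then (M B x.1).1 else (M B x.1).2, x.2.1))
    fun y => Φ fun B => if B ∈ K then c B else fun r => xor (ln (ω B) (y B).1 r) (y B).2
  simp only [fib] at h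
  rw [← h]
  unfold sd hd
  rw [← ex_prod fun q : (β → Fin 4) × (β → Bool × Bool) =>
    Φ (fam ω K c (fun B => M B (q.1 B)) q.2), Fintype.expect_eq_sum_div_card]
  congr 1
  refine (Fintype.sum_equiv
    (Equiv.arrowProdEquivProdArrow β (fun _ => Fin 4) fun _ => Bool × Bool) _ _ fun x => ?_).symm
  rw [Finset.prod_const_one, one_mul]
  rfl

end RPUSH

open RPUSH in
theorem st_MUP (hP : PUSH) : MUP := by
  intro β _ _ p
  refine ⟨?_, ?_, fun Z G => ?_, fun G => ?_, fun Z => ?_⟩
  · have := tot (β := β) fun _ b => w1 p b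
    simp only [w1_sum, Finset.prod_const_one] at this
    exact this
  · have h1 : ∀ t : β → Bool, mu p t * cnt t =
        ∑ B0, (∏ B, w1 p (t B)) * (fun b => if b = true then (1 : ℝ) else 0) (t B0) := fun t => by
      rw [← Finset.mul_sum, Finset.sum_boole]; rfl
    simp only [h1]
    rw [Finset.sum_comm, Finset.sum_congr rfl fun B0 _ => marg (w1 p) (w1_sum p) B0
      fun b => if b = true then (1 : ℝ) else 0]
    simp [w1, mul_comm]
  · rw [pair p fun t s => G (mix Z t s)]
    refine (hP β (Bool × Bool) Bool (fun _ => w2 p)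
      (fun B z => if B ∈ Z then z.2 else z.1) G).trans ?_
    refine Finset.sum_congr rfl fun y _ => ?_
    congr 1
    refine Finset.prod_congr rfl fun B _ => ?_
    rw [Finset.sum_filter, Fintype.sum_prod_type]
    by_cases hB : B ∈ Z <;> cases y B <;> simp [hB, w2, w1] <;> ring
  · rw [pair p fun t s => G (sdf t s)]
    refine (hP β (Bool × Bool) Bool (fun _ => w2 p) (fun _ z => z.1 && !z.2) G).trans ?_
    refine Finset.sum_congr rfl fun y _ => ?_
    congr 1
    refine Finset.prod_congr rfl fun B _ => ?_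
    rw [Finset.sum_filter, Fintype.sum_prod_type]
    cases y B <;> simp [w2, w1] <;> ring
  · rw [pair p fun t s => (hammingDist t (mix Z t s) : ℝ)]
    have h1 : ∀ x : β → Bool × Bool, (∏ B, w2 p (x B)) *
        (hammingDist (fun B => (x B).1) (mix Z (fun B => (x B).1) fun B => (x B).2) : ℝ) =
        ∑ B0 ∈ Z, (∏ B, w2 p (x B)) *
          (fun z : Bool × Bool => if z.1 ≠ z.2 then (1 : ℝ) else 0) (x B0) := fun x => by
      rw [← Finset.mul_sum, Finset.sum_boole]
      congr 2
      unfold hammingDist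
      congr 1
      ext B
      by_cases hB : B ∈ Z <;> simp [mix, hB]
    simp only [h1]
    rw [Finset.sum_comm, Finset.sum_congr rfl fun B0 _ => marg (w2 p) (w2_sum p) B0
      fun z : Bool × Bool => if z.1 ≠ z.2 then (1 : ℝ) else 0,
      Finset.sum_const, nsmul_eq_mul, Fintype.sum_prod_type]
    simp [w2, w1]; ring

theorem st_SDEQ (hP : PUSH) : SDEQ := by
  intro β _ _ Φ ω K c M M' h
  rw [RPUSH.sd_eq hP, RPUSH.sd_eq hP]
  simp only [h]

end Pool.Agent.Lib.QX
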